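import Pool.Agent.Helper19.V4.Defs

/-!
# V4-3: linear sums modulo `b`

For `θ = a m / b` not an integer `|∑_{n ∈ (u, v]} e(θ n)| ≤ 1/|sin π θ| ≤ 1/(2 ‖θ‖)`. If `b ∣ m`, the inner sum is `≤ v(m) ≤ X/m`, and `∑_{b ∣ m ≤ M1} X/m ≤ (X/b)(1 + log M1)`.
The other `m ≤ M1` are cut into at most `M1/b + 1` blocks of `b` consecutive integers; in one block `a m` runs over every residue class `r` modulo `b` at most once, so the block gives
`≤ ∑_{r=1}^{b-1} b / (2 min(r, b - r)) ≤ b (1 + log b)`. Total `≤ (X/b)(1 + log M1) + (M1 + b)(1 + log b)`.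
-/

namespace Pool.Helper19.V4

open ArithmeticFunction Finset

private lemma norm_ex_sub_one_h4 (x : ℝ) : ‖ex x - 1‖ = 2 * |Real.sin (Real.pi * x)| := by
  unfold ex
  rw [mul_comm, Complex.norm_exp_I_mul_ofReal_sub_one, Real.norm_eq_abs, abs_mul,
    abs_of_pos (by norm_num : (0 : ℝ) < 2)]
  congr 3
  ring

/-- lower bound at fractions -/
private lemma ex_frac_h4 {b r : ℕ} (hr0 : 0 < r) (hrb : r < b) :
    2 / ‖ex ((r : ℝ) / b) - 1‖ ≤ (b : ℝ) / (2 * r) + (b : ℝ) / (2 * ((b : ℝ) - r)) := by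
  have hr : (0 : ℝ) < r := by exact_mod_cast hr0
  have hb : (0 : ℝ) < b := by exact_mod_cast (hr0.trans hrb)
  have hbr : (0 : ℝ) < (b : ℝ) - r := by
    have : (r : ℝ) < b := by exact_mod_cast hrb
    linarith
  have hpi := Real.pi_pos
  rw [norm_ex_sub_one_h4]
  rcases le_total ((r : ℝ) / b) (1 / 2) with h | h
  · have h1 : 2 / Real.pi * (Real.pi * ((r : ℝ) / b)) ≤ Real.sin (Real.pi * ((r : ℝ) / b)) := by
      apply Real.mul_le_sin
      · positivity
      · nlinarith
    have h2 : 2 / Real.pi * (Real.pi * ((r : ℝ) / b)) = 2 * r / b := by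
      field_simp
    rw [h2] at h1
    have h3 : 0 < 2 * (r : ℝ) / b := by positivity
    rw [abs_of_pos (h3.trans_le h1)]
    have h4 : 2 / (2 * Real.sin (Real.pi * ((r : ℝ) / b))) ≤ 2 / (2 * (2 * r / b)) :=
      div_le_div_of_nonneg_left (by norm_num) (by positivity) (by linarith)
    have h5 : 2 / (2 * (2 * (r : ℝ) / b)) = (b : ℝ) / (2 * r) := by field_simp
    have h6 : 0 < (b : ℝ) / (2 * ((b : ℝ) - r)) := by positivity
    linarith
  · have h1 : 2 / Real.pi * (Real.pi * (1 - (r : ℝ) / b)) ≤ Real.sin (Real.pi * (1 - (r : ℝ) / b)) := by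
      apply Real.mul_le_sin
      · have : (r : ℝ) / b ≤ 1 := by
          rw [div_le_one hb]
          linarith
        have : 0 ≤ 1 - (r : ℝ) / b := by linarith
        positivity
      · nlinarith
    have h0 : Real.sin (Real.pi * (1 - (r : ℝ) / b)) = Real.sin (Real.pi * ((r : ℝ) / b)) := by
      rw [← Real.sin_pi_sub]
      congr 1
      ring
    rw [h0] at h1
    have h2 : 2 / Real.pi * (Real.pi * (1 - (r : ℝ) / b)) = 2 * ((b : ℝ) - r) / b := by
      field_simp
    rw [h2] at h1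
    have h3 : 0 < 2 * ((b : ℝ) - r) / b := by positivity
    rw [abs_of_pos (h3.trans_le h1)]
    have h4 : 2 / (2 * Real.sin (Real.pi * ((r : ℝ) / b))) ≤ 2 / (2 * (2 * ((b : ℝ) - r) / b)) :=
      div_le_div_of_nonneg_left (by norm_num) (by positivity) (by linarith)
    have h5 : 2 / (2 * (2 * ((b : ℝ) - r) / b)) = (b : ℝ) / (2 * ((b : ℝ) - r)) := by field_simp
    have h6 : 0 < (b : ℝ) / (2 * r) := by positivity
    linarith

private lemma geom_h4 (x : ℝ) (hx : ex x ≠ 1) (u v : ℕ) :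
    ‖∑ n ∈ Ioc u v, ex (x * n)‖ ≤ 2 / ‖ex x - 1‖ := by
  have hpos : 0 < ‖ex x - 1‖ := norm_pos_iff.2 (sub_ne_zero.2 hx)
  have hpow : ∀ n : ℕ, ex (x * n) = ex x ^ n := by
    intro n
    induction n with
    | zero => simp [ex_zero]
    | succ k ih =>
      rw [pow_succ, ← ih, ← ex_add]
      congr 1
      push_cast
      ring
  rcases le_total u v with h | h
  · have h1 : ∀ w : ℕ, (∑ n ∈ Ioc u (u + w), ex (x * n)) * (ex x - 1) = ex x ^ (u + w + 1) - ex x ^ (u + 1) := by
      intro w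
      induction w with
      | zero => simp
      | succ k ih =>
        rw [← add_assoc, Finset.sum_Ioc_succ_top (by omega), add_mul, ih, hpow]
        ring
    obtain ⟨w, rfl⟩ := Nat.exists_eq_add_of_le h
    have h2 := congrArg norm (h1 w)
    rw [norm_mul] at h2
    have h3 : ‖ex x ^ (u + w + 1) - ex x ^ (u + 1)‖ ≤ 2 := by
      refine (norm_sub_le _ _).trans ?_
      rw [norm_pow, norm_pow, norm_ex, one_pow, one_pow]
      norm_num
    rw [le_div_iff₀ hpos]
    linarith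
  · rw [Finset.Ioc_eq_empty_of_le h, Finset.sum_empty, norm_zero]
    positivity

private lemma count_h4 {a : ℤ} {b : ℕ} (hb : 1 ≤ b) (hab : IsCoprime a (b : ℤ)) (M1 : ℕ) (r : ℤ) :
    ((Icc 1 M1).filter (fun m : ℕ => (a * m) % b = r)).card ≤ M1 / b + 1 := by
  have h := Finset.card_le_card_of_injOn (s := (Icc 1 M1).filter (fun m : ℕ => (a * m) % b = r))
    (t := range (M1 / b + 1)) (fun m => m / b) ?_ ?_
  · rwa [card_range] at h
  · intro m hm
    rw [Finset.mem_coe, mem_filter, mem_Icc] at hm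
    rw [Finset.mem_coe, mem_range]
    have := Nat.div_le_div_right (c := b) hm.1.2
    dsimp only
    omega
  · intro m hm n hn hmn
    rw [Finset.mem_coe, mem_filter, mem_Icc] at hm hn
    have hmn' : m / b = n / b := hmn
    have h1 : (a * m) ≡ (a * n) [ZMOD (b : ℤ)] := hm.2.trans hn.2.symm
    have h2 : (b : ℤ) ∣ a * n - a * m := Int.modEq_iff_dvd.1 h1
    have h3 : (b : ℤ) ∣ (n : ℤ) - m := by
      rw [← mul_sub] at h2
      exact hab.symm.dvd_of_dvd_mul_left h2
    have h4 : (m : ℤ) ≡ n [ZMOD (b : ℤ)] := Int.modEq_iff_dvd.2 h3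
    have h5 : m % b = n % b := Int.natCast_modEq_iff.1 h4
    rw [← Nat.div_add_mod m b, ← Nat.div_add_mod n b, hmn', h5]

private lemma harm_h4 (n : ℕ) : ∑ i ∈ range n, (1 : ℝ) / ((i : ℝ) + 1) ≤ 1 + Real.log n := by
  have h := harmonic_le_one_add_log n
  have h1 : ((harmonic n : ℚ) : ℝ) = ∑ i ∈ range n, (1 : ℝ) / ((i : ℝ) + 1) := by
    unfold harmonic
    push_cast
    refine Finset.sum_congr rfl fun i _ => ?_
    rw [one_div]
  rw [h1] at h
  exact h

theorem type_one {a : ℤ} {b : ℕ} (hb : 1 ≤ b) (hab : IsCoprime a (b : ℤ)) (M1 : ℕ) {X : ℝ} (hX : 0 ≤ X)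
    (u v : ℕ → ℕ) (hv : ∀ m, 1 ≤ m → m ≤ M1 → (m : ℝ) * v m ≤ X) :
    ∑ m ∈ Icc 1 M1, ‖∑ n ∈ Ioc (u m) (v m), ex ((a : ℝ) * ((m : ℝ) * n) / b)‖ ≤
      (X / b + 2 * ((M1 : ℝ) + b)) * (1 + Real.log ((M1 : ℝ) + b)) := by
  classical
  have hb0 : (0 : ℝ) < b := by exact_mod_cast hb
  have hbz : (0 : ℤ) < b := by exact_mod_cast hb
  have hM0 : (0 : ℝ) ≤ M1 := Nat.cast_nonneg M1
  have hb1 : (1 : ℝ) ≤ b := by exact_mod_cast hb
  obtain ⟨Lg, hLg⟩ : ∃ Lg : ℝ, Lg = 1 + Real.log ((M1 : ℝ) + b) := ⟨_, rfl⟩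
  have hLg1 : 1 ≤ Lg := by
    rw [hLg]
    have := Real.log_nonneg (by linarith : (1 : ℝ) ≤ (M1 : ℝ) + b)
    linarith
  rw [← hLg]
  have hlogle : ∀ n : ℕ, (n : ℝ) ≤ (M1 : ℝ) + b → 1 + Real.log n ≤ Lg := by
    intro n hn
    rw [hLg]
    rcases Nat.eq_zero_or_pos n with h | h
    · rw [h, Nat.cast_zero, Real.log_zero]
      have := Real.log_nonneg (by linarith : (1 : ℝ) ≤ (M1 : ℝ) + b)
      linarith
    · have : Real.log n ≤ Real.log ((M1 : ℝ) + b) := Real.log_le_log (by exact_mod_cast h) hn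
      linarith
  -- the weight
  obtain ⟨W, hW⟩ : ∃ W : ℤ → ℝ, W = fun r : ℤ => (b : ℝ) / (2 * (r : ℝ)) + (b : ℝ) / (2 * ((b : ℝ) - (r : ℝ))) := ⟨_, rfl⟩
  -- the terms
  have hterm1 : ∀ m ∈ Icc 1 M1, (a * m) % b = 0 →
      ‖∑ n ∈ Ioc (u m) (v m), ex ((a : ℝ) * ((m : ℝ) * n) / b)‖ ≤ X / m := by
    intro m hm _
    rw [mem_Icc] at hm
    have hm0 : (0 : ℝ) < m := by exact_mod_cast hm.1
    calc ‖∑ n ∈ Ioc (u m) (v m), ex ((a : ℝ) * ((m : ℝ) * n) / b)‖
        ≤ ∑ n ∈ Ioc (u m) (v m), ‖ex ((a : ℝ) * ((m : ℝ) * n) / b)‖ := norm_sum_le _ _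
      _ = ((Ioc (u m) (v m)).card : ℝ) := by
          simp only [norm_ex, Finset.sum_const, nsmul_eq_mul, mul_one]
      _ ≤ v m := by
          rw [Nat.card_Ioc]
          exact_mod_cast Nat.sub_le _ _
      _ ≤ X / m := by
          rw [le_div_iff₀ hm0, mul_comm]
          exact hv m hm.1 hm.2
  have hterm2 : ∀ m ∈ Icc 1 M1, (a * m) % b ≠ 0 →
      ‖∑ n ∈ Ioc (u m) (v m), ex ((a : ℝ) * ((m : ℝ) * n) / b)‖ ≤ W ((a * m) % b) := by
    intro m hm hr
    obtain ⟨r, hrr⟩ : ∃ r : ℕ, (r : ℤ) = (a * m) % b :=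
      ⟨((a * m) % b).toNat, Int.toNat_of_nonneg (Int.emod_nonneg _ hbz.ne')⟩
    rw [← hrr] at hr ⊢
    have hr0 : 0 < r := by
      rcases Nat.eq_zero_or_pos r with h | h
      · exact absurd (by rw [h]; rfl) hr
      · exact h
    have hrb : r < b := by
      have := Int.emod_lt_of_pos (a * m) hbz
      rw [← hrr] at this
      exact_mod_cast this
    have hx : ex ((a : ℝ) * m / b) = ex ((r : ℝ) / b) := by
      have h1 : (a * m : ℤ) = r + b * ((a * m) / b) := by
        rw [hrr]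
        exact (Int.emod_add_mul_ediv (a * m) b).symm
      have h2 : (a : ℝ) * m = r + b * (((a * m) / (b : ℤ) : ℤ) : ℝ) := by exact_mod_cast h1
      rw [h2]
      have h3 : ((r : ℝ) + b * (((a * m) / (b : ℤ) : ℤ) : ℝ)) / b = (r : ℝ) / b + (((a * m) / (b : ℤ) : ℤ) : ℝ) := by
        field_simp
      rw [h3, ex_add_int]
    have hfr := ex_frac_h4 hr0 hrb
    have hne : ex ((a : ℝ) * m / b) ≠ 1 := by
      rw [hx]
      intro h1
      have h2 := norm_ex_sub_one_h4 ((r : ℝ) / b)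
      rw [h1, sub_self, norm_zero] at h2
      have h3 : 0 < Real.sin (Real.pi * ((r : ℝ) / b)) := by
        apply Real.sin_pos_of_pos_of_lt_pi
        · have : (0 : ℝ) < r := by exact_mod_cast hr0
          positivity
        · have : (r : ℝ) / b < 1 := by
            rw [div_lt_one hb0]
            exact_mod_cast hrb
          have := Real.pi_pos
          nlinarith
      rw [abs_of_pos h3] at h2
      linarith
    have hg := geom_h4 ((a : ℝ) * m / b) hne (u m) (v m)
    rw [hx] at hg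
    have he : ∀ n : ℕ, ex ((a : ℝ) * ((m : ℝ) * n) / b) = ex ((a : ℝ) * m / b * n) := by
      intro n
      congr 1
      ring
    simp only [he]
    refine hg.trans (hfr.trans (le_of_eq ?_))
    rw [hW]
    push_cast
    rfl
  -- split
  have hsplit : ∑ m ∈ Icc 1 M1, ‖∑ n ∈ Ioc (u m) (v m), ex ((a : ℝ) * ((m : ℝ) * n) / b)‖ ≤
      ∑ m ∈ (Icc 1 M1).filter (fun m : ℕ => (a * m) % b = 0), X / m +
      ∑ m ∈ (Icc 1 M1).filter (fun m : ℕ => ¬ (a * m) % b = 0), W ((a * m) % b) := by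
    rw [← Finset.sum_filter_add_sum_filter_not (Icc 1 M1) (fun m : ℕ => (a * m) % b = 0)]
    refine add_le_add (Finset.sum_le_sum fun m hm => ?_) (Finset.sum_le_sum fun m hm => ?_)
    · rw [mem_filter] at hm
      exact hterm1 m hm.1 hm.2
    · rw [mem_filter] at hm
      exact hterm2 m hm.1 hm.2
  -- multiples of `b`
  have hmul : ∑ m ∈ (Icc 1 M1).filter (fun m : ℕ => (a * m) % b = 0), X / m ≤ X / b * Lg := by
    have hset : (Icc 1 M1).filter (fun m : ℕ => (a * m) % b = 0) =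
        (range (M1 / b)).image (fun i => b * (i + 1)) := by
      ext m
      rw [mem_filter, mem_Icc, mem_image]
      constructor
      · rintro ⟨⟨h1, h2⟩, h3⟩
        have h4 : (b : ℤ) ∣ a * m := Int.dvd_of_emod_eq_zero h3
        have h5 : (b : ℤ) ∣ m := hab.symm.dvd_of_dvd_mul_left h4
        have h6 : b ∣ m := by exact_mod_cast h5
        obtain ⟨k, rfl⟩ := h6
        have hk : 0 < k := Nat.pos_of_ne_zero (by rintro rfl; simp at h1)
        refine ⟨k - 1, ?_, ?_⟩
        · rw [mem_range]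
          have : k ≤ M1 / b := by
            rw [Nat.le_div_iff_mul_le hb, mul_comm]
            exact h2
          omega
        · rw [Nat.sub_add_cancel hk]
      · rintro ⟨i, hi, rfl⟩
        rw [mem_range] at hi
        refine ⟨⟨Nat.mul_pos hb (Nat.succ_pos i), ?_⟩, ?_⟩
        · have : i + 1 ≤ M1 / b := hi
          rw [Nat.le_div_iff_mul_le hb] at this
          rw [mul_comm]
          exact this
        · have : (a * ((b * (i + 1) : ℕ) : ℤ)) = b * (a * (i + 1)) := by push_cast; ring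
          rw [this]
          exact Int.mul_emod_right _ _
    rw [hset, Finset.sum_image (by
      intro i _ j _ hij
      have h1 : b * (i + 1) = b * (j + 1) := hij
      have := Nat.eq_of_mul_eq_mul_left hb h1
      omega)]
    calc ∑ i ∈ range (M1 / b), X / ((b * (i + 1) : ℕ) : ℝ)
        = X / b * ∑ i ∈ range (M1 / b), (1 : ℝ) / ((i : ℝ) + 1) := by
          rw [Finset.mul_sum]
          refine Finset.sum_congr rfl fun i _ => ?_
          push_cast
          rw [div_mul_div_comm, mul_one]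
      _ ≤ X / b * (1 + Real.log ((M1 / b : ℕ) : ℝ)) :=
          mul_le_mul_of_nonneg_left (harm_h4 _) (by positivity)
      _ ≤ X / b * Lg := by
          refine mul_le_mul_of_nonneg_left (hlogle _ ?_) (by positivity)
          have h1 : (((M1 / b : ℕ) : ℝ)) ≤ M1 := by exact_mod_cast Nat.div_le_self M1 b
          linarith
  -- the other residues
  have hWnn : ∀ i ∈ range (b - 1), 0 ≤ W ((i : ℤ) + 1) := by
    intro i hi
    rw [mem_range] at hi
    rw [hW]
    have h1 : (0 : ℝ) < (b : ℝ) - (((i : ℤ) + 1 : ℤ) : ℝ) := by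
      have : i + 1 < b := by omega
      have h2 : ((i : ℝ) + 1) < b := by exact_mod_cast this
      push_cast
      linarith
    have h2 : (0 : ℝ) < (((i : ℤ) + 1 : ℤ) : ℝ) := by push_cast; positivity
    dsimp only
    positivity
  have hoth : ∑ m ∈ (Icc 1 M1).filter (fun m : ℕ => ¬ (a * m) % b = 0), W ((a * m) % b) ≤
      ((M1 / b + 1 : ℕ) : ℝ) * ∑ i ∈ range (b - 1), W ((i : ℤ) + 1) := by
    have hmaps : ∀ m ∈ (Icc 1 M1).filter (fun m : ℕ => ¬ (a * m) % b = 0),
        (((a * m) % b).toNat - 1) ∈ range (b - 1) := by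
      intro m hm
      rw [mem_filter] at hm
      have h1 := Int.emod_nonneg (a * m) hbz.ne'
      have h2 := Int.emod_lt_of_pos (a * m) hbz
      have h3 := hm.2
      rw [mem_range]
      omega
    rw [← Finset.sum_fiberwise_of_maps_to hmaps, Finset.mul_sum]
    refine Finset.sum_le_sum fun i hi => ?_
    have h1 : ∀ m ∈ ((Icc 1 M1).filter (fun m : ℕ => ¬ (a * m) % b = 0)).filter
        (fun m : ℕ => ((a * m) % b).toNat - 1 = i), W ((a * m) % b) = W ((i : ℤ) + 1) := by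
      intro m hm
      rw [mem_filter, mem_filter] at hm
      have h1 := Int.emod_nonneg (a * m) hbz.ne'
      have h3 := hm.1.2
      have h4 := hm.2
      congr 1
      omega
    rw [Finset.sum_congr rfl h1, Finset.sum_const, nsmul_eq_mul]
    refine mul_le_mul_of_nonneg_right ?_ (hWnn i hi)
    have h2 : (((Icc 1 M1).filter (fun m : ℕ => ¬ (a * m) % b = 0)).filter
        (fun m : ℕ => ((a * m) % b).toNat - 1 = i)).card ≤ M1 / b + 1 := by
      refine le_trans (Finset.card_le_card ?_) (count_h4 hb hab M1 ((i : ℤ) + 1))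
      intro m hm
      rw [mem_filter, mem_filter] at hm
      rw [mem_filter]
      refine ⟨hm.1.1, ?_⟩
      have h1 := Int.emod_nonneg (a * m) hbz.ne'
      have h3 := hm.1.2
      have h4 := hm.2
      omega
    exact_mod_cast h2
  have hWsum : ∑ i ∈ range (b - 1), W ((i : ℤ) + 1) ≤ b * Lg := by
    have h1 : ∑ i ∈ range (b - 1), W ((i : ℤ) + 1) =
        ∑ i ∈ range (b - 1), (b : ℝ) / (2 * ((i : ℝ) + 1)) +
        ∑ i ∈ range (b - 1), (b : ℝ) / (2 * ((b : ℝ) - ((i : ℝ) + 1))) := by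
      rw [← Finset.sum_add_distrib]
      refine Finset.sum_congr rfl fun i _ => ?_
      rw [hW]
      push_cast
      rfl
    have h2 : ∑ i ∈ range (b - 1), (b : ℝ) / (2 * ((b : ℝ) - ((i : ℝ) + 1))) =
        ∑ i ∈ range (b - 1), (b : ℝ) / (2 * ((i : ℝ) + 1)) := by
      rw [← Finset.sum_range_reflect]
      refine Finset.sum_congr rfl fun i hi => ?_
      rw [mem_range] at hi
      have h3 : ((b - 1 - 1 - i : ℕ) : ℝ) = (b : ℝ) - 1 - 1 - i := by
        rw [Nat.cast_sub (by omega), Nat.cast_sub (by omega), Nat.cast_sub hb]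
        push_cast
        ring
      rw [h3]
      congr 2
      ring
    have h3 : ∑ i ∈ range (b - 1), (b : ℝ) / (2 * ((i : ℝ) + 1)) =
        b / 2 * ∑ i ∈ range (b - 1), (1 : ℝ) / ((i : ℝ) + 1) := by
      rw [Finset.mul_sum]
      refine Finset.sum_congr rfl fun i _ => ?_
      rw [div_mul_div_comm, mul_one]
    rw [h1, h2, h3]
    have h4 := (harm_h4 (b - 1)).trans (hlogle (b - 1) (by
      have : ((b - 1 : ℕ) : ℝ) ≤ b := by exact_mod_cast Nat.sub_le b 1
      linarith))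
    nlinarith
  have hfl : ((M1 / b + 1 : ℕ) : ℝ) * b ≤ (M1 : ℝ) + b := by
    have h1 : (M1 / b) * b ≤ M1 := Nat.div_mul_le_self M1 b
    have h2 : ((M1 / b : ℕ) : ℝ) * b ≤ M1 := by exact_mod_cast h1
    push_cast
    push_cast at h2
    nlinarith
  calc _ ≤ X / b * Lg + ((M1 / b + 1 : ℕ) : ℝ) * (b * Lg) := by
        refine hsplit.trans (add_le_add hmul (hoth.trans ?_))
        exact mul_le_mul_of_nonneg_left hWsum (Nat.cast_nonneg _)
    _ = X / b * Lg + (((M1 / b + 1 : ℕ) : ℝ) * b) * Lg := by ring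
    _ ≤ X / b * Lg + ((M1 : ℝ) + b) * Lg := by
        have := mul_le_mul_of_nonneg_right hfl (by linarith : 0 ≤ Lg)
        linarith
    _ ≤ (X / b + 2 * ((M1 : ℝ) + b)) * Lg := by nlinarith

end Pool.Helper19.V4
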