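import Pool.Agent.Helper19.V4.Prod
import Pool.Agent.Helper19.V4.TypeOne
import Pool.Agent.Helper69.FF.DivS

/-!
# V4-9: one long smooth variable

`∏ i, f i = G * f i0`, `G = ∏_{i ≠ i0} f i`, `|G m| ≤ d(m)^8 ≤ C N^ε` (`Pool.Agent.Helper69.FF.div_bound`), and
`SF (G * f i0) M a b = ∑_{m ≤ M / K i0} G(m) ∑_{K ≤ n < 2 K, m n ≤ M} e(a m n / b)`: the inner sum runs over `(K - 1, min(2 K - 1, M / m)]`, so `type_one` applies with `M1 = M / K i0` (floor) and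
`X = M`: `≤ C N^ε (M/b + 2 (M/K + b)) (1 + log(M + b))`, `b ≤ N`.
-/

namespace Pool.Helper19.V4

open ArithmeticFunction Finset

private lemma h80_sum_mul (f g : ArithmeticFunction ℂ) (w : ℕ → ℂ) (M : ℕ) :
    ∑ n ∈ Icc 1 M, (f * g) n * w n =
      ∑ m ∈ Icc 1 M, ∑ y ∈ Icc 1 M, if m * y ≤ M then f m * g y * w (m * y) else 0 := by
  have h1 : ∀ n ∈ Icc 1 M, (f * g) n * w n = ∑ p ∈ Icc 1 M ×ˢ Icc 1 M,
      if p.1 * p.2 = n then f p.1 * g p.2 * w (p.1 * p.2) else 0 := by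
    intro n hn
    rw [mem_Icc] at hn
    rw [ArithmeticFunction.mul_apply, Finset.sum_mul, ← Finset.sum_filter]
    have h2 : n.divisorsAntidiagonal = (Icc 1 M ×ˢ Icc 1 M).filter (fun p => p.1 * p.2 = n) := by
      ext p
      rw [Nat.mem_divisorsAntidiagonal, mem_filter, mem_product, mem_Icc, mem_Icc]
      constructor
      · rintro ⟨h3, h4⟩
        have h5 : p.1 ≠ 0 := by
          rintro h5
          rw [h5, zero_mul] at h3
          exact h4 h3.symm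
        have h6 : p.2 ≠ 0 := by
          rintro h6
          rw [h6, mul_zero] at h3
          exact h4 h3.symm
        have h7 : p.1 ≤ n := Nat.le_of_dvd (by omega) ⟨p.2, h3.symm⟩
        have h8 : p.2 ≤ n := Nat.le_of_dvd (by omega) ⟨p.1, by rw [mul_comm]; exact h3.symm⟩
        exact ⟨⟨⟨by omega, by omega⟩, by omega, by omega⟩, h3⟩
      · rintro ⟨-, h3⟩
        exact ⟨h3, by omega⟩
    rw [h2]
    refine Finset.sum_congr rfl fun p hp => ?_
    rw [(mem_filter.1 hp).2]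
  rw [Finset.sum_congr rfl h1, Finset.sum_comm, Finset.sum_product]
  refine Finset.sum_congr rfl fun m hm => Finset.sum_congr rfl fun y hy => ?_
  rw [mem_Icc] at hm hy
  rw [Finset.sum_ite_eq]
  have : 1 ≤ m * y := Nat.mul_pos hm.1 hy.1
  by_cases h : m * y ≤ M
  · rw [if_pos h, if_pos (mem_Icc.2 ⟨this, h⟩)]
  · rw [if_neg h, if_neg (fun h' => h (mem_Icc.1 h').2)]

/-- the inner sum is over an interval -/
private lemma h80_inner {K : ℕ} {g : ArithmeticFunction ℂ} (hg : Pc K g) (hs : Sm K g) (w : ℕ → ℂ) (M m : ℕ)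
    (hm : 1 ≤ m) : (∑ y ∈ Icc 1 M, if m * y ≤ M then g y * w y else 0) =
      ∑ y ∈ Ioc (K - 1) (min (2 * K - 1) (M / m)), w y := by
  have hK := hg.pos
  rw [← Finset.sum_filter]
  have h1 : ∑ y ∈ (Icc 1 M).filter (fun y => m * y ≤ M), g y * w y =
      ∑ y ∈ ((Icc 1 M).filter (fun y => m * y ≤ M)).filter (fun y => K ≤ y ∧ y < 2 * K), g y * w y := by
    refine (Finset.sum_filter_of_ne fun y _ hy => ?_).symm
    exact hg.supp y (fun h => hy (by rw [h, zero_mul]))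
  rw [h1]
  have h2 : ((Icc 1 M).filter (fun y => m * y ≤ M)).filter (fun y => K ≤ y ∧ y < 2 * K) =
      Ioc (K - 1) (min (2 * K - 1) (M / m)) := by
    ext y
    rw [mem_filter, mem_filter, mem_Icc, mem_Ioc, le_min_iff, Nat.le_div_iff_mul_le (by omega), mul_comm y m]
    constructor
    · rintro ⟨⟨⟨h3, h4⟩, h5⟩, h6, h7⟩
      exact ⟨by omega, by omega, h5⟩
    · rintro ⟨h3, h4, h5⟩
      have : y ≤ m * y := Nat.le_mul_of_pos_left y (by omega)
      exact ⟨⟨⟨by omega, by omega⟩, h5⟩, by omega, by omega⟩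
  rw [h2]
  refine Finset.sum_congr rfl fun y hy => ?_
  rw [mem_Ioc, le_min_iff] at hy
  rw [hs y (by omega) (by omega), one_mul]

theorem box_one {ε : ℝ} (hε : 0 < ε) : ∃ C : ℝ, 0 < C ∧ ∀ N : ℕ, 2 ≤ N → ∀ (a : ℤ) (b : ℕ), 1 ≤ b → b ≤ N →
    IsCoprime a (b : ℤ) → ∀ k ≤ 9, ∀ (f : Fin k → ArithmeticFunction ℂ) (K : Fin k → ℕ), (∀ i, Pc (K i) (f i)) →
    ∀ i0 : Fin k, Sm (K i0) (f i0) → ∀ M ≤ N,
      ‖SF (∏ i, f i) M a b‖ ≤ C * (N : ℝ) ^ ε * ((N : ℝ) / b + (N : ℝ) / K i0 + b) := by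
  classical
  obtain ⟨C0, hC0, hdiv⟩ := Pool.Agent.Helper69.FF.div_bound (show (0 : ℝ) < ε / 16 by positivity)
  have hε2 : (0 : ℝ) < ε / 2 := by positivity
  refine ⟨C0 ^ 8 * (2 * (1 + 2 ^ (ε / 2) / (ε / 2))), by positivity, ?_⟩
  intro N hN a b hb hbN hab k hk f K hf i0 hi0 M hM
  have hN0 : (0 : ℝ) < N := by
    have : 0 < N := by omega
    exact_mod_cast this
  have hN1 : (1 : ℝ) ≤ N := by
    have : 1 ≤ N := by omega
    exact_mod_cast this
  have hK := (hf i0).pos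
  have hK0 : (0 : ℝ) < K i0 := by exact_mod_cast hK
  have hb0 : (0 : ℝ) < b := by exact_mod_cast hb
  have hbN' : (b : ℝ) ≤ N := by exact_mod_cast hbN
  have hMN : (M : ℝ) ≤ N := by exact_mod_cast hM
  obtain ⟨G, hG⟩ : ∃ G, G = ∏ i ∈ (Finset.univ : Finset (Fin k)).erase i0, f i := ⟨_, rfl⟩
  have hprod : ∏ i, f i = G * f i0 := by
    rw [hG, mul_comm, Finset.mul_prod_erase _ _ (Finset.mem_univ i0)]
  have hcard : ((Finset.univ : Finset (Fin k)).erase i0).card ≤ 8 := by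
    rw [Finset.card_erase_of_mem (Finset.mem_univ i0), Finset.card_univ, Fintype.card_fin]
    omega
  -- bound of `G`
  have hGle : ∀ m, 1 ≤ m → m ≤ N → ‖G m‖ ≤ C0 ^ 8 * (N : ℝ) ^ (ε / 2) := by
    intro m hm hmN
    have h1 := prod_le ((Finset.univ : Finset (Fin k)).erase i0) (f := f) (fun i _ n => (hf i).le n) (n := m) (by omega)
    rw [← hG] at h1
    have h2 : (1 : ℝ) ≤ (m.divisors.card : ℝ) := by
      have : 0 < m.divisors.card := Finset.card_pos.2 ⟨1, Nat.one_mem_divisors.2 (by omega)⟩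
      exact_mod_cast this
    have h3 : ((m.divisors.card : ℕ) : ℝ) ^ ((Finset.univ : Finset (Fin k)).erase i0).card ≤
        ((m.divisors.card : ℕ) : ℝ) ^ 8 := pow_le_pow_right₀ h2 hcard
    have h4 : ((m.divisors.card : ℕ) : ℝ) ^ 8 ≤ (C0 * (m : ℝ) ^ (ε / 16)) ^ 8 :=
      pow_le_pow_left₀ (by linarith) (hdiv m (by omega)) 8
    have h5 : (C0 * (m : ℝ) ^ (ε / 16)) ^ 8 = C0 ^ 8 * (m : ℝ) ^ (ε / 2) := by
      rw [mul_pow, ← Real.rpow_mul_natCast (Nat.cast_nonneg m)]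
      congr 2
      push_cast
      ring
    have h6 : (m : ℝ) ^ (ε / 2) ≤ (N : ℝ) ^ (ε / 2) :=
      Real.rpow_le_rpow (Nat.cast_nonneg m) (by exact_mod_cast hmN) hε2.le
    calc ‖G m‖ ≤ _ := h1
      _ ≤ _ := h3
      _ ≤ _ := h4
      _ = _ := h5
      _ ≤ _ := mul_le_mul_of_nonneg_left h6 (by positivity)
  -- the sum
  have hSF : SF (∏ i, f i) M a b = ∑ m ∈ Icc 1 (M / K i0), G m *
      ∑ y ∈ Ioc (K i0 - 1) (min (2 * K i0 - 1) (M / m)), ex ((a : ℝ) * ((m : ℝ) * y) / b) := by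
    rw [hprod, SF, h80_sum_mul]
    have h1 : ∀ m ∈ Icc 1 M, (∑ y ∈ Icc 1 M, if m * y ≤ M then
        G m * f i0 y * ex ((a : ℝ) * ((m * y : ℕ) : ℝ) / b) else 0) =
        G m * ∑ y ∈ Ioc (K i0 - 1) (min (2 * K i0 - 1) (M / m)), ex ((a : ℝ) * ((m : ℝ) * y) / b) := by
      intro m hm
      rw [mem_Icc] at hm
      rw [← h80_inner (hf i0) hi0 (fun y => ex ((a : ℝ) * ((m : ℝ) * y) / b)) M m hm.1, Finset.mul_sum]
      refine Finset.sum_congr rfl fun y _ => ?_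
      by_cases h : m * y ≤ M
      · rw [if_pos h, if_pos h]
        push_cast
        ring
      · rw [if_neg h, if_neg h, mul_zero]
    rw [Finset.sum_congr rfl h1]
    symm
    refine Finset.sum_subset ?_ ?_
    · intro m hm
      rw [mem_Icc] at hm ⊢
      exact ⟨hm.1, hm.2.trans (Nat.div_le_self _ _)⟩
    · intro m hm hm'
      rw [mem_Icc] at hm hm'
      have h2 : M / m < K i0 := by
        rw [Nat.div_lt_iff_lt_mul (by omega)]
        have : M / K i0 < m := by omega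
        rw [Nat.div_lt_iff_lt_mul (by omega)] at this
        rw [mul_comm]
        exact this
      have h3 : Ioc (K i0 - 1) (min (2 * K i0 - 1) (M / m)) = ∅ := by
        refine Finset.Ioc_eq_empty_of_le ?_
        refine (min_le_right _ _).trans ?_
        omega
      rw [h3, Finset.sum_empty, mul_zero]
  have h7 : ‖SF (∏ i, f i) M a b‖ ≤ C0 ^ 8 * (N : ℝ) ^ (ε / 2) *
      (((M : ℝ) / b + 2 * (((M / K i0 : ℕ) : ℝ) + b)) * (1 + Real.log (((M / K i0 : ℕ) : ℝ) + b))) := by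
    rw [hSF]
    refine (norm_sum_le _ _).trans ?_
    have h8 : ∀ m ∈ Icc 1 (M / K i0), ‖G m *
        ∑ y ∈ Ioc (K i0 - 1) (min (2 * K i0 - 1) (M / m)), ex ((a : ℝ) * ((m : ℝ) * y) / b)‖ ≤
        C0 ^ 8 * (N : ℝ) ^ (ε / 2) *
        ‖∑ y ∈ Ioc (K i0 - 1) (min (2 * K i0 - 1) (M / m)), ex ((a : ℝ) * ((m : ℝ) * y) / b)‖ := by
      intro m hm
      rw [mem_Icc] at hm
      rw [norm_mul]
      exact mul_le_mul_of_nonneg_right (hGle m hm.1 (hm.2.trans ((Nat.div_le_self _ _).trans hM))) (norm_nonneg _)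
    refine (Finset.sum_le_sum h8).trans ?_
    rw [← Finset.mul_sum]
    refine mul_le_mul_of_nonneg_left ?_ (by positivity)
    refine type_one hb hab (M / K i0) (Nat.cast_nonneg M) (fun _ => K i0 - 1)
      (fun m => min (2 * K i0 - 1) (M / m)) ?_
    intro m hm hm'
    have h9 : m * min (2 * K i0 - 1) (M / m) ≤ M :=
      (Nat.mul_le_mul_left m (min_le_right _ _)).trans (Nat.mul_div_le M m)
    exact_mod_cast h9
  have hMK : ((M / K i0 : ℕ) : ℝ) ≤ (N : ℝ) / K i0 := by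
    refine Nat.cast_div_le.trans ?_
    exact div_le_div_of_nonneg_right hMN hK0.le
  have hMK' : ((M / K i0 : ℕ) : ℝ) ≤ N := by
    have : M / K i0 ≤ N := (Nat.div_le_self _ _).trans hM
    exact_mod_cast this
  have hlog : 1 + Real.log (((M / K i0 : ℕ) : ℝ) + b) ≤ (1 + 2 ^ (ε / 2) / (ε / 2)) * (N : ℝ) ^ (ε / 2) := by
    have h1 : (0 : ℝ) < ((M / K i0 : ℕ) : ℝ) + b := by positivity
    have h2 : Real.log (((M / K i0 : ℕ) : ℝ) + b) ≤ Real.log (2 * N) := Real.log_le_log h1 (by linarith)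
    have h3 := Real.log_le_rpow_div (show (0 : ℝ) ≤ 2 * N by positivity) hε2
    rw [Real.mul_rpow (by norm_num) hN0.le] at h3
    have h4 : (1 : ℝ) ≤ (N : ℝ) ^ (ε / 2) := Real.one_le_rpow hN1 hε2.le
    have h5 : (1 + 2 ^ (ε / 2) / (ε / 2)) * (N : ℝ) ^ (ε / 2) =
        (N : ℝ) ^ (ε / 2) + 2 ^ (ε / 2) * (N : ℝ) ^ (ε / 2) / (ε / 2) := by ring
    rw [h5]
    linarith
  have hA : (M : ℝ) / b + 2 * (((M / K i0 : ℕ) : ℝ) + b) ≤ 2 * ((N : ℝ) / b + (N : ℝ) / K i0 + b) := by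
    have h1 : (M : ℝ) / b ≤ (N : ℝ) / b := div_le_div_of_nonneg_right hMN hb0.le
    have h2 : 0 ≤ (N : ℝ) / b := by positivity
    linarith
  have hA0 : 0 ≤ (M : ℝ) / b + 2 * (((M / K i0 : ℕ) : ℝ) + b) := by positivity
  have hlog0 : 0 ≤ (1 + 2 ^ (ε / 2) / (ε / 2)) * (N : ℝ) ^ (ε / 2) := by positivity
  have h10 : ((M : ℝ) / b + 2 * (((M / K i0 : ℕ) : ℝ) + b)) * (1 + Real.log (((M / K i0 : ℕ) : ℝ) + b)) ≤
      2 * ((N : ℝ) / b + (N : ℝ) / K i0 + b) * ((1 + 2 ^ (ε / 2) / (ε / 2)) * (N : ℝ) ^ (ε / 2)) :=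
    (mul_le_mul_of_nonneg_left hlog hA0).trans (mul_le_mul_of_nonneg_right hA hlog0)
  refine h7.trans ((mul_le_mul_of_nonneg_left h10 (by positivity)).trans (le_of_eq ?_))
  have h11 : (N : ℝ) ^ ε = (N : ℝ) ^ (ε / 2) * (N : ℝ) ^ (ε / 2) := by
    rw [← Real.rpow_add hN0]
    congr 1
    ring
  rw [h11]
  ring

end Pool.Helper19.V4
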