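import Pool.Agent.Helper19.V4.Defs

/-!
# V4-4: separation of the condition `n ≤ M`

Trapezoid: for `1 ≤ M < X` put `h = log(1 + 1/M)/2`, `A = -1`, `B = log M + h`, `φ = (1/(2h)) 1_{[-h,h]} * 1_{[A,B]}` (convolution): `φ` is continuous with compact support, `φ(u) = 1` for
`A + h ≤ u ≤ B - h`, `φ(u) = 0` for `u ≥ B + h`, so `φ(log n) = 1` for the integers `1 ≤ n ≤ M` and `φ(log n) = 0` for `n ≥ M + 1`. Its Fourier transform is the product of two sincs:
`|φ^(ξ)| ≤ min(B - A, 1/(π |ξ|)) · min(1, 1/(2 π h |ξ|))`, integrable with integral `≤ 2 (1 + log((B - A)/h) + ...) ≤ C log X` (`h ≥ 1/(4 X)`), and Fourier inversion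
(`Continuous.fourierInv_fourier_eq`) gives `1_{n ≤ M} = ∫ φ^(ξ) e^{2 π i ξ log n} dξ` for the integers `n ≥ 1`. Then `‖∑_{n ≤ min M X} c n‖ ≤ ∫ |φ^(ξ)| ‖∑_{n ≤ X} c n n^{2 π i ξ}‖ dξ`.
Any other kernel with the same property will do (e.g. explicit `F`, a piecewise linear `φ`). For `M ≥ X` take `ξ = 0`; `M = 0` is trivial.
-/

namespace Pool.Helper19.V4

open ArithmeticFunction Finset MeasureTheory

private noncomputable def tri_97 (a u : ℝ) : ℝ := max 0 (a - |u|)

private theorem tri_cont_97 (a : ℝ) : Continuous (tri_97 a) := by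
  unfold tri_97
  exact continuous_const.max (continuous_const.sub continuous_abs)

private theorem tri_zero_97 {a u : ℝ} (h : a ≤ |u|) : tri_97 a u = 0 :=
  max_eq_left (by linarith)

private theorem tri_supp_97 (a : ℝ) : HasCompactSupport (tri_97 a) := by
  refine HasCompactSupport.intro (isCompact_Icc (a := -a) (b := a)) fun u hu => tri_zero_97 ?_
  by_contra h
  push Not at h
  exact hu (abs_le.1 h.le)

private theorem tri_int_97 (a : ℝ) (ha : 0 ≤ a) (c : ℂ) (hc : c ≠ 0) :
    ∫ u : ℝ, Complex.exp (c * u) * (tri_97 a u : ℂ) =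
      (Complex.exp (c * a) + Complex.exp (-(c * a)) - 2) / c ^ 2 := by
  have hcont : Continuous fun u : ℝ => Complex.exp (c * u) * (tri_97 a u : ℂ) :=
    (Complex.continuous_exp.comp (continuous_const.mul Complex.continuous_ofReal)).mul
      (Complex.continuous_ofReal.comp (tri_cont_97 a))
  have h1 : ∫ u : ℝ, Complex.exp (c * u) * (tri_97 a u : ℂ) =
      ∫ u in Set.Ioc (-a) a, Complex.exp (c * u) * (tri_97 a u : ℂ) := by
    refine (setIntegral_eq_integral_of_forall_compl_eq_zero fun u hu => ?_).symm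
    have h2 : a ≤ |u| := by
      by_contra h
      push Not at h
      have h3 := abs_lt.1 h
      exact hu ⟨h3.1, h3.2.le⟩
    rw [tri_zero_97 h2, Complex.ofReal_zero, mul_zero]
  rw [h1, ← intervalIntegral.integral_of_le (by linarith),
    ← intervalIntegral.integral_add_adjacent_intervals (b := 0) (hcont.intervalIntegrable _ _)
      (hcont.intervalIntegrable _ _)]
  have hexp : ∀ u : ℝ, HasDerivAt (fun u : ℝ => Complex.exp (c * u)) (Complex.exp (c * u) * c) u := by
    intro u
    have h2 : HasDerivAt (fun u : ℝ => c * (u : ℂ)) c u := by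
      simpa using (Complex.ofRealCLM.hasDerivAt (x := u)).const_mul c
    exact h2.cexp
  have h2 : ∫ u in (-a)..0, Complex.exp (c * u) * (tri_97 a u : ℂ) =
      a / c - 1 / c ^ 2 + Complex.exp (-(c * a)) / c ^ 2 := by
    have h3 : ∫ u in (-a)..0, Complex.exp (c * u) * (tri_97 a u : ℂ) =
        ∫ u in (-a)..0, Complex.exp (c * u) * ((a : ℂ) + u) := by
      refine intervalIntegral.integral_congr fun u hu => ?_
      rw [Set.uIcc_of_le (by linarith)] at hu
      have h4 : tri_97 a u = a + u := by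
        unfold tri_97
        rw [abs_of_nonpos hu.2, max_eq_right (by linarith [hu.1])]
        ring
      simp only [h4]
      push_cast
      ring
    rw [h3, intervalIntegral.integral_eq_sub_of_hasDerivAt (f := fun u : ℝ => ((a : ℂ) + u) * Complex.exp (c * u) / c -
      Complex.exp (c * u) / c ^ 2)]
    · push_cast
      have e : c * (-(a : ℂ)) = -(c * a) := by ring
      rw [e]
      simp only [mul_zero, Complex.exp_zero, add_zero, add_neg_cancel, zero_mul, zero_div, zero_sub, mul_one]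
      ring
    · intro u _
      have h5 : HasDerivAt (fun u : ℝ => (a : ℂ) + u) 1 u := by
        simpa using (Complex.ofRealCLM.hasDerivAt (x := u)).const_add (a : ℂ)
      have h6 : HasDerivAt (fun u : ℝ => ((a : ℂ) + u) * Complex.exp (c * u) / c - Complex.exp (c * u) / c ^ 2)
          ((1 * Complex.exp (c * u) + ((a : ℂ) + u) * (Complex.exp (c * u) * c)) / c -
            Complex.exp (c * u) * c / c ^ 2) u :=
        ((h5.mul (hexp u)).div_const c).sub ((hexp u).div_const (c ^ 2))
      refine h6.congr_deriv ?_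
      field_simp
      ring
    · exact (((Complex.continuous_exp.comp (continuous_const.mul Complex.continuous_ofReal))).mul
        (continuous_const.add Complex.continuous_ofReal)).intervalIntegrable _ _
  have h2' : ∫ u in (0 : ℝ)..a, Complex.exp (c * u) * (tri_97 a u : ℂ) =
      Complex.exp (c * a) / c ^ 2 - a / c - 1 / c ^ 2 := by
    have h3 : ∫ u in (0 : ℝ)..a, Complex.exp (c * u) * (tri_97 a u : ℂ) =
        ∫ u in (0 : ℝ)..a, Complex.exp (c * u) * ((a : ℂ) - u) := by
      refine intervalIntegral.integral_congr fun u hu => ?_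
      rw [Set.uIcc_of_le ha] at hu
      have h4 : tri_97 a u = a - u := by
        unfold tri_97
        rw [abs_of_nonneg hu.1, max_eq_right (by linarith [hu.2])]
      simp only [h4]
      push_cast
      ring
    rw [h3, intervalIntegral.integral_eq_sub_of_hasDerivAt (f := fun u : ℝ => ((a : ℂ) - u) * Complex.exp (c * u) / c +
      Complex.exp (c * u) / c ^ 2)]
    · simp only [mul_zero, Complex.exp_zero, sub_self, zero_mul, zero_div, zero_add, mul_one, sub_zero,
        Complex.ofReal_zero]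
      ring
    · intro u _
      have h5 : HasDerivAt (fun u : ℝ => (a : ℂ) - u) (-1) u := by
        simpa using (Complex.ofRealCLM.hasDerivAt (x := u)).const_sub (a : ℂ)
      have h6 : HasDerivAt (fun u : ℝ => ((a : ℂ) - u) * Complex.exp (c * u) / c + Complex.exp (c * u) / c ^ 2)
          ((-1 * Complex.exp (c * u) + ((a : ℂ) - u) * (Complex.exp (c * u) * c)) / c +
            Complex.exp (c * u) * c / c ^ 2) u :=
        ((h5.mul (hexp u)).div_const c).add ((hexp u).div_const (c ^ 2))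
      refine h6.congr_deriv ?_
      field_simp
      ring
    · exact (((Complex.continuous_exp.comp (continuous_const.mul Complex.continuous_ofReal))).mul
        (continuous_const.sub Complex.continuous_ofReal)).intervalIntegrable _ _
  rw [h2, h2']
  ring

/-- the dominating function -/
private noncomputable def dom_97 (s δ x : ℝ) : ℝ :=
  if x ≤ 1 / s then s else if x ≤ 1 / δ then x⁻¹ else δ⁻¹ * x ^ (-2 : ℝ)

private theorem dom_int_97 (s δ : ℝ) (hδ : 0 < δ) (hs : δ ≤ s) :
    ∫ x in Set.Ioi (0 : ℝ), dom_97 s δ x = 2 + Real.log (s / δ) := by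
  have hs0 : 0 < s := hδ.trans_le hs
  have hpq : 1 / s ≤ 1 / δ := one_div_le_one_div_of_le hδ hs
  have hp : 0 < 1 / s := by positivity
  have hq : 0 < 1 / δ := by positivity
  have e1 : Set.EqOn (fun _ : ℝ => s) (dom_97 s δ) (Set.Ioc 0 (1 / s)) := by
    intro x hx
    simp only [dom_97]
    rw [if_pos hx.2]
  have e2 : Set.EqOn (fun x : ℝ => x⁻¹) (dom_97 s δ) (Set.Ioc (1 / s) (1 / δ)) := by
    intro x hx
    simp only [dom_97]
    rw [if_neg (not_le.2 hx.1), if_pos hx.2]
  have e3 : Set.EqOn (fun x : ℝ => δ⁻¹ * x ^ (-2 : ℝ)) (dom_97 s δ) (Set.Ioi (1 / δ)) := by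
    intro x hx
    have hx' : 1 / δ < x := hx
    simp only [dom_97]
    rw [if_neg (not_le.2 (hpq.trans_lt hx')), if_neg (not_le.2 hx')]
  have i1 : IntegrableOn (dom_97 s δ) (Set.Ioc 0 (1 / s)) :=
    (integrableOn_const (by simp) (by simp)).congr_fun e1 measurableSet_Ioc
  have i2 : IntegrableOn (dom_97 s δ) (Set.Ioc (1 / s) (1 / δ)) := by
    refine IntegrableOn.congr_fun ?_ e2 measurableSet_Ioc
    rw [← intervalIntegrable_iff_integrableOn_Ioc_of_le hpq]
    refine ContinuousOn.intervalIntegrable ?_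
    rw [Set.uIcc_of_le hpq]
    exact continuousOn_inv₀.mono fun x hx => (hp.trans_le hx.1).ne'
  have i3 : IntegrableOn (dom_97 s δ) (Set.Ioi (1 / δ)) := by
    refine IntegrableOn.congr_fun ?_ e3 measurableSet_Ioi
    exact (integrableOn_Ioi_rpow_of_lt (a := -2) (by norm_num) hq).const_mul δ⁻¹
  have hU : Set.Ioi (0 : ℝ) = (Set.Ioc 0 (1 / s) ∪ Set.Ioc (1 / s) (1 / δ)) ∪ Set.Ioi (1 / δ) := by
    rw [Set.Ioc_union_Ioc_eq_Ioc hp.le hpq, Set.Ioc_union_Ioi_eq_Ioi hq.le]
  rw [hU, setIntegral_union _ measurableSet_Ioi (i1.union i2) i3,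
    setIntegral_union _ measurableSet_Ioc i1 i2]
  · rw [← setIntegral_congr_fun measurableSet_Ioc e1, ← setIntegral_congr_fun measurableSet_Ioc e2,
      ← setIntegral_congr_fun measurableSet_Ioi e3, ← intervalIntegral.integral_of_le hp.le,
      ← intervalIntegral.integral_of_le hpq, integral_inv_of_pos hp hq, integral_const_mul,
      integral_Ioi_rpow_of_lt (by norm_num) hq]
    rw [intervalIntegral.integral_const, smul_eq_mul]
    have e4 : (1 / δ) / (1 / s) = s / δ := by field_simp
    have e5 : (1 / δ : ℝ) ^ (-2 + 1 : ℝ) = δ := by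
      rw [show (-2 + 1 : ℝ) = -1 by norm_num, Real.rpow_neg_one, one_div, inv_inv]
    rw [e4, e5]
    field_simp
    ring
  · rw [Set.disjoint_left]
    rintro x hx hx'
    exact absurd hx.2 (not_le.2 hx'.1)
  · rw [Set.disjoint_left]
    rintro x hx hx'
    have hx'' : 1 / δ < x := hx'
    rcases hx with hx | hx
    · exact absurd (hx.2.trans hpq) (not_le.2 hx'')
    · exact absurd hx.2 (not_le.2 hx'')

open FourierTransform in
private theorem kern_97 (b δ : ℝ) (hb : 0 ≤ b) (hδ : 0 < δ) :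
    ∃ K : ℝ → ℂ, Integrable K ∧ ∫ v, ‖K v‖ ≤ 4 + 2 * Real.log ((2 * b + δ) / δ) ∧
      ∀ u : ℝ, ∫ v : ℝ, Complex.exp (((2 * Real.pi * (v * u) : ℝ) : ℂ) * Complex.I) * K v =
        (((tri_97 (b + δ) u - tri_97 b u) / δ : ℝ) : ℂ) := by
  have hs0 : 0 < 2 * b + δ := by linarith
  let f : ℝ → ℂ := fun u => (((tri_97 (b + δ) u - tri_97 b u) / δ : ℝ) : ℂ)
  have hf : Continuous f := Complex.continuous_ofReal.comp
    (((tri_cont_97 _).sub (tri_cont_97 _)).div_const _)
  have hfs : HasCompactSupport f := by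
    refine HasCompactSupport.intro (isCompact_Icc (a := -(b + δ)) (b := b + δ)) fun u hu => ?_
    have h1 : b + δ ≤ |u| := by
      by_contra h
      push Not at h
      exact hu (abs_le.1 h.le)
    simp only [f]
    rw [tri_zero_97 h1, tri_zero_97 (by linarith)]
    simp
  have hfi : Integrable f := hf.integrable_of_hasCompactSupport hfs
  have htri : ∀ a : ℝ, ∀ c : ℂ, Integrable fun u : ℝ => Complex.exp (c * u) * (tri_97 a u : ℂ) := by
    intro a c
    refine Continuous.integrable_of_hasCompactSupport ?_ ?_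
    · exact (Complex.continuous_exp.comp (continuous_const.mul Complex.continuous_ofReal)).mul
        (Complex.continuous_ofReal.comp (tri_cont_97 a))
    · refine HasCompactSupport.intro (isCompact_Icc (a := -a) (b := a)) fun u hu => ?_
      have h1 : a ≤ |u| := by
        by_contra h
        push Not at h
        exact hu (abs_le.1 h.le)
      rw [tri_zero_97 h1, Complex.ofReal_zero, mul_zero]
  have hF : ∀ ξ : ℝ, ξ ≠ 0 → 𝓕 f ξ = ((Real.sin (Real.pi * (2 * b + δ) * ξ) * Real.sin (Real.pi * δ * ξ) /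
      (Real.pi ^ 2 * δ * ξ ^ 2) : ℝ) : ℂ) := by
    intro ξ hξ
    have hpi := Real.pi_pos
    set c : ℂ := ((-2 * Real.pi * ξ : ℝ) : ℂ) * Complex.I with hc
    have hc0 : c ≠ 0 := by
      rw [hc]
      refine mul_ne_zero ?_ Complex.I_ne_zero
      rw [Complex.ofReal_ne_zero]
      exact mul_ne_zero (by simp [hpi.ne']) hξ
    rw [Real.fourier_real_eq_integral_exp_smul]
    have h1 : ∀ v : ℝ, Complex.exp (((-2 * Real.pi * v * ξ : ℝ) : ℂ) * Complex.I) • f v =
        (Complex.exp (c * v) * (tri_97 (b + δ) v : ℂ)) * (δ : ℂ)⁻¹ -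
          (Complex.exp (c * v) * (tri_97 b v : ℂ)) * (δ : ℂ)⁻¹ := by
      intro v
      have e : (((-2 * Real.pi * v * ξ : ℝ) : ℂ) * Complex.I) = c * v := by
        rw [hc]
        push_cast
        ring
      rw [e, smul_eq_mul]
      simp only [f]
      push_cast
      ring
    rw [integral_congr_ae (Filter.Eventually.of_forall h1), integral_sub ((htri _ c).mul_const _)
      ((htri _ c).mul_const _), integral_mul_const, integral_mul_const, tri_int_97 _ (by linarith) c hc0,
      tri_int_97 _ hb c hc0]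
    have h2 : ∀ a : ℝ, Complex.exp (c * a) + Complex.exp (-(c * a)) = ((2 * Real.cos (2 * Real.pi * a * ξ) : ℝ) : ℂ) := by
      intro a
      push_cast
      rw [Complex.cos, hc]
      push_cast
      have e1 : -2 * (Real.pi : ℂ) * ξ * Complex.I * a = -(2 * (Real.pi : ℂ) * a * ξ) * Complex.I := by ring
      have e2 : -(-2 * (Real.pi : ℂ) * ξ * Complex.I * a) = (2 * (Real.pi : ℂ) * a * ξ) * Complex.I := by ring
      rw [e2, e1]
      ring
    rw [h2, h2]
    have h3 : c ^ 2 = ((-(4 * Real.pi ^ 2 * ξ ^ 2) : ℝ) : ℂ) := by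
      rw [hc, mul_pow, Complex.I_sq]
      push_cast
      ring
    rw [h3]
    have h4 : Real.cos (2 * Real.pi * b * ξ) - Real.cos (2 * Real.pi * (b + δ) * ξ) =
        2 * (Real.sin (Real.pi * (2 * b + δ) * ξ) * Real.sin (Real.pi * δ * ξ)) := by
      rw [Real.cos_sub_cos]
      have e1 : (2 * Real.pi * b * ξ + 2 * Real.pi * (b + δ) * ξ) / 2 = Real.pi * (2 * b + δ) * ξ := by ring
      have e2 : (2 * Real.pi * b * ξ - 2 * Real.pi * (b + δ) * ξ) / 2 = -(Real.pi * δ * ξ) := by ring
      rw [e1, e2, Real.sin_neg]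
      ring
    have h5 : Real.cos (2 * Real.pi * (b + δ) * ξ) = Real.cos (2 * Real.pi * b * ξ) -
        2 * (Real.sin (Real.pi * (2 * b + δ) * ξ) * Real.sin (Real.pi * δ * ξ)) := by linarith
    rw [h5]
    have hξ' : (ξ : ℂ) ≠ 0 := by exact_mod_cast hξ
    have hδ' : (δ : ℂ) ≠ 0 := by exact_mod_cast hδ.ne'
    have hpi' : (Real.pi : ℂ) ≠ 0 := by exact_mod_cast hpi.ne'
    push_cast
    field_simp
    ring
  have hbound : ∀ ξ : ℝ, ξ ≠ 0 → ‖𝓕 f ξ‖ ≤ dom_97 (2 * b + δ) δ |ξ| := by
    intro ξ hξ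
    have hpi := Real.pi_pos
    have hpi3 := Real.pi_gt_three
    have hx : 0 < |ξ| := abs_pos.2 hξ
    rw [hF ξ hξ, Complex.norm_real, Real.norm_eq_abs, abs_div, abs_mul,
      abs_of_pos (show 0 < Real.pi ^ 2 * δ * ξ ^ 2 by positivity)]
    have hs1 : |Real.sin (Real.pi * (2 * b + δ) * ξ)| ≤ 1 := Real.abs_sin_le_one _
    have hs2 : |Real.sin (Real.pi * δ * ξ)| ≤ 1 := Real.abs_sin_le_one _
    have hs3 : |Real.sin (Real.pi * (2 * b + δ) * ξ)| ≤ Real.pi * (2 * b + δ) * |ξ| := by
      refine Real.abs_sin_le_abs.trans (le_of_eq ?_)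
      rw [abs_mul, abs_of_pos (by positivity)]
    have hs4 : |Real.sin (Real.pi * δ * ξ)| ≤ Real.pi * δ * |ξ| := by
      refine Real.abs_sin_le_abs.trans (le_of_eq ?_)
      rw [abs_mul, abs_of_pos (by positivity)]
    have hsq : ξ ^ 2 = |ξ| ^ 2 := (sq_abs ξ).symm
    rw [hsq]
    unfold dom_97
    split_ifs with h1 h2
    · rw [div_le_iff₀ (by positivity)]
      calc |Real.sin (Real.pi * (2 * b + δ) * ξ)| * |Real.sin (Real.pi * δ * ξ)| ≤
          (Real.pi * (2 * b + δ) * |ξ|) * (Real.pi * δ * |ξ|) :=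
            mul_le_mul hs3 hs4 (abs_nonneg _) (by positivity)
        _ = (2 * b + δ) * (Real.pi ^ 2 * δ * |ξ| ^ 2) := by ring
    · rw [div_le_iff₀ (by positivity)]
      calc |Real.sin (Real.pi * (2 * b + δ) * ξ)| * |Real.sin (Real.pi * δ * ξ)| ≤
          1 * (Real.pi * δ * |ξ|) :=
            mul_le_mul hs1 hs4 (abs_nonneg _) (by positivity)
        _ ≤ |ξ|⁻¹ * (Real.pi ^ 2 * δ * |ξ| ^ 2) := by
            have e : |ξ|⁻¹ * (Real.pi ^ 2 * δ * |ξ| ^ 2) = Real.pi * (Real.pi * δ * |ξ|) := by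
              field_simp
            rw [e]
            exact mul_le_mul_of_nonneg_right (by linarith) (by positivity)
    · rw [div_le_iff₀ (by positivity)]
      calc |Real.sin (Real.pi * (2 * b + δ) * ξ)| * |Real.sin (Real.pi * δ * ξ)| ≤ 1 * 1 :=
            mul_le_mul hs1 hs2 (abs_nonneg _) zero_le_one
        _ ≤ δ⁻¹ * |ξ| ^ (-2 : ℝ) * (Real.pi ^ 2 * δ * |ξ| ^ 2) := by
            have e : δ⁻¹ * |ξ| ^ (-2 : ℝ) * (Real.pi ^ 2 * δ * |ξ| ^ 2) = Real.pi ^ 2 := by
              rw [Real.rpow_neg hx.le, show (2 : ℝ) = ((2 : ℕ) : ℝ) by norm_num, Real.rpow_natCast]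
              field_simp
            rw [e]
            nlinarith
  have hdom : ∫ x, dom_97 (2 * b + δ) δ |x| = 4 + 2 * Real.log ((2 * b + δ) / δ) := by
    rw [integral_comp_abs, dom_int_97 _ _ hδ (by linarith)]
    ring
  have hlog : 0 ≤ Real.log ((2 * b + δ) / δ) := by
    refine Real.log_nonneg ?_
    rw [le_div_iff₀ hδ]
    linarith
  have hdomi : Integrable fun x => dom_97 (2 * b + δ) δ |x| := by
    by_contra h
    rw [integral_undef h] at hdom
    linarith
  have hae : ∀ᵐ ξ : ℝ, ‖𝓕 f ξ‖ ≤ dom_97 (2 * b + δ) δ |ξ| := by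
    have h0 : ∀ᵐ ξ : ℝ, ξ ≠ 0 := by
      rw [ae_iff]
      simp
    filter_upwards [h0] with ξ hξ using hbound ξ hξ
  have hFc : Continuous (𝓕 f) := VectorFourier.fourierIntegral_continuous Real.continuous_fourierChar
    (by exact continuous_inner) hfi
  have hFi : Integrable (𝓕 f) := hdomi.mono' hFc.aestronglyMeasurable hae
  refine ⟨𝓕 f, hFi, ?_, fun u => ?_⟩
  · rw [← hdom]
    exact integral_mono_ae hFi.norm hdomi hae
  · have h1 := congrFun (hf.fourierInv_fourier_eq hfi hFi) u
    rw [Real.fourierInv_eq'] at h1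
    refine Eq.trans ?_ h1
    refine integral_congr_ae (Filter.Eventually.of_forall fun v => ?_)
    simp only [smul_eq_mul]
    congr 4
    simp [mul_comm]

theorem sep_bound : ∃ C : ℝ, 0 < C ∧ ∀ X : ℕ, 2 ≤ X → ∀ (M : ℕ) (c : ℕ → ℂ) (B : ℝ),
    (∀ ξ : ℝ, ‖∑ n ∈ Icc 1 X, c n * Complex.exp (((ξ * Real.log n : ℝ) : ℂ) * Complex.I)‖ ≤ B) →
    ‖∑ n ∈ Icc 1 (min M X), c n‖ ≤ C * Real.log X * B := by
  refine ⟨10, by norm_num, ?_⟩
  intro X hX M c B hB
  have hXR : (2 : ℝ) ≤ X := by exact_mod_cast hX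
  have hlog2 : (0.69 : ℝ) ≤ Real.log 2 := by linarith [Real.log_two_gt_d9]
  have hlogX : Real.log 2 ≤ Real.log X := Real.log_le_log (by norm_num) hXR
  have hB0 : 0 ≤ B := (norm_nonneg _).trans (hB 0)
  have hfull : ‖∑ n ∈ Icc 1 X, c n‖ ≤ B := by
    have h := hB 0
    simpa using h
  rcases Nat.eq_zero_or_pos M with hM0 | hM0
  · subst hM0
    simp only [Nat.zero_min, Finset.Icc_eq_empty_of_lt one_pos, Finset.sum_empty, norm_zero]
    positivity
  rcases le_or_gt X M with hXM | hMX
  · rw [min_eq_right hXM]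
    refine hfull.trans ?_
    nlinarith
  rw [min_eq_left hMX.le]
  have hMR : (1 : ℝ) ≤ M := by exact_mod_cast hM0
  have hlM : 0 ≤ Real.log M := Real.log_nonneg hMR
  set b : ℝ := Real.log M / 2 with hb
  set δ : ℝ := Real.log (M + 1) - Real.log M with hδ
  have hδ1 : 1 / ((M : ℝ) + 1) ≤ δ := by
    have h1 := Real.one_sub_inv_le_log_of_pos (show (0 : ℝ) < ((M : ℝ) + 1) / M by positivity)
    rw [Real.log_div (by positivity) (by positivity)] at h1
    have h2 : 1 - (((M : ℝ) + 1) / M)⁻¹ = 1 / ((M : ℝ) + 1) := by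
      rw [inv_div]
      field_simp
      ring
    rw [h2] at h1
    exact h1
  have hδ0 : 0 < δ := lt_of_lt_of_le (by positivity) hδ1
  obtain ⟨K, hKi, hKb, hK⟩ := kern_97 b δ (by positivity) hδ0
  have hval : ∀ n ∈ Icc 1 X, (((tri_97 (b + δ) (Real.log n - b) - tri_97 b (Real.log n - b)) / δ : ℝ) : ℂ) =
      if n ≤ M then 1 else 0 := by
    intro n hn
    rw [Finset.mem_Icc] at hn
    have hnR : (1 : ℝ) ≤ n := by exact_mod_cast hn.1
    by_cases h : n ≤ M
    · rw [if_pos h]
      have h1 : (n : ℝ) ≤ M := by exact_mod_cast h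
      have h2 : Real.log n ≤ Real.log M := Real.log_le_log (by linarith) h1
      have h3 : 0 ≤ Real.log n := Real.log_nonneg hnR
      have h4 : |Real.log n - b| ≤ b := by
        rw [abs_le]
        constructor <;> rw [hb] <;> linarith
      have h5 : tri_97 (b + δ) (Real.log n - b) - tri_97 b (Real.log n - b) = δ := by
        unfold tri_97
        rw [max_eq_right (by linarith), max_eq_right (by linarith)]
        ring
      rw [h5, div_self hδ0.ne']
      norm_num
    · rw [if_neg h]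
      have h1 : (M : ℝ) + 1 ≤ n := by exact_mod_cast (not_le.1 h)
      have h2 : Real.log (M + 1) ≤ Real.log n := Real.log_le_log (by positivity) h1
      have h4 : b + δ ≤ |Real.log n - b| := by
        refine le_trans ?_ (le_abs_self _)
        rw [hb, hδ]
        linarith
      rw [tri_zero_97 h4, tri_zero_97 (by linarith)]
      simp
  have hsum : ∑ n ∈ Icc 1 M, c n = ∫ v : ℝ, K v * (Complex.exp (((-(2 * Real.pi * v * b) : ℝ) : ℂ) * Complex.I) *
      ∑ n ∈ Icc 1 X, c n * Complex.exp (((2 * Real.pi * v * Real.log n : ℝ) : ℂ) * Complex.I)) := by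
    have h1 : ∀ v : ℝ, K v * (Complex.exp (((-(2 * Real.pi * v * b) : ℝ) : ℂ) * Complex.I) *
      ∑ n ∈ Icc 1 X, c n * Complex.exp (((2 * Real.pi * v * Real.log n : ℝ) : ℂ) * Complex.I)) =
        ∑ n ∈ Icc 1 X, c n * (Complex.exp (((2 * Real.pi * (v * (Real.log n - b)) : ℝ) : ℂ) * Complex.I) * K v) := by
      intro v
      rw [Finset.mul_sum, Finset.mul_sum]
      refine Finset.sum_congr rfl fun n _ => ?_
      have e : Complex.exp (((2 * Real.pi * (v * (Real.log n - b)) : ℝ) : ℂ) * Complex.I) =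
          Complex.exp (((-(2 * Real.pi * v * b) : ℝ) : ℂ) * Complex.I) *
            Complex.exp (((2 * Real.pi * v * Real.log n : ℝ) : ℂ) * Complex.I) := by
        rw [← Complex.exp_add]
        congr 1
        push_cast
        ring
      rw [e]
      ring
    have hint : ∀ x : ℝ, Integrable fun v : ℝ => Complex.exp (((2 * Real.pi * (v * x) : ℝ) : ℂ) * Complex.I) * K v := by
      intro x
      refine hKi.bdd_mul (c := 1) ?_ (Filter.Eventually.of_forall fun v => ?_)
      · refine Continuous.aestronglyMeasurable ?_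
        exact Complex.continuous_exp.comp ((Complex.continuous_ofReal.comp (by fun_prop)).mul continuous_const)
      · rw [Complex.norm_exp_ofReal_mul_I]
    rw [integral_congr_ae (Filter.Eventually.of_forall h1), integral_finsetSum]
    · have h2 : ∀ n ∈ Icc 1 X, (∫ v : ℝ, c n * (Complex.exp (((2 * Real.pi * (v * (Real.log n - b)) : ℝ) : ℂ) *
          Complex.I) * K v)) = if n ≤ M then c n else 0 := by
        intro n hn
        rw [integral_const_mul, hK, hval n hn]
        split_ifs <;> simp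
      rw [Finset.sum_congr rfl h2, ← Finset.sum_filter]
      refine Finset.sum_congr ?_ fun _ _ => rfl
      ext n
      simp only [Finset.mem_Icc, Finset.mem_filter]
      omega
    · intro n _
      exact (hint _).const_mul _
  have hnorm : ‖∑ n ∈ Icc 1 M, c n‖ ≤ ∫ v : ℝ, ‖K v‖ * B := by
    rw [hsum]
    refine norm_integral_le_of_norm_le (hKi.norm.mul_const B) (Filter.Eventually.of_forall fun v => ?_)
    rw [norm_mul, norm_mul, Complex.norm_exp_ofReal_mul_I, one_mul]
    refine mul_le_mul_of_nonneg_left ?_ (norm_nonneg _)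
    have h := hB (2 * Real.pi * v)
    exact h
  refine hnorm.trans ?_
  rw [integral_mul_const]
  refine mul_le_mul_of_nonneg_right (hKb.trans ?_) hB0
  have hM1 : (M : ℝ) + 1 ≤ X := by exact_mod_cast hMX
  have hs : 2 * b + δ = Real.log (M + 1) := by
    rw [hb, hδ]
    ring
  have hl1 : 0 < Real.log (M + 1) := Real.log_pos (by linarith)
  have hratio : (2 * b + δ) / δ ≤ (X : ℝ) ^ 2 := by
    rw [hs, div_le_iff₀ hδ0]
    have h1 : Real.log (M + 1) ≤ (M : ℝ) + 1 := (Real.log_le_sub_one_of_pos (by positivity)).trans (by linarith)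
    have h2 : (1 : ℝ) ≤ ((M : ℝ) + 1) * δ := by
      have h3 := mul_le_mul_of_nonneg_left hδ1 (show (0 : ℝ) ≤ (M : ℝ) + 1 by positivity)
      rwa [mul_one_div, div_self (by positivity)] at h3
    calc Real.log (M + 1) ≤ ((M : ℝ) + 1) * 1 := by linarith
      _ ≤ ((M : ℝ) + 1) * (((M : ℝ) + 1) * δ) := mul_le_mul_of_nonneg_left h2 (by positivity)
      _ = ((M : ℝ) + 1) ^ 2 * δ := by ring
      _ ≤ (X : ℝ) ^ 2 * δ := by
          refine mul_le_mul_of_nonneg_right ?_ hδ0.le
          exact pow_le_pow_left₀ (by positivity) hM1 2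
  have hlr : Real.log ((2 * b + δ) / δ) ≤ 2 * Real.log X := by
    refine (Real.log_le_log ?_ hratio).trans (le_of_eq ?_)
    · rw [hs]
      positivity
    · rw [Real.log_pow]
      push_cast
      ring
  linarith

end Pool.Helper19.V4
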