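import Pool.Agent.Helper19.V4.Defs

/-!
# V4-2: bilinear forms modulo `b`

`|∑_m f(m) G(m)|² ≤ ∑ |f|² · ∑_{1 ≤ m ≤ A} |G(m)|²`, `G(m) = ∑_{n ≤ B} g(n) e(a m n / b)` depends on `m` modulo `b`; the interval `[1, A]` meets every residue class at most `A/b + 1` times, so
`∑_{m ≤ A} |G(m)|² ≤ (A/b + 1) ∑_{m mod b} |G(m)|² = (A/b + 1) b ∑_{r mod b} |∑_{n ≡ r} g(n)|²` (orthogonality, `a` is invertible modulo `b`) `≤ (A/b + 1) b (B/b + 1) ∑ |g|²` (Cauchy,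
a class has at most `B/b + 1` members in `[1, B]`), and `(A/b + 1) b (B/b + 1) = (A + b)(B + b)/b`.
-/

namespace Pool.Helper19.V4

open ArithmeticFunction Finset

private lemma ex_pow45 (x : ℝ) (m : ℕ) : ex (m * x) = ex x ^ m := by
  induction m with
  | zero => simp [ex_zero]
  | succ m ih =>
    rw [pow_succ, ← ih, ← ex_add]
    congr 1
    push_cast
    ring

private lemma ex_sum45 {b : ℕ} (hb : 1 ≤ b) {c : ℤ} (hc : ¬ (b : ℤ) ∣ c) :
    ∑ m ∈ range b, ex (m * ((c : ℝ) / b)) = 0 := by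
  have hb0 : (b : ℝ) ≠ 0 := by
    have : (0 : ℝ) < b := by exact_mod_cast hb
    exact this.ne'
  have h1 : ex ((c : ℝ) / b) ≠ 1 := by
    intro h
    rw [ex, Complex.exp_eq_one_iff] at h
    obtain ⟨n, hn⟩ := h
    have h2 : (((2 * Real.pi * ((c : ℝ) / b) : ℝ) : ℂ)) = ((n * (2 * Real.pi) : ℝ) : ℂ) := by
      have h3 : (((2 * Real.pi * ((c : ℝ) / b) : ℝ) : ℂ)) * Complex.I =
          ((n * (2 * Real.pi) : ℝ) : ℂ) * Complex.I := by
        rw [hn]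
        push_cast
        ring
      exact mul_right_cancel₀ Complex.I_ne_zero h3
    have h4 : 2 * Real.pi * ((c : ℝ) / b) = n * (2 * Real.pi) := by exact_mod_cast h2
    have h5 : (c : ℝ) / b = n := by
      have := Real.pi_pos
      have h6 : 2 * Real.pi * ((c : ℝ) / b) = 2 * Real.pi * n := by rw [h4]; ring
      exact mul_left_cancel₀ (by positivity) h6
    rw [div_eq_iff hb0] at h5
    have h6 : c = n * b := by exact_mod_cast h5
    exact hc ⟨n, by rw [h6]; ring⟩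
  simp_rw [ex_pow45]
  rw [geom_sum_eq h1]
  have h2 : ex ((c : ℝ) / b) ^ b = 1 := by
    rw [← ex_pow45, mul_div_cancel₀ _ hb0, ex_int]
  rw [h2, sub_self, zero_div]

private lemma parseval45 {a : ℤ} {b : ℕ} (hb : 1 ≤ b) (hab : IsCoprime a (b : ℤ)) (S : ℕ → ℂ) :
    ∑ m ∈ range b, ‖∑ r ∈ range b, S r * ex ((a : ℝ) * ((m : ℝ) * r) / b)‖ ^ 2 =
      b * ∑ r ∈ range b, ‖S r‖ ^ 2 := by
  have key : ∀ r ∈ range b, ∀ s ∈ range b,
      ∑ m ∈ range b, ex (m * (((a * ((r : ℤ) - s) : ℤ) : ℝ) / b)) = if s = r then (b : ℂ) else 0 := by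
    intro r hr s hs
    rw [mem_range] at hr hs
    split_ifs with h
    · subst h
      simp [ex_zero]
    · apply ex_sum45 hb
      intro hd
      have h1 : (b : ℤ) ∣ (r : ℤ) - s := hab.symm.dvd_of_dvd_mul_left hd
      have h2 : ((r : ℤ) - s).natAbs < b := by omega
      have h3 := Int.eq_zero_of_dvd_of_natAbs_lt_natAbs h1 (by simpa using h2)
      omega
  have h1 : ((∑ m ∈ range b, ‖∑ r ∈ range b, S r * ex ((a : ℝ) * ((m : ℝ) * r) / b)‖ ^ 2 : ℝ) : ℂ)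
      = ((b * ∑ r ∈ range b, ‖S r‖ ^ 2 : ℝ) : ℂ) := by
    push_cast
    calc ∑ m ∈ range b, ((‖∑ r ∈ range b, S r * ex ((a : ℝ) * ((m : ℝ) * r) / b)‖ : ℝ) : ℂ) ^ 2
        = ∑ m ∈ range b, ∑ r ∈ range b, ∑ s ∈ range b, (S r * (starRingEnd ℂ) (S s)) *
            ex (m * (((a * ((r : ℤ) - s) : ℤ) : ℝ) / b)) := by
          refine sum_congr rfl fun m _ => ?_
          rw [← Complex.mul_conj', map_sum, sum_mul_sum]
          refine sum_congr rfl fun r _ => sum_congr rfl fun s _ => ?_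
          rw [map_mul, ← ex_neg]
          have : ex (m * (((a * ((r : ℤ) - s) : ℤ) : ℝ) / b)) =
              ex ((a : ℝ) * ((m : ℝ) * r) / b) * ex (-((a : ℝ) * ((m : ℝ) * s) / b)) := by
            rw [← ex_add]
            congr 1
            push_cast
            ring
          rw [this]
          ring
      _ = ∑ r ∈ range b, ∑ s ∈ range b, (S r * (starRingEnd ℂ) (S s)) *
            ∑ m ∈ range b, ex (m * (((a * ((r : ℤ) - s) : ℤ) : ℝ) / b)) := by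
          rw [sum_comm]
          refine sum_congr rfl fun r _ => ?_
          rw [sum_comm]
          refine sum_congr rfl fun s _ => ?_
          rw [mul_sum]
      _ = ∑ r ∈ range b, (S r * (starRingEnd ℂ) (S r)) * b := by
          refine sum_congr rfl fun r hr => ?_
          rw [sum_congr rfl fun s hs => by rw [key r hr s hs]]
          simp only [mul_ite, mul_zero]
          rw [sum_ite_eq' (range b) r, if_pos hr]
      _ = (b : ℂ) * ∑ r ∈ range b, ((‖S r‖ : ℝ) : ℂ) ^ 2 := by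
          rw [mul_sum]
          refine sum_congr rfl fun r _ => ?_
          rw [Complex.mul_conj', mul_comm]
  exact_mod_cast h1

private lemma card_class45 {b : ℕ} (A r : ℕ) :
    (((Icc 1 A).filter (fun m => m % b = r)).card : ℝ) ≤ (A : ℝ) / b + 1 := by
  have h1 : ((Icc 1 A).filter (fun m => m % b = r)).card ≤ A / b + 1 := by
    rw [← card_range (A / b + 1)]
    refine card_le_card_of_injOn (fun m => m / b) ?_ ?_
    · intro m hm
      have h2 := mem_filter.1 hm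
      have h3 := mem_Icc.1 h2.1
      exact mem_coe.2 (mem_range.2 (Nat.lt_succ_of_le (Nat.div_le_div_right h3.2)))
    · intro m hm n hn hmn
      have h2 := (mem_filter.1 hm).2
      have h3 := (mem_filter.1 hn).2
      have h4 : m / b = n / b := hmn
      rw [← Nat.div_add_mod m b, ← Nat.div_add_mod n b, h2, h3, h4]
  have h2 : (((Icc 1 A).filter (fun m => m % b = r)).card : ℝ) ≤ ((A / b + 1 : ℕ) : ℝ) := by
    exact_mod_cast h1
  refine h2.trans ?_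
  push_cast
  have := Nat.cast_div_le (α := ℝ) (m := A) (n := b)
  linarith

private lemma class_sum45 {b : ℕ} (hb : 1 ≤ b) (A : ℕ) (H : ℕ → ℝ) :
    ∑ m ∈ Icc 1 A, H (m % b) =
      ∑ r ∈ range b, (((Icc 1 A).filter (fun m => m % b = r)).card : ℝ) * H r := by
  rw [← sum_fiberwise_of_maps_to (s := Icc 1 A) (t := range b) (g := fun m => m % b)
    (fun m _ => mem_range.2 (Nat.mod_lt _ hb))]
  refine sum_congr rfl fun r _ => ?_
  rw [sum_congr rfl (g := fun _ => H r) fun m hm => by rw [(mem_filter.1 hm).2], sum_const,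
    nsmul_eq_mul]

private lemma ex_mod45 (a : ℤ) {b : ℕ} (hb : 1 ≤ b) (m n : ℕ) :
    ex ((a : ℝ) * ((m : ℝ) * n) / b) = ex ((a : ℝ) * ((m : ℝ) * ((n % b : ℕ) : ℝ)) / b) := by
  have hb0 : (b : ℝ) ≠ 0 := by
    have : (0 : ℝ) < b := by exact_mod_cast hb
    exact this.ne'
  obtain ⟨k, hk⟩ : ∃ k : ℕ, k = n / b := ⟨_, rfl⟩
  have h1 : (n : ℝ) = b * (k : ℝ) + ((n % b : ℕ) : ℝ) := by
    rw [hk]
    exact_mod_cast (Nat.div_add_mod n b).symm
  rw [← ex_add_int ((a : ℝ) * ((m : ℝ) * ((n % b : ℕ) : ℝ)) / b) (a * m * (k : ℤ))]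
  congr 1
  rw [h1]
  push_cast
  field_simp
  ring

theorem type_two {a : ℤ} {b : ℕ} (hb : 1 ≤ b) (hab : IsCoprime a (b : ℤ)) (A B : ℕ) (f g : ℕ → ℂ) :
    ‖∑ m ∈ Icc 1 A, ∑ n ∈ Icc 1 B, f m * g n * ex ((a : ℝ) * ((m : ℝ) * n) / b)‖ ^ 2 ≤
      ((A : ℝ) + b) * ((B : ℝ) + b) / b * (∑ m ∈ Icc 1 A, ‖f m‖ ^ 2) * ∑ n ∈ Icc 1 B, ‖g n‖ ^ 2 := by
  have hbp : (0 : ℝ) < b := by exact_mod_cast hb
  obtain ⟨G, hG⟩ : ∃ G : ℕ → ℂ, ∀ m, G m = ∑ n ∈ Icc 1 B, g n * ex ((a : ℝ) * ((m : ℝ) * n) / b) :=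
    ⟨_, fun _ => rfl⟩
  obtain ⟨S, hS⟩ : ∃ S : ℕ → ℂ, ∀ r, S r = ∑ n ∈ (Icc 1 B).filter (fun n => n % b = r), g n :=
    ⟨_, fun _ => rfl⟩
  -- the sums over classes
  have hGS : ∀ m, G m = ∑ r ∈ range b, S r * ex ((a : ℝ) * ((m : ℝ) * r) / b) := by
    intro m
    rw [hG, ← sum_fiberwise_of_maps_to (s := Icc 1 B) (t := range b) (g := fun n => n % b)
      (fun n _ => mem_range.2 (Nat.mod_lt _ hb))]
    refine sum_congr rfl fun r _ => ?_
    rw [hS, sum_mul]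
    refine sum_congr rfl fun n hn => ?_
    rw [ex_mod45 a hb m n, (mem_filter.1 hn).2]
  have hGm : ∀ m, G m = G (m % b) := by
    intro m
    rw [hG, hG]
    refine sum_congr rfl fun n _ => ?_
    have h1 := ex_mod45 a hb n m
    have h2 : (a : ℝ) * ((m : ℝ) * n) / b = (a : ℝ) * ((n : ℝ) * m) / b := by ring
    have h3 : (a : ℝ) * (((m % b : ℕ) : ℝ) * n) / b = (a : ℝ) * ((n : ℝ) * ((m % b : ℕ) : ℝ)) / b := by
      ring
    rw [h2, h3, h1]
  -- Cauchy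
  have h1 : ‖∑ m ∈ Icc 1 A, ∑ n ∈ Icc 1 B, f m * g n * ex ((a : ℝ) * ((m : ℝ) * n) / b)‖ ^ 2 ≤
      (∑ m ∈ Icc 1 A, ‖f m‖ ^ 2) * ∑ m ∈ Icc 1 A, ‖G m‖ ^ 2 := by
    have e : ∑ m ∈ Icc 1 A, ∑ n ∈ Icc 1 B, f m * g n * ex ((a : ℝ) * ((m : ℝ) * n) / b) =
        ∑ m ∈ Icc 1 A, f m * G m := by
      refine sum_congr rfl fun m _ => ?_
      rw [hG, mul_sum]
      exact sum_congr rfl fun n _ => by ring
    rw [e]
    have h2 : ‖∑ m ∈ Icc 1 A, f m * G m‖ ≤ ∑ m ∈ Icc 1 A, ‖f m‖ * ‖G m‖ :=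
      (norm_sum_le _ _).trans (sum_le_sum fun m _ => (norm_mul _ _).le)
    exact (pow_le_pow_left₀ (norm_nonneg _) h2 2).trans (sum_mul_sq_le_sq_mul_sq _ _ _)
  have h2 : ∑ m ∈ Icc 1 A, ‖G m‖ ^ 2 ≤ ((A : ℝ) / b + 1) * ∑ r ∈ range b, ‖G r‖ ^ 2 := by
    rw [sum_congr rfl (g := fun m => ‖G (m % b)‖ ^ 2) fun m _ => by rw [← hGm m],
      class_sum45 hb A (fun r => ‖G r‖ ^ 2), mul_sum]
    exact sum_le_sum fun r _ => mul_le_mul_of_nonneg_right (card_class45 A r) (by positivity)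
  have h3 : ∑ r ∈ range b, ‖G r‖ ^ 2 = b * ∑ r ∈ range b, ‖S r‖ ^ 2 := by
    rw [← parseval45 hb hab S]
    exact sum_congr rfl fun m _ => by rw [hGS]
  have h4 : ∑ r ∈ range b, ‖S r‖ ^ 2 ≤ ((B : ℝ) / b + 1) * ∑ n ∈ Icc 1 B, ‖g n‖ ^ 2 := by
    rw [← sum_fiberwise_of_maps_to (s := Icc 1 B) (t := range b) (g := fun n => n % b)
      (fun n _ => mem_range.2 (Nat.mod_lt _ hb)), mul_sum]
    refine sum_le_sum fun r _ => ?_
    rw [hS]
    have h5 : ‖∑ n ∈ (Icc 1 B).filter (fun n => n % b = r), g n‖ ≤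
        ∑ n ∈ (Icc 1 B).filter (fun n => n % b = r), 1 * ‖g n‖ := by
      simpa using norm_sum_le _ _
    have h6 := sum_mul_sq_le_sq_mul_sq ((Icc 1 B).filter (fun n => n % b = r)) (fun _ => (1 : ℝ))
      (fun n => ‖g n‖)
    refine (pow_le_pow_left₀ (norm_nonneg _) h5 2).trans (h6.trans ?_)
    refine mul_le_mul_of_nonneg_right ?_ (sum_nonneg fun n _ => by positivity)
    simpa using card_class45 B r
  have hf0 : 0 ≤ ∑ m ∈ Icc 1 A, ‖f m‖ ^ 2 := sum_nonneg fun n _ => by positivity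
  calc _ ≤ (∑ m ∈ Icc 1 A, ‖f m‖ ^ 2) * ∑ m ∈ Icc 1 A, ‖G m‖ ^ 2 := h1
    _ ≤ (∑ m ∈ Icc 1 A, ‖f m‖ ^ 2) * (((A : ℝ) / b + 1) *
        (b * (((B : ℝ) / b + 1) * ∑ n ∈ Icc 1 B, ‖g n‖ ^ 2))) := by
        refine mul_le_mul_of_nonneg_left (h2.trans ?_) hf0
        rw [h3]
        exact mul_le_mul_of_nonneg_left (mul_le_mul_of_nonneg_left h4 hbp.le) (by positivity)
    _ = _ := by
        field_simp

end Pool.Helper19.V4
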