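import Pool.Agent.Helper19.V4.Defs

/-!
# V4-14a: Gauss sums for all characters

`T(c, χ) = ∑_{v unit} χ(v) e(c v / q)`.
* `gauss_le`: `∑_{c mod q} |T(c, χ)|² = q φ(q)` (orthogonality of `c ↦ e(c (v - w)/q)`, `|χ(v)| = 1`); for a unit `u` substitution `v → u⁻¹ v` gives `|T(a u, χ)| = |T(a, χ)|`, so
`φ(q) |T(a, χ)|² ≤ q φ(q)`. Holds for every `χ` modulo `q`, primitive or not.
* `ex_char`: `∑_χ χ(n) χ⁻¹(v) = φ(q)` if `v = n` and `0` otherwise (`DirichletCharacter.sum_char_inv_mul_char_eq`), `e(a n / q)` depends on `n` modulo `q` only.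
-/

namespace Pool.Helper19.V4

open ArithmeticFunction Finset

private lemma ex_std14 {q : ℕ} [NeZero q] (j : ℤ) : ex ((j : ℝ) / q) = ZMod.stdAddChar (j : ZMod q) := by
  rw [ZMod.stdAddChar_coe, ex]
  congr 1
  push_cast
  ring

private lemma ex_std14' {q : ℕ} [NeZero q] (a : ℤ) (v : ZMod q) :
    ex ((a : ℝ) * ((v.val : ℕ) : ℝ) / q) = ZMod.stdAddChar ((a : ZMod q) * v) := by
  have h := ex_std14 (q := q) (a * (v.val : ℤ))
  push_cast at h
  rw [h, ZMod.natCast_zmod_val]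

private noncomputable def T14 {q : ℕ} [NeZero q] (χ : DirichletCharacter ℂ q) (c : ZMod q) : ℂ :=
  ∑ v : (ZMod q)ˣ, χ (v : ZMod q) * ZMod.stdAddChar (c * (v : ZMod q))

private lemma std_neg14 {q : ℕ} [NeZero q] (c : ZMod q) :
    (ZMod.stdAddChar (-c) : ℂ) = (starRingEnd ℂ) (ZMod.stdAddChar c) := by
  obtain ⟨j, rfl⟩ := ZMod.intCast_surjective c
  have h1 := ex_std14 (q := q) j
  have h2 := ex_std14 (q := q) (-j)
  rw [← h1, ← ex_neg]
  push_cast at h2
  rw [← h2]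
  congr 1
  ring

private lemma parseval14 {q : ℕ} [NeZero q] (χ : DirichletCharacter ℂ q) :
    ∑ c : ZMod q, ‖T14 χ c‖ ^ 2 = q * q.totient := by
  have h1 : ∀ c : ZMod q, ((‖T14 χ c‖ ^ 2 : ℝ) : ℂ) = ∑ v : (ZMod q)ˣ, ∑ w : (ZMod q)ˣ,
      (χ (v : ZMod q) * (starRingEnd ℂ) (χ (w : ZMod q))) *
        ZMod.stdAddChar (c * ((v : ZMod q) - (w : ZMod q))) := by
    intro c
    rw [← Complex.normSq_eq_norm_sq, ← Complex.mul_conj, T14, map_sum, Finset.sum_mul_sum]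
    refine Finset.sum_congr rfl fun v _ => Finset.sum_congr rfl fun w _ => ?_
    rw [map_mul (starRingEnd ℂ), mul_sub, sub_eq_add_neg, AddChar.map_add_eq_mul, std_neg14]
    ring
  have h2 : ((∑ c : ZMod q, ‖T14 χ c‖ ^ 2 : ℝ) : ℂ) = ((q * q.totient : ℝ) : ℂ) := by
    rw [Complex.ofReal_sum, Finset.sum_congr rfl fun c _ => h1 c, Finset.sum_comm]
    have h3 : ∀ v : (ZMod q)ˣ, ∑ c : ZMod q, ∑ w : (ZMod q)ˣ,
        (χ (v : ZMod q) * (starRingEnd ℂ) (χ (w : ZMod q))) *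
          ZMod.stdAddChar (c * ((v : ZMod q) - (w : ZMod q))) = q := by
      intro v
      rw [Finset.sum_comm]
      have h4 : ∀ w : (ZMod q)ˣ, ∑ c : ZMod q,
          (χ (v : ZMod q) * (starRingEnd ℂ) (χ (w : ZMod q))) *
            ZMod.stdAddChar (c * ((v : ZMod q) - (w : ZMod q))) =
          if w = v then (q : ℂ) else 0 := by
        intro w
        rw [← Finset.mul_sum, AddChar.sum_mulShift _ (ZMod.isPrimitive_stdAddChar q), ZMod.card]
        by_cases h : w = v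
        · subst h
          rw [if_pos (sub_self _), if_pos rfl, Complex.mul_conj, Complex.normSq_eq_norm_sq,
            DirichletCharacter.unit_norm_eq_one]
          simp
        · have h5 : ¬ ((v : ZMod q) - (w : ZMod q) = 0) := by
            intro h6
            exact h (Units.ext (sub_eq_zero.1 h6).symm)
          rw [if_neg h5, if_neg h]
          simp
      rw [Finset.sum_congr rfl fun w _ => h4 w]
      simp
    rw [Finset.sum_congr rfl fun v _ => h3 v]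
    simp [ZMod.card_units_eq_totient]
    ring
  exact_mod_cast h2

private lemma norm_unit14 {q : ℕ} [NeZero q] (χ : DirichletCharacter ℂ q) (c : ZMod q)
    (u : (ZMod q)ˣ) : ‖T14 χ (c * u)‖ = ‖T14 χ c‖ := by
  have h : T14 χ c = χ (u : ZMod q) * T14 χ (c * u) := by
    rw [T14, T14, Finset.mul_sum]
    refine (Fintype.sum_equiv (Equiv.mulLeft u) _ _ fun v => ?_).symm
    rw [Equiv.coe_mulLeft, Units.val_mul, map_mul χ, ← mul_assoc c]
    ring
  rw [h, norm_mul, DirichletCharacter.unit_norm_eq_one, one_mul]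

theorem gauss_le {q : ℕ} [NeZero q] {a : ℤ} (ha : IsCoprime a (q : ℤ)) (χ : DirichletCharacter ℂ q) :
    ‖∑ v : (ZMod q)ˣ, χ (v : ZMod q) * ex ((a : ℝ) * ((v : ZMod q).val : ℝ) / q)‖ ≤ Real.sqrt q := by
  have h0 : ∑ v : (ZMod q)ˣ, χ (v : ZMod q) * ex ((a : ℝ) * ((v : ZMod q).val : ℝ) / q) =
      T14 χ (a : ZMod q) := by
    rw [T14]
    refine Finset.sum_congr rfl fun v _ => ?_
    rw [ex_std14']
  rw [h0]
  have ha' : IsUnit (a : ZMod q) := by
    have := (ZMod.coe_int_isUnit_iff_isCoprime a q).2 ha.symm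
    exact this
  obtain ⟨b, hb⟩ := ha'
  have h1 : ∑ u : (ZMod q)ˣ, ‖T14 χ ((a : ZMod q) * u)‖ ^ 2 ≤ ∑ c : ZMod q, ‖T14 χ c‖ ^ 2 := by
    have h2 : ∑ u : (ZMod q)ˣ, ‖T14 χ ((a : ZMod q) * u)‖ ^ 2 =
        ∑ c ∈ Finset.univ.image (fun u : (ZMod q)ˣ => (a : ZMod q) * u), ‖T14 χ c‖ ^ 2 := by
      rw [Finset.sum_image]
      intro u _ u' _ huu
      apply Units.ext
      have h3 : (b : ZMod q) * u = (b : ZMod q) * u' := by rw [hb]; exact huu
      exact (Units.mul_right_inj b).1 h3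
    rw [h2]
    exact Finset.sum_le_sum_of_subset_of_nonneg (Finset.subset_univ _) fun _ _ _ => by positivity
  rw [parseval14] at h1
  have h2 : ∑ u : (ZMod q)ˣ, ‖T14 χ ((a : ZMod q) * u)‖ ^ 2 = q.totient * ‖T14 χ (a : ZMod q)‖ ^ 2 := by
    rw [Finset.sum_congr rfl fun u _ => by rw [norm_unit14]]
    rw [Finset.sum_const, Finset.card_univ, ZMod.card_units_eq_totient, nsmul_eq_mul]
  rw [h2] at h1
  have h3 : (0 : ℝ) < q.totient := by
    exact_mod_cast Nat.totient_pos.2 (Nat.pos_of_ne_zero (NeZero.ne q))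
  have h4 : ‖T14 χ (a : ZMod q)‖ ^ 2 ≤ q := by
    have h5 : (q.totient : ℝ) * ‖T14 χ (a : ZMod q)‖ ^ 2 ≤ q.totient * q := by linarith
    exact le_of_mul_le_mul_left h5 h3
  exact Real.le_sqrt_of_sq_le h4

theorem ex_char {q : ℕ} [NeZero q] (a : ℤ) {n : ℕ} (hn : Nat.Coprime n q) :
    ex ((a : ℝ) * n / q) = ((q.totient : ℂ))⁻¹ * ∑ χ : DirichletCharacter ℂ q, χ (n : ZMod q) *
      ∑ v : (ZMod q)ˣ, (χ⁻¹) (v : ZMod q) * ex ((a : ℝ) * ((v : ZMod q).val : ℝ) / q) := by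
  have h1 : ∑ χ : DirichletCharacter ℂ q, χ (n : ZMod q) *
      ∑ v : (ZMod q)ˣ, (χ⁻¹) (v : ZMod q) * ex ((a : ℝ) * ((v : ZMod q).val : ℝ) / q) =
      ∑ v : (ZMod q)ˣ, ex ((a : ℝ) * ((v : ZMod q).val : ℝ) / q) *
        ∑ χ : DirichletCharacter ℂ q, χ ((v : ZMod q))⁻¹ * χ (n : ZMod q) := by
    simp_rw [Finset.mul_sum]
    rw [Finset.sum_comm]
    refine Finset.sum_congr rfl fun v _ => Finset.sum_congr rfl fun χ _ => ?_
    rw [MulChar.inv_apply, Ring.inverse_unit, ← ZMod.inv_coe_unit]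
    ring
  have h2 : ∀ v : (ZMod q)ˣ, ∑ χ : DirichletCharacter ℂ q, χ ((v : ZMod q))⁻¹ * χ (n : ZMod q) =
      if v = ZMod.unitOfCoprime n hn then (q.totient : ℂ) else 0 := by
    intro v
    rw [DirichletCharacter.sum_char_inv_mul_char_eq ℂ v.isUnit (n : ZMod q)]
    by_cases h : v = ZMod.unitOfCoprime n hn
    · rw [if_pos h, if_pos]
      rw [h, ZMod.coe_unitOfCoprime]
    · rw [if_neg h, if_neg]
      intro h3
      apply h
      apply Units.ext
      rw [h3, ZMod.coe_unitOfCoprime]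
  rw [h1, Finset.sum_congr rfl fun v _ => by rw [h2 v]]
  simp only [mul_ite, mul_zero]
  rw [Finset.sum_ite_eq' Finset.univ (ZMod.unitOfCoprime n hn), if_pos (Finset.mem_univ _),
    ex_std14', ZMod.coe_unitOfCoprime]
  have h4 := ex_std14 (q := q) (a * (n : ℤ))
  push_cast at h4
  rw [h4]
  have h5 : (q.totient : ℂ) ≠ 0 := by
    exact_mod_cast (Nat.totient_pos.2 (Nat.pos_of_ne_zero (NeZero.ne q))).ne'
  field_simp

end Pool.Helper19.V4
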