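import Pool.Agent.Helper19.V4.Prod
import Pool.Agent.Helper19.V4.GaussQ

/-!
# V4-14b: characters

`∑_{n ≤ Y} (∏ F)(n) χ(n) = ∏ i, ∑_n F i n χ(n)` (complete multiplicativity; `∏ L ≤ Y`, so no cut-off), and `SF (∏ F) Y a q` only sees `n` coprime to `q`. So, by `ex_char` and `gauss_le` (for `χ⁻¹`),
`|SF (∏ F) Y a q| ≤ φ(q)⁻¹ √q ∑_χ ∏ |A_i(χ)| ≤ φ(q)⁻¹ √q ∑_χ (1/5) ∑_i |A_i(χ)|^5 ≤ φ(q)⁻¹ √q S` (arithmetic-geometric mean, `Real.geom_mean_le_arith_mean` or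
`inner_le_nnorm_mul_nnorm`-type lemmas; `Real.inner_le_Lp_mul_Lq` is not needed).
-/

namespace Pool.Helper19.V4

open ArithmeticFunction Finset

private lemma mul_ne33 {f g : ArithmeticFunction ℂ} {n : ℕ} (h : (f * g) n ≠ 0) :
    ∃ x y : ℕ, x * y = n ∧ f x ≠ 0 ∧ g y ≠ 0 := by
  rw [ArithmeticFunction.mul_apply] at h
  obtain ⟨p, hp, hne⟩ := Finset.exists_ne_zero_of_sum_ne_zero h
  rw [Nat.mem_divisorsAntidiagonal] at hp
  exact ⟨p.1, p.2, hp.1, left_ne_zero_of_mul hne, right_ne_zero_of_mul hne⟩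

private lemma prod_cop33 {ι : Type*} (s : Finset ι) {q : ℕ} (F : ι → ArithmeticFunction ℂ) (L : ι → ℕ)
    (hL : ∀ i n, F i n ≠ 0 → n ≤ L i) (hc : ∀ i n, F i n ≠ 0 → Nat.Coprime n q) :
    ∀ n : ℕ, (∏ i ∈ s, F i) n ≠ 0 → Nat.Coprime n q ∧ n ≤ ∏ i ∈ s, L i := by
  classical
  induction s using Finset.induction_on with
  | empty =>
    intro n hn
    rw [Finset.prod_empty] at hn
    have h1 : n = 1 := by
      by_contra h1
      exact hn (ArithmeticFunction.one_apply_ne h1)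
    subst h1
    simp
  | insert a s ha ih =>
    intro n hn
    rw [Finset.prod_insert ha] at hn
    obtain ⟨x, y, hxy, hx, hy⟩ := mul_ne33 hn
    obtain ⟨h1, h2⟩ := ih y hy
    rw [Finset.prod_insert ha, ← hxy]
    exact ⟨Nat.Coprime.mul_left (hc a x hx) h1, Nat.mul_le_mul (hL a x hx) h2⟩

private lemma mul_char33 {q : ℕ} (χ : DirichletCharacter ℂ q) (f g : ArithmeticFunction ℂ) {A B X : ℕ}
    (hf : ∀ n, f n ≠ 0 → n ≤ A) (hg : ∀ n, g n ≠ 0 → n ≤ B) (hX : A * B ≤ X) :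
    ∑ n ∈ Icc 1 X, (f * g) n * χ (n : ZMod q) =
      (∑ m ∈ Icc 1 A, f m * χ (m : ZMod q)) * ∑ n ∈ Icc 1 B, g n * χ (n : ZMod q) := by
  classical
  rw [Finset.sum_mul_sum, ← Finset.sum_product' (Icc 1 A) (Icc 1 B)
    fun m n => f m * χ (m : ZMod q) * (g n * χ (n : ZMod q))]
  have hmaps : ∀ p ∈ Icc 1 A ×ˢ Icc 1 B, p.1 * p.2 ∈ Icc 1 X := by
    intro p hp
    rw [mem_product, mem_Icc, mem_Icc] at hp
    rw [mem_Icc]
    exact ⟨Nat.one_le_iff_ne_zero.mpr (Nat.mul_ne_zero (by omega) (by omega)),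
      (Nat.mul_le_mul hp.1.2 hp.2.2).trans hX⟩
  rw [← Finset.sum_fiberwise_of_maps_to hmaps]
  refine Finset.sum_congr rfl fun n hn => ?_
  rw [ArithmeticFunction.mul_apply, Finset.sum_mul]
  rw [mem_Icc] at hn
  have hsub : (Icc 1 A ×ˢ Icc 1 B).filter (fun p => p.1 * p.2 = n) ⊆ n.divisorsAntidiagonal := by
    intro p hp
    rw [mem_filter] at hp
    rw [Nat.mem_divisorsAntidiagonal]
    exact ⟨hp.2, by omega⟩
  rw [← Finset.sum_subset hsub]
  · refine Finset.sum_congr rfl fun p hp => ?_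
    rw [mem_filter] at hp
    rw [← hp.2]
    push_cast
    rw [map_mul]
    ring
  · intro p hp hnp
    rw [Nat.mem_divisorsAntidiagonal] at hp
    obtain ⟨h1, h2⟩ := hp
    have hx : p.1 ≠ 0 := fun h => h2 (by rw [← h1, h, zero_mul])
    have hy : p.2 ≠ 0 := fun h => h2 (by rw [← h1, h, mul_zero])
    by_contra hne
    apply hnp
    rw [mem_filter, mem_product, mem_Icc, mem_Icc]
    refine ⟨⟨⟨by omega, hf _ fun h0 => hne ?_⟩, ⟨by omega, hg _ fun h0 => hne ?_⟩⟩, h1⟩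
    · rw [h0, zero_mul, zero_mul]
    · rw [h0, mul_zero, zero_mul]

private lemma prod_char33 {ι : Type*} (s : Finset ι) {q : ℕ} (χ : DirichletCharacter ℂ q)
    (F : ι → ArithmeticFunction ℂ) (L : ι → ℕ) (hL : ∀ i n, F i n ≠ 0 → n ≤ L i)
    (hc : ∀ i n, F i n ≠ 0 → Nat.Coprime n q) : ∀ X : ℕ, ∏ i ∈ s, L i ≤ X →
    ∑ n ∈ Icc 1 X, (∏ i ∈ s, F i) n * χ (n : ZMod q) = ∏ i ∈ s, ∑ n ∈ Icc 1 (L i), F i n * χ (n : ZMod q) := by
  classical
  induction s using Finset.induction_on with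
  | empty =>
    intro X hX
    rw [Finset.prod_empty] at hX
    rw [Finset.prod_empty, Finset.prod_empty, Finset.sum_eq_single 1]
    · simp
    · intro n _ hn
      rw [ArithmeticFunction.one_apply_ne hn, zero_mul]
    · intro h1
      exact absurd (mem_Icc.2 ⟨le_rfl, hX⟩) h1
  | insert a s ha ih =>
    intro X hX
    rw [Finset.prod_insert ha] at hX
    rw [Finset.prod_insert ha, Finset.prod_insert ha,
      mul_char33 χ (F a) (∏ i ∈ s, F i) (hL a) (fun n hn => (prod_cop33 s F L hL hc n hn).2) hX, ih _ le_rfl]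

private lemma amgm33 (x : Fin 5 → ℝ) (hx : ∀ i, 0 ≤ x i) : ∏ i, x i ≤ ∑ i, (1 / 5 : ℝ) * x i ^ 5 := by
  have h1 := Real.geom_mean_le_arith_mean_weighted (Finset.univ : Finset (Fin 5)) (fun _ => ((5 : ℕ) : ℝ)⁻¹)
    (fun i => x i ^ 5) (fun _ _ => by positivity) (by simp) (fun i _ => by have := hx i; positivity)
  have h2 : ∀ i ∈ (Finset.univ : Finset (Fin 5)), (x i ^ 5) ^ (((5 : ℕ) : ℝ)⁻¹) = x i := fun i _ =>
    Real.pow_rpow_inv_natCast (hx i) (by norm_num)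
  rw [Finset.prod_congr rfl h2] at h1
  refine h1.trans (le_of_eq (Finset.sum_congr rfl fun i _ => ?_))
  norm_num

theorem char_five {q : ℕ} [NeZero q] {a : ℤ} (ha : IsCoprime a (q : ℤ)) (F : Fin 5 → ArithmeticFunction ℂ) (L : Fin 5 → ℕ)
    (hL : ∀ i n, F i n ≠ 0 → n ≤ L i) (hc : ∀ i n, F i n ≠ 0 → Nat.Coprime n q) {S : ℝ}
    (hS : ∀ i, ∑ χ : DirichletCharacter ℂ q, ‖∑ n ∈ Icc 1 (L i), F i n * χ (n : ZMod q)‖ ^ 5 ≤ S) {Y : ℕ} (hY : ∏ i, L i ≤ Y) :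
    ‖SF (∏ i, F i) Y a q‖ ≤ Real.sqrt q / (q.totient : ℝ) * S := by
  classical
  set G : DirichletCharacter ℂ q → ℂ := fun χ =>
    ∑ v : (ZMod q)ˣ, (χ⁻¹) (v : ZMod q) * ex ((a : ℝ) * ((v : ZMod q).val : ℝ) / q) with hG
  set A : Fin 5 → DirichletCharacter ℂ q → ℂ := fun i χ => ∑ n ∈ Icc 1 (L i), F i n * χ (n : ZMod q) with hA
  have hφ : (0 : ℝ) < q.totient := by
    exact_mod_cast Nat.totient_pos.2 (Nat.pos_of_ne_zero (NeZero.ne q))
  have key : SF (∏ i, F i) Y a q = ((q.totient : ℂ))⁻¹ * ∑ χ : DirichletCharacter ℂ q, G χ * ∏ i, A i χ := by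
    have h1 : ∀ n ∈ Icc 1 Y, (∏ i, F i) n * ex ((a : ℝ) * n / q) =
        ((q.totient : ℂ))⁻¹ * ∑ χ : DirichletCharacter ℂ q, G χ * ((∏ i, F i) n * χ (n : ZMod q)) := by
      intro n _
      by_cases hn : (∏ i, F i) n = 0
      · simp [hn]
      · obtain ⟨h2, -⟩ := prod_cop33 Finset.univ F L hL hc n hn
        rw [ex_char a h2, mul_left_comm, Finset.mul_sum]
        congr 1
        refine Finset.sum_congr rfl fun χ _ => ?_
        rw [hG]
        ring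
    rw [SF, Finset.sum_congr rfl h1, ← Finset.mul_sum, Finset.sum_comm]
    congr 1
    refine Finset.sum_congr rfl fun χ _ => ?_
    rw [← Finset.mul_sum, prod_char33 Finset.univ χ F L hL hc Y hY]
  rw [key, norm_mul, norm_inv, Complex.norm_natCast]
  have h1 : ‖∑ χ : DirichletCharacter ℂ q, G χ * ∏ i, A i χ‖ ≤ Real.sqrt q * S := by
    calc ‖∑ χ : DirichletCharacter ℂ q, G χ * ∏ i, A i χ‖
        ≤ ∑ χ : DirichletCharacter ℂ q, ‖G χ * ∏ i, A i χ‖ := norm_sum_le _ _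
      _ ≤ ∑ χ : DirichletCharacter ℂ q, Real.sqrt q * ∑ i, (1 / 5 : ℝ) * ‖A i χ‖ ^ 5 := by
          refine Finset.sum_le_sum fun χ _ => ?_
          rw [norm_mul, norm_prod]
          refine mul_le_mul (gauss_le ha χ⁻¹) (amgm33 _ fun i => norm_nonneg _) ?_ (Real.sqrt_nonneg _)
          exact Finset.prod_nonneg fun i _ => norm_nonneg _
      _ = Real.sqrt q * ∑ i, (1 / 5 : ℝ) * ∑ χ : DirichletCharacter ℂ q, ‖A i χ‖ ^ 5 := by
          rw [← Finset.mul_sum, Finset.sum_comm]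
          congr 1
          refine Finset.sum_congr rfl fun i _ => ?_
          rw [Finset.mul_sum]
      _ ≤ Real.sqrt q * ∑ _i : Fin 5, (1 / 5 : ℝ) * S := by
          refine mul_le_mul_of_nonneg_left (Finset.sum_le_sum fun i _ => ?_) (Real.sqrt_nonneg _)
          exact mul_le_mul_of_nonneg_left (hS i) (by norm_num)
      _ = Real.sqrt q * S := by
          congr 1
          rw [Finset.sum_const, Finset.card_univ, Fintype.card_fin, nsmul_eq_mul]
          push_cast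
          ring
  calc ((q.totient : ℝ))⁻¹ * ‖∑ χ : DirichletCharacter ℂ q, G χ * ∏ i, A i χ‖
      ≤ ((q.totient : ℝ))⁻¹ * (Real.sqrt q * S) := mul_le_mul_of_nonneg_left h1 (by positivity)
    _ = Real.sqrt q / (q.totient : ℝ) * S := by ring

end Pool.Helper19.V4
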