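import Mathlib

/-!
# V4-7: the combinatorial lemma on exponents

`σ = ∑ α`. Window `[L, U] = [2σ - 8/5 + 2d, 8/5 - σ - 2d]`. If `L ≤ 0` take `T = ∅`. General step: if a set of indices has sum `< l`, and adding further indices one by one, each `≤ u - l`, reaches a sum `≥ l`, then
some intermediate set has its sum in `[l, u]`.
(i) `σ ≤ 1 - 2d`: `U - L = 16/5 - 3σ - 4d ≥ 1/5 + 2d`, all steps are `≤ 1/5 + d`, start from `∅`, total `σ ≥ L`.
(ii) `σ > 1 - 2d`: `[l, u] := [2/5 + 2d, 3/5 - 2d] ⊆ [L, U]`, `u - l = 1/5 - 4d`. Call `i` big if `α i > 1/5 - 4d`, `s` = sum of the others. With at most one big index: start from it (`≤ 1/5 + d < l`), the total is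
`σ ≥ l`. With two big indices `i, j`: `2/5 - 8d < α i + α j ≤ 2/5 + 2d = l`; equality: done; otherwise, if `α i + α j + s ≥ l`, done; so `s < 10 d`. Then the number `m` of big indices satisfies
`m (1/5 + d) + 10 d > 1 - 2d`, so `m ≥ 5`, and `m (1/5 - 4d) < 1`, so `m ≤ 5`; `T` = the big indices.
-/

namespace Pool.Helper19.V4

open Finset

private theorem greedy30 {ι : Type*} [DecidableEq ι] (α : ι → ℝ) {l u : ℝ} {S₁ : Finset ι} :
    ∀ (n : ℕ) (S₀ : Finset ι), (S₁ \ S₀).card = n → ∑ i ∈ S₀, α i ≤ u → S₀ ⊆ S₁ →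
      l ≤ ∑ i ∈ S₁, α i → (∀ i ∈ S₁ \ S₀, α i ≤ u - l) → ∃ T : Finset ι, l ≤ ∑ i ∈ T, α i ∧ ∑ i ∈ T, α i ≤ u := by
  intro n
  induction n with
  | zero =>
    intro S₀ hc hu hsub hl _
    have h1 : S₀ = S₁ := Subset.antisymm hsub (sdiff_eq_empty_iff_subset.1 (card_eq_zero.1 hc))
    rw [← h1] at hl
    exact ⟨S₀, hl, hu⟩
  | succ n ih =>
    intro S₀ hc hu hsub hl hst
    by_cases h : l ≤ ∑ i ∈ S₀, α i
    · exact ⟨S₀, h, hu⟩
    · push Not at h
      obtain ⟨i, hi⟩ : (S₁ \ S₀).Nonempty := card_pos.1 (by omega)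
      obtain ⟨hi1, hi2⟩ := mem_sdiff.1 hi
      have hai := hst i hi
      have hsd : S₁ \ insert i S₀ = (S₁ \ S₀).erase i := by
        ext x
        simp only [mem_sdiff, mem_insert, mem_erase]
        tauto
      refine ih (insert i S₀) ?_ ?_ ?_ hl ?_
      · rw [hsd, card_erase_of_mem hi, hc]
        rfl
      · rw [sum_insert hi2]
        linarith
      · exact insert_subset hi1 hsub
      · intro j hj
        rw [hsd] at hj
        exact hst j (mem_of_mem_erase hj)

theorem comb {ι : Type*} [Fintype ι] [DecidableEq ι] (α : ι → ℝ) {d : ℝ} (hd : 0 < d) (hd2 : d ≤ 1 / 1000)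
    (h0 : ∀ i, 0 ≤ α i) (h1 : ∀ i, α i ≤ 1 / 5 + d) (hs : ∑ i, α i ≤ 1) :
    (∃ T : Finset ι, 2 * (∑ i, α i) - 8 / 5 + 2 * d ≤ ∑ i ∈ T, α i ∧ ∑ i ∈ T, α i ≤ 8 / 5 - (∑ i, α i) - 2 * d) ∨
      ∃ T : Finset ι, T.card = 5 ∧ ∑ i ∈ Tᶜ, α i ≤ 10 * d := by
  obtain ⟨σ, hσ⟩ : ∃ σ : ℝ, σ = ∑ i, α i := ⟨_, rfl⟩
  rw [← hσ] at hs ⊢
  rcases le_or_gt σ (1 - 2 * d) with hc | hc
  · left
    rcases le_or_gt (2 * σ - 8 / 5 + 2 * d) 0 with hL | hL
    · refine ⟨∅, ?_, ?_⟩
      · rw [sum_empty]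
        exact hL
      · rw [sum_empty]
        linarith
    · refine greedy30 α (S₁ := univ) _ ∅ rfl ?_ (empty_subset _) ?_ ?_
      · rw [sum_empty]
        linarith
      · rw [← hσ]
        linarith
      · intro i _
        have := h1 i
        linarith
  · obtain ⟨B, hB⟩ : ∃ B : Finset ι, B = univ.filter (fun i => 1 / 5 - 4 * d < α i) := ⟨_, rfl⟩
    have hBm : ∀ i, i ∈ B ↔ 1 / 5 - 4 * d < α i := by
      intro i
      rw [hB, mem_filter]
      exact ⟨fun h => h.2, fun h => ⟨mem_univ i, h⟩⟩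
    have hsplit : ∑ i ∈ B, α i + ∑ i ∈ Bᶜ, α i = σ := by
      rw [hσ]
      exact sum_add_sum_compl B α
    have red : (∃ T : Finset ι, 2 / 5 + 2 * d ≤ ∑ i ∈ T, α i ∧ ∑ i ∈ T, α i ≤ 3 / 5 - 2 * d) →
        ∃ T : Finset ι, 2 * σ - 8 / 5 + 2 * d ≤ ∑ i ∈ T, α i ∧ ∑ i ∈ T, α i ≤ 8 / 5 - σ - 2 * d := by
      rintro ⟨T, hT1, hT2⟩
      exact ⟨T, by linarith, by linarith⟩
    rcases Nat.lt_or_ge B.card 2 with hb | hb
    · left
      refine red (greedy30 α (S₁ := univ) _ B rfl ?_ (subset_univ _) ?_ ?_)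
      · rcases Nat.eq_zero_or_pos B.card with hb0 | hb0
        · rw [card_eq_zero.1 hb0, sum_empty]
          linarith
        · obtain ⟨i, hi⟩ := card_eq_one.1 (by omega : B.card = 1)
          rw [hi, sum_singleton]
          have := h1 i
          linarith
      · rw [← hσ]
        linarith
      · intro i hi
        have h2 : i ∉ B := (mem_sdiff.1 hi).2
        rw [hBm] at h2
        push Not at h2
        linarith
    · obtain ⟨i, hi, j, hj, hij⟩ := one_lt_card.1 hb
      have ai := (hBm i).1 hi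
      have aj := (hBm j).1 hj
      have bi := h1 i
      have bj := h1 j
      have hpair : ∑ k ∈ ({i, j} : Finset ι), α k = α i + α j := sum_pair hij
      have hdis : Disjoint ({i, j} : Finset ι) Bᶜ := by
        rw [disjoint_left]
        intro x hx
        rw [mem_insert, mem_singleton] at hx
        rw [mem_compl, not_not]
        rcases hx with rfl | rfl
        · exact hi
        · exact hj
      have hsum : ∑ k ∈ ({i, j} : Finset ι) ∪ Bᶜ, α k = α i + α j + ∑ k ∈ Bᶜ, α k := by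
        rw [sum_union hdis, hpair]
      rcases le_or_gt (2 / 5 + 2 * d) (∑ k ∈ ({i, j} : Finset ι) ∪ Bᶜ, α k) with hcase | hcase
      · left
        refine red (greedy30 α (S₁ := ({i, j} : Finset ι) ∪ Bᶜ) _ {i, j} rfl ?_ subset_union_left hcase ?_)
        · rw [hpair]
          linarith
        · intro k hk
          obtain ⟨hk1, hk2⟩ := mem_sdiff.1 hk
          have hk3 : k ∈ Bᶜ := (mem_union.1 hk1).resolve_left hk2
          rw [mem_compl, hBm] at hk3
          push Not at hk3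
          linarith
      · right
        rw [hsum] at hcase
        have hs10 : ∑ k ∈ Bᶜ, α k ≤ 10 * d := by linarith
        refine ⟨B, ?_, hs10⟩
        have hup : ∑ k ∈ B, α k ≤ B.card * (1 / 5 + d) := by
          have := sum_le_card_nsmul B α (1 / 5 + d) fun k _ => h1 k
          rwa [nsmul_eq_mul] at this
        have hlo : B.card * (1 / 5 - 4 * d) ≤ ∑ k ∈ B, α k := by
          have := card_nsmul_le_sum B α (1 / 5 - 4 * d) fun k hk => ((hBm k).1 hk).le
          rwa [nsmul_eq_mul] at this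
        have hnn : 0 ≤ ∑ k ∈ Bᶜ, α k := sum_nonneg fun k _ => h0 k
        have g1 : 5 ≤ B.card := by
          by_contra hcon
          have h4 : (B.card : ℝ) ≤ 4 := by exact_mod_cast (by omega : B.card ≤ 4)
          have h5 : (B.card : ℝ) * (1 / 5 + d) ≤ 4 * (1 / 5 + d) := mul_le_mul_of_nonneg_right h4 (by linarith)
          linarith
        have g2 : B.card ≤ 5 := by
          by_contra hcon
          have h4 : (6 : ℝ) ≤ B.card := by exact_mod_cast (by omega : 6 ≤ B.card)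
          have h5 : 6 * (1 / 5 - 4 * d) ≤ (B.card : ℝ) * (1 / 5 - 4 * d) := mul_le_mul_of_nonneg_right h4 (by linarith)
          linarith
        omega

end Pool.Helper19.V4
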