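import Mathlib

/-!
# Moebius exponential sums at points with a convergent of denominator near `N^{1/2}`

Definitions for the reduction of `|F_N(x)| ≤ C N^{4/5 - d}` to the large value theorem modulo `q`.
-/

namespace Pool.Helper19.V4

open ArithmeticFunction Finset

/-- `e(x) = exp(2 π i x)` -/
noncomputable def ex (x : ℝ) : ℂ := Complex.exp (((2 * Real.pi * x : ℝ) : ℂ) * Complex.I)

/-- `F_N(x) = ∑_{n ≤ N} μ(n) e(n x)` -/
noncomputable def FM (N : ℕ) (x : ℝ) : ℂ :=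
  ∑ n ∈ Icc 1 N, ((ArithmeticFunction.moebius n : ℤ) : ℂ) * ex (n * x)

/-- `∑_{n ≤ M} f(n) e(a n / b)` -/
noncomputable def SF (f : ArithmeticFunction ℂ) (M : ℕ) (a : ℤ) (b : ℕ) : ℂ :=
  ∑ n ∈ Icc 1 M, f n * ex ((a : ℝ) * n / b)

/-- `n ↦ f(n) n^{i ξ}` -/
noncomputable def tw (ξ : ℝ) (f : ArithmeticFunction ℂ) : ArithmeticFunction ℂ :=
  ⟨fun n => f n * Complex.exp (((ξ * Real.log n : ℝ) : ℂ) * Complex.I), by simp⟩

/-- `f` is bounded by `1` and supported in `[K, 2K)`. -/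
structure Pc (K : ℕ) (f : ArithmeticFunction ℂ) : Prop where
  pos : 1 ≤ K
  supp : ∀ n, f n ≠ 0 → K ≤ n ∧ n < 2 * K
  le : ∀ n, ‖f n‖ ≤ 1

/-- `f = 1` on `[K, 2K)` -/
def Sm (K : ℕ) (f : ArithmeticFunction ℂ) : Prop := ∀ n, K ≤ n → n < 2 * K → f n = 1

/-- the Moebius function up to `z` -/
noncomputable def muz (z : ℕ) : ArithmeticFunction ℂ :=
  ⟨fun n => if n ≤ z then ((ArithmeticFunction.moebius n : ℤ) : ℂ) else 0, by simp⟩

/-- `m ↦ f(g m)` if `gcd(g m, b) = g`, else `0` -/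
noncomputable def gp (b g : ℕ) (f : ArithmeticFunction ℂ) : ArithmeticFunction ℂ :=
  ⟨fun m => if Nat.gcd (g * m) b = g then f (g * m) else 0, by simp⟩

/-- the Dirichlet convolution unit shifted to `g` -/
noncomputable def dl (g : ℕ) : ArithmeticFunction ℂ :=
  ⟨fun n => if n = g ∧ n ≠ 0 then 1 else 0, by simp⟩

/-- The large value theorem modulo `q` at the critical point, for `N^κ0 ≤ q ≤ N^κ1` (helper88, helper25, helper62): polynomials of length `N^{2/5+η}` exceed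
`N^{4/5-η} / q` for at most `q³ N^{-6/5-c0}` characters modulo `q`, with `c0 > 3 η`. -/
def LVN (κ0 κ1 : ℝ) : Prop :=
  ∃ η : ℝ, 0 < η ∧ ∃ c0 : ℝ, 3 * η < c0 ∧ ∃ N0 : ℕ, ∀ N : ℕ, N0 ≤ N → ∀ (q : ℕ) [NeZero q],
    (N : ℝ) ^ κ0 ≤ q → (q : ℝ) ≤ (N : ℝ) ^ κ1 → ∀ M : ℕ, (M : ℝ) ≤ (N : ℝ) ^ ((2 : ℝ) / 5 + η) →
    ∀ b : ℕ → ℂ, (∀ n, ‖b n‖ ≤ (N : ℝ) ^ η) → ∀ W : Finset (DirichletCharacter ℂ q),
      (∀ χ ∈ W, (N : ℝ) ^ ((4 : ℝ) / 5 - η) / q ≤ ‖∑ n ∈ Icc 1 M, b n * χ (n : ZMod q)‖) →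
      (W.card : ℝ) ≤ (q : ℝ) ^ 3 * (N : ℝ) ^ (-((6 : ℝ) / 5) - c0)

lemma norm_ex (x : ℝ) : ‖ex x‖ = 1 := by
  rw [ex, Complex.norm_exp_ofReal_mul_I]

lemma ex_add (x y : ℝ) : ex (x + y) = ex x * ex y := by
  rw [ex, ex, ex, ← Complex.exp_add]
  congr 1
  push_cast
  ring

lemma ex_zero : ex 0 = 1 := by simp [ex]

lemma ex_int (n : ℤ) : ex n = 1 := by
  rw [ex, Complex.exp_eq_one_iff]
  exact ⟨n, by push_cast; ring⟩

lemma ex_add_int (x : ℝ) (n : ℤ) : ex (x + n) = ex x := by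
  rw [ex_add, ex_int, mul_one]

lemma ex_neg (x : ℝ) : ex (-x) = (starRingEnd ℂ) (ex x) := by
  rw [ex, ex, ← Complex.exp_conj, map_mul, Complex.conj_ofReal, Complex.conj_I]
  congr 1
  push_cast
  ring

lemma ex_ne_zero (x : ℝ) : ex x ≠ 0 := Complex.exp_ne_zero _

end Pool.Helper19.V4
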