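import Pool.Agent.Helper19.V4.Defs
import Pool.Agent.Helper69.FF.DivS
import Pool.Agent.Helper93.MLS

/-!
# V4-15: the fifth moment

`A(χ) = ∑_{n ≤ K} c n χ(n)`, `K ≤ N^(1/5 + δ)`, `|c n| ≤ 1`, `N^κ0 ≤ q ≤ N^κ1`. Orthogonality (`ls`): `∑_χ |∑_{n ≤ L} b n χ(n)|² ≤ φ(q) (L/q + 1) ∑ |b n|² ≤ (L + q) ∑ |b n|²`.
`A² = ∑_{n ≤ K²} (c*c)(n) χ(n)`, `A³` similarly, `|c*c| ≤ d(n) ≤ C n^ε`, `|c*c*c| ≤ d(n)²`:
`∑_χ |A|⁴ ≤ (q + K²) K² N^ε ≤ 2 q N^(2/5 + 2δ + ε)` (`κ0 > 2/5 + 2δ`), `∑_χ |A|⁶ ≤ (q + K³) K³ N^ε ≤ 2 N^(6/5 + 6δ + ε)` (`κ1 ≤ 3/5`). With the `η, c0` of `LVN`: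
* `|A|² ≤ N^(4/5 - η) / q`: `∑ |A|⁵ ≤ (N^(4/5 - η) / q)^(1/2) ∑ |A|⁴ ≤ 2 √q N^(4/5 - η/2 + 2δ + ε)`;
* `|A|² ≥ N^(4/5 + η) / q`: `∑ |A|⁵ ≤ (q / N^(4/5 + η))^(1/2) ∑ |A|⁶ ≤ 2 √q N^(4/5 - η/2 + 6δ + ε)`;
* in between: `LVN` with `M = K² ≤ N^(2/5 + 2δ)`, `b = c*c`: at most `q³ N^(-6/5 - c0)` characters, each `|A|⁵ ≤ (N^(4/5 + η)/q)^(5/2)`: `√q N^(4/5 + 5η/2 - c0) ≤ √q N^(4/5 - η/2)`.
Take `δ = min (η/100) ((κ0 - 2/5)/4)`, `ε = δ`; sum `≤ √q N^(4/5 - δ)` for large `N`.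
-/

namespace Pool.Helper19.V4

open ArithmeticFunction Finset

private lemma card_res19 {q : ℕ} [NeZero q] (L : ℕ) (x : ZMod q) :
    (((Icc 1 L).filter (fun n : ℕ => (n : ZMod q) = x)).card : ℝ) ≤ (L : ℝ) / q + 1 := by
  have hq0 : 0 < q := Nat.pos_of_ne_zero (NeZero.ne q)
  have hq1 : (0 : ℝ) < q := by exact_mod_cast hq0
  have h1 : (Icc 1 L).filter (fun n : ℕ => (n : ZMod q) = x) = (Ioc 0 L).filter (fun n : ℕ => n ≡ x.val [MOD q]) := by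
    ext n
    simp only [Finset.mem_filter, Finset.mem_Icc, Finset.mem_Ioc]
    constructor
    · rintro ⟨⟨h1, h2⟩, h3⟩
      refine ⟨⟨h1, h2⟩, ?_⟩
      rw [← ZMod.natCast_eq_natCast_iff, h3, ZMod.natCast_zmod_val]
    · rintro ⟨⟨h1, h2⟩, h3⟩
      refine ⟨⟨h1, h2⟩, ?_⟩
      rw [← ZMod.natCast_eq_natCast_iff, ZMod.natCast_zmod_val] at h3
      exact h3
  rw [h1]
  have h2 := Nat.Ioc_filter_modEq_card 0 L hq0 x.val
  have h3 : ((((Ioc 0 L).filter (fun n : ℕ => n ≡ x.val [MOD q])).card : ℤ) : ℝ) ≤ (L : ℝ) / q + 1 := by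
    rw [h2]
    push_cast
    apply max_le
    · have e1 : ((⌊((L : ℚ) - (x.val : ℚ)) / (q : ℚ)⌋ : ℤ) : ℝ) ≤ ((L : ℝ) - x.val) / q := by
        have := Int.floor_le (((L : ℚ) - (x.val : ℚ)) / (q : ℚ))
        have h' : (((⌊((L : ℚ) - (x.val : ℚ)) / (q : ℚ)⌋ : ℤ) : ℚ) : ℝ) ≤ ((((L : ℚ) - (x.val : ℚ)) / (q : ℚ) : ℚ) : ℝ) := by
          exact_mod_cast this
        push_cast at h'
        exact h'
      have e2 : ((0 : ℝ) - x.val) / q < ((⌊((0 : ℚ) - (x.val : ℚ)) / (q : ℚ)⌋ : ℤ) : ℝ) + 1 := by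
        have := Int.lt_floor_add_one (((0 : ℚ) - (x.val : ℚ)) / (q : ℚ))
        have h' : ((((0 : ℚ) - (x.val : ℚ)) / (q : ℚ) : ℚ) : ℝ) < (((⌊((0 : ℚ) - (x.val : ℚ)) / (q : ℚ)⌋ : ℤ) : ℚ) : ℝ) + 1 := by
          exact_mod_cast this
        push_cast at h'
        exact h'
      have e3 : ((L : ℝ) - x.val) / q = (L : ℝ) / q + ((0 : ℝ) - x.val) / q := by ring
      rw [e3] at e1
      linarith
    · positivity
  exact_mod_cast h3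

theorem ls {q : ℕ} [NeZero q] (L : ℕ) (b : ℕ → ℂ) :
    ∑ χ : DirichletCharacter ℂ q, ‖∑ n ∈ Icc 1 L, b n * χ (n : ZMod q)‖ ^ 2 ≤ ((L : ℝ) + q) * ∑ n ∈ Icc 1 L, ‖b n‖ ^ 2 := by
  classical
  have hq0 : 0 < q := Nat.pos_of_ne_zero (NeZero.ne q)
  have hq1 : (0 : ℝ) < q := by exact_mod_cast hq0
  set f : ZMod q → ℂ := fun x => ∑ n ∈ (Icc 1 L).filter (fun n : ℕ => (n : ZMod q) = x), b n with hf
  have h1 : ∀ χ : DirichletCharacter ℂ q, ∑ n ∈ Icc 1 L, b n * χ (n : ZMod q) = ∑ x : ZMod q, χ x * f x := by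
    intro χ
    have e1 : ∑ n ∈ Icc 1 L, b n * χ (n : ZMod q) =
        ∑ x : ZMod q, ∑ n ∈ (Icc 1 L).filter (fun n : ℕ => (n : ZMod q) = x), b n * χ (n : ZMod q) :=
      (Finset.sum_fiberwise _ _ _).symm
    rw [e1]
    refine Finset.sum_congr rfl fun x _ => ?_
    rw [hf]
    simp only
    rw [Finset.mul_sum]
    refine Finset.sum_congr rfl fun n hn => ?_
    rw [(Finset.mem_filter.1 hn).2, mul_comm]
  have h2 : ∑ χ : DirichletCharacter ℂ q, ‖∑ n ∈ Icc 1 L, b n * χ (n : ZMod q)‖ ^ 2 =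
      ∑ χ : DirichletCharacter ℂ q, ‖∑ x : ZMod q, χ⁻¹ x * f x‖ ^ 2 := by
    rw [← Equiv.sum_comp (Equiv.inv (DirichletCharacter ℂ q))]
    refine Finset.sum_congr rfl fun χ _ => ?_
    rw [h1]
    rfl
  rw [h2, Pool.Agent.Helper93.MLS.char_orth]
  have h3 : ∀ x : ZMod q, (if IsUnit x then ‖f x‖ ^ 2 else 0) ≤
      ((L : ℝ) / q + 1) * ∑ n ∈ (Icc 1 L).filter (fun n : ℕ => (n : ZMod q) = x), ‖b n‖ ^ 2 := by
    intro x
    have hs : 0 ≤ ∑ n ∈ (Icc 1 L).filter (fun n : ℕ => (n : ZMod q) = x), ‖b n‖ ^ 2 :=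
      Finset.sum_nonneg fun _ _ => by positivity
    have e1 : ‖f x‖ ^ 2 ≤ ((L : ℝ) / q + 1) * ∑ n ∈ (Icc 1 L).filter (fun n : ℕ => (n : ZMod q) = x), ‖b n‖ ^ 2 := by
      have e2 : ‖f x‖ ≤ ∑ n ∈ (Icc 1 L).filter (fun n : ℕ => (n : ZMod q) = x), ‖b n‖ := norm_sum_le _ _
      have e3 : ‖f x‖ ^ 2 ≤ (∑ n ∈ (Icc 1 L).filter (fun n : ℕ => (n : ZMod q) = x), ‖b n‖) ^ 2 :=
        pow_le_pow_left₀ (norm_nonneg _) e2 2
      refine e3.trans ((sq_sum_le_card_mul_sum_sq).trans ?_)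
      exact mul_le_mul_of_nonneg_right (card_res19 L x) hs
    split_ifs with hx
    · exact e1
    · positivity
  have h4 : ∑ x : ZMod q, (if IsUnit x then ‖f x‖ ^ 2 else 0) ≤ ((L : ℝ) / q + 1) * ∑ n ∈ Icc 1 L, ‖b n‖ ^ 2 := by
    refine (Finset.sum_le_sum fun x _ => h3 x).trans ?_
    rw [← Finset.mul_sum]
    apply le_of_eq
    congr 1
    exact Finset.sum_fiberwise _ _ _
  have h5 : (q.totient : ℝ) ≤ q := by exact_mod_cast Nat.totient_le q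
  have h6 : 0 ≤ ∑ n ∈ Icc 1 L, ‖b n‖ ^ 2 := Finset.sum_nonneg fun _ _ => by positivity
  calc (q.totient : ℝ) * ∑ x : ZMod q, (if IsUnit x then ‖f x‖ ^ 2 else 0)
      ≤ (q.totient : ℝ) * (((L : ℝ) / q + 1) * ∑ n ∈ Icc 1 L, ‖b n‖ ^ 2) :=
        mul_le_mul_of_nonneg_left h4 (by positivity)
    _ ≤ (q : ℝ) * (((L : ℝ) / q + 1) * ∑ n ∈ Icc 1 L, ‖b n‖ ^ 2) :=
        mul_le_mul_of_nonneg_right h5 (by positivity)
    _ = ((L : ℝ) + q) * ∑ n ∈ Icc 1 L, ‖b n‖ ^ 2 := by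
        field_simp

/-- the convolution of `f` on `[1, A]` and `g` on `[1, B]` -/
private noncomputable def cv19 (A B : ℕ) (f g : ℕ → ℂ) (n : ℕ) : ℂ :=
  ∑ p ∈ (Icc 1 A ×ˢ Icc 1 B).filter (fun p => p.1 * p.2 = n), f p.1 * g p.2

private lemma cv19_mul {q : ℕ} [NeZero q] (A B : ℕ) (f g : ℕ → ℂ) (χ : DirichletCharacter ℂ q) :
    (∑ n ∈ Icc 1 A, f n * χ (n : ZMod q)) * (∑ n ∈ Icc 1 B, g n * χ (n : ZMod q)) =
      ∑ n ∈ Icc 1 (A * B), cv19 A B f g n * χ (n : ZMod q) := by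
  rw [Finset.sum_mul_sum, ← Finset.sum_product']
  have hm : ∀ p ∈ Icc 1 A ×ˢ Icc 1 B, p.1 * p.2 ∈ Icc 1 (A * B) := by
    intro p hp
    rw [Finset.mem_product, Finset.mem_Icc, Finset.mem_Icc] at hp
    rw [Finset.mem_Icc]
    exact ⟨Nat.mul_pos hp.1.1 hp.2.1, Nat.mul_le_mul hp.1.2 hp.2.2⟩
  rw [← Finset.sum_fiberwise_of_maps_to hm]
  refine Finset.sum_congr rfl fun n _ => ?_
  unfold cv19
  rw [Finset.sum_mul]
  refine Finset.sum_congr rfl fun p hp => ?_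
  have h1 : p.1 * p.2 = n := (Finset.mem_filter.1 hp).2
  rw [← h1, Nat.cast_mul, map_mul]
  ring

private lemma cv19_le {A B : ℕ} {f g : ℕ → ℂ} {F G : ℝ} (hF : 0 ≤ F) (hG : 0 ≤ G) (hf : ∀ n, ‖f n‖ ≤ F) (hg : ∀ n, ‖g n‖ ≤ G)
    (n : ℕ) : ‖cv19 A B f g n‖ ≤ (n.divisors.card : ℝ) * (F * G) := by
  unfold cv19
  refine (norm_sum_le _ _).trans ?_
  have h1 : ∀ p ∈ (Icc 1 A ×ˢ Icc 1 B).filter (fun p => p.1 * p.2 = n), ‖f p.1 * g p.2‖ ≤ F * G := by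
    intro p _
    rw [norm_mul]
    exact mul_le_mul (hf _) (hg _) (norm_nonneg _) hF
  refine (Finset.sum_le_card_nsmul _ _ _ h1).trans ?_
  rw [nsmul_eq_mul]
  refine mul_le_mul_of_nonneg_right ?_ (by positivity)
  have h2 : ((Icc 1 A ×ˢ Icc 1 B).filter (fun p => p.1 * p.2 = n)).card ≤ n.divisors.card := by
    apply Finset.card_le_card_of_injOn (fun p => p.1)
    · intro p hp
      have hp' := Finset.mem_filter.1 (Finset.mem_coe.1 hp)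
      rw [Finset.mem_product, Finset.mem_Icc, Finset.mem_Icc] at hp'
      rw [Finset.mem_coe, Nat.mem_divisors]
      refine ⟨⟨p.2, hp'.2.symm⟩, ?_⟩
      rw [← hp'.2]
      exact (Nat.mul_pos hp'.1.1.1 hp'.1.2.1).ne'
    · intro p hp r hr he
      have hp' := Finset.mem_filter.1 (Finset.mem_coe.1 hp)
      have hr' := Finset.mem_filter.1 (Finset.mem_coe.1 hr)
      rw [Finset.mem_product, Finset.mem_Icc, Finset.mem_Icc] at hp' hr'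
      have he' : p.1 = r.1 := he
      have e1 : p.1 * p.2 = p.1 * r.2 := by rw [hp'.2, he', hr'.2]
      have e2 : p.2 = r.2 := Nat.eq_of_mul_eq_mul_left hp'.1.1.1 e1
      exact Prod.ext he' e2
  exact_mod_cast h2

private lemma cv19_zero {A B : ℕ} {f g : ℕ → ℂ} {n : ℕ} (hn : n = 0 ∨ A * B < n) : cv19 A B f g n = 0 := by
  unfold cv19
  rw [Finset.sum_eq_zero]
  intro p hp
  exfalso
  have hp' := Finset.mem_filter.1 hp
  rw [Finset.mem_product, Finset.mem_Icc, Finset.mem_Icc] at hp'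
  have h1 : 0 < p.1 * p.2 := Nat.mul_pos hp'.1.1.1 hp'.1.2.1
  have h2 : p.1 * p.2 ≤ A * B := Nat.mul_le_mul hp'.1.1.2 hp'.1.2.2
  rw [hp'.2] at h1 h2
  rcases hn with h | h <;> omega

/-- convolutions are small -/
private lemma cv19_small {ε : ℝ} (hε : 0 < ε) : ∃ N0 : ℕ, ∀ N : ℕ, N0 ≤ N → ∀ A B : ℕ, A * B ≤ N →
    ∀ (f g : ℕ → ℂ) (F G : ℝ), 0 ≤ F → 0 ≤ G → (∀ n, ‖f n‖ ≤ F) → (∀ n, ‖g n‖ ≤ G) →
    ∀ n, ‖cv19 A B f g n‖ ≤ (N : ℝ) ^ ε * (F * G) := by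
  obtain ⟨C, hC, hdiv⟩ := Pool.Agent.Helper69.FF.div_bound (ε := ε / 2) (by positivity)
  have ht : Filter.Tendsto (fun N : ℕ => ((N : ℝ)) ^ (ε / 2)) Filter.atTop Filter.atTop :=
    (tendsto_rpow_atTop (by positivity)).comp tendsto_natCast_atTop_atTop
  obtain ⟨N0, hN0⟩ := Filter.eventually_atTop.1 (ht.eventually_ge_atTop C)
  refine ⟨max N0 1, fun N hN A B hAB f g F G hF hG hf hg n => ?_⟩
  have hN0' : N0 ≤ N := (le_max_left _ _).trans hN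
  have hN1 : 1 ≤ N := (le_max_right _ _).trans hN
  have hNr : (1 : ℝ) ≤ N := by exact_mod_cast hN1
  have hp : (N : ℝ) ^ ε = (N : ℝ) ^ (ε / 2) * (N : ℝ) ^ (ε / 2) := by
    rw [← Real.rpow_add (by linarith)]
    congr 1
    ring
  by_cases hz : n = 0 ∨ A * B < n
  · rw [cv19_zero hz, norm_zero]
    positivity
  · push Not at hz
    refine (cv19_le hF hG hf hg n).trans (mul_le_mul_of_nonneg_right ?_ (by positivity))
    have h1 := hdiv n hz.1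
    have h2 : (n : ℝ) ≤ N := by exact_mod_cast hz.2.trans hAB
    have h3 : (n : ℝ) ^ (ε / 2) ≤ (N : ℝ) ^ (ε / 2) := Real.rpow_le_rpow (by positivity) h2 (by positivity)
    have h4 : C ≤ (N : ℝ) ^ (ε / 2) := hN0 N hN0'
    rw [hp]
    exact h1.trans (mul_le_mul h4 h3 (by positivity) (by positivity))

/-- splitting of the fifth moment -/
private lemma split19 {ι : Type*} (s : Finset ι) (A : ι → ℝ) (hA : ∀ i ∈ s, 0 ≤ A i) {t1 t2 : ℝ} (h1 : 0 < t1) (h2 : 0 < t2) :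
    ∑ i ∈ s, A i ^ 5 ≤ t1 * ∑ i ∈ s, A i ^ 4 + t2⁻¹ * ∑ i ∈ s, A i ^ 6 + ((s.filter (fun i => t1 ≤ A i)).card : ℝ) * t2 ^ 5 := by
  have h3 : ((s.filter (fun i => t1 ≤ A i)).card : ℝ) * t2 ^ 5 = ∑ i ∈ s, if t1 ≤ A i then t2 ^ 5 else 0 := by
    rw [← Finset.sum_filter, Finset.sum_const, nsmul_eq_mul]
  rw [h3, Finset.mul_sum, Finset.mul_sum, ← Finset.sum_add_distrib, ← Finset.sum_add_distrib]
  refine Finset.sum_le_sum fun i hi => ?_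
  have h4 := hA i hi
  by_cases h5 : t1 ≤ A i
  · rw [if_pos h5]
    by_cases h6 : A i ≤ t2
    · have e1 : A i ^ 5 ≤ t2 ^ 5 := pow_le_pow_left₀ h4 h6 5
      have e2 : 0 ≤ t1 * A i ^ 4 := by positivity
      have e3 : 0 ≤ t2⁻¹ * A i ^ 6 := by positivity
      linarith
    · push Not at h6
      have e1 : A i ^ 5 ≤ t2⁻¹ * A i ^ 6 := by
        have : t2⁻¹ * A i ^ 6 = (t2⁻¹ * A i) * A i ^ 5 := by ring
        rw [this]
        have e4 : 1 ≤ t2⁻¹ * A i := by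
          rw [inv_mul_eq_div, le_div_iff₀ h2]
          linarith
        nlinarith [pow_nonneg h4 5]
      have e2 : 0 ≤ t1 * A i ^ 4 := by positivity
      have e3 : 0 ≤ t2 ^ 5 := by positivity
      linarith
  · rw [if_neg h5]
    push Not at h5
    have e1 : A i ^ 5 ≤ t1 * A i ^ 4 := by
      have : A i ^ 5 = A i * A i ^ 4 := by ring
      rw [this]
      exact mul_le_mul_of_nonneg_right h5.le (by positivity)
    have e3 : 0 ≤ t2⁻¹ * A i ^ 6 := by positivity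
    linarith

theorem fifth_moment {κ0 κ1 : ℝ} (hκ0 : 2 / 5 < κ0) (hκ1 : κ1 ≤ 3 / 5) (h : LVN κ0 κ1) :
    ∃ δ : ℝ, 0 < δ ∧ ∃ N0 : ℕ, ∀ N : ℕ, N0 ≤ N → ∀ (q : ℕ) [NeZero q], (N : ℝ) ^ κ0 ≤ q → (q : ℝ) ≤ (N : ℝ) ^ κ1 →
      ∀ K : ℕ, (K : ℝ) ≤ (N : ℝ) ^ ((1 : ℝ) / 5 + δ) → ∀ c : ℕ → ℂ, (∀ n, ‖c n‖ ≤ 1) →
        ∑ χ : DirichletCharacter ℂ q, ‖∑ n ∈ Icc 1 K, c n * χ (n : ZMod q)‖ ^ 5 ≤ Real.sqrt q * (N : ℝ) ^ ((4 : ℝ) / 5 - δ) := by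
  classical
  obtain ⟨η, hη, c0, hc0, N1, hLV⟩ := h
  -- the parameters
  set δ : ℝ := min (min (η / 100) ((κ0 - 2 / 5) / 4)) (1 / 100) with hδ
  have hδ0 : 0 < δ := by
    rw [hδ]
    refine lt_min (lt_min (by positivity) (by linarith)) (by norm_num)
  have hδ1 : δ ≤ η / 100 := (min_le_left _ _).trans (min_le_left _ _)
  have hδ2 : δ ≤ (κ0 - 2 / 5) / 4 := (min_le_left _ _).trans (min_le_right _ _)
  have hδ3 : δ ≤ 1 / 100 := min_le_right _ _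
  obtain ⟨N2, hcv⟩ := cv19_small (ε := δ / 2) (by positivity)
  have ht : Filter.Tendsto (fun N : ℕ => ((N : ℝ)) ^ (η / 4 - δ)) Filter.atTop Filter.atTop :=
    (tendsto_rpow_atTop (by linarith)).comp tendsto_natCast_atTop_atTop
  obtain ⟨N3, hN3⟩ := Filter.eventually_atTop.1 (ht.eventually_ge_atTop 5)
  refine ⟨δ, hδ0, max (max N1 N2) (max N3 1), fun N hN q _ hq0 hq1 K hK c hc => ?_⟩
  have hN1 : N1 ≤ N := ((le_max_left _ _).trans (le_max_left _ _)).trans hN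
  have hN2 : N2 ≤ N := ((le_max_right _ _).trans (le_max_left _ _)).trans hN
  have hN3' : N3 ≤ N := ((le_max_left _ _).trans (le_max_right _ _)).trans hN
  have hN4 : 1 ≤ N := ((le_max_right _ _).trans (le_max_right _ _)).trans hN
  have hNr : (1 : ℝ) ≤ N := by exact_mod_cast hN4
  have hNp : (0 : ℝ) < N := by linarith
  have hqp : (0 : ℝ) < q := by exact_mod_cast Nat.pos_of_ne_zero (NeZero.ne q)
  have h5 : (5 : ℝ) ≤ (N : ℝ) ^ (η / 4 - δ) := hN3 N hN3'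
  have hmono : ∀ {x y : ℝ}, x ≤ y → (N : ℝ) ^ x ≤ (N : ℝ) ^ y := fun hxy => Real.rpow_le_rpow_of_exponent_le hNr hxy
  -- the powers of `K`
  have hK2 : (((K * K : ℕ)) : ℝ) ≤ (N : ℝ) ^ ((2 : ℝ) / 5 + 2 * δ) := by
    push_cast
    have e1 : (N : ℝ) ^ ((2 : ℝ) / 5 + 2 * δ) = (N : ℝ) ^ ((1 : ℝ) / 5 + δ) * (N : ℝ) ^ ((1 : ℝ) / 5 + δ) := by
      rw [← Real.rpow_add hNp]
      congr 1
      ring
    rw [e1]
    exact mul_le_mul hK hK (by positivity) (by positivity)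
  have hK3 : (((K * K * K : ℕ)) : ℝ) ≤ (N : ℝ) ^ ((3 : ℝ) / 5 + 3 * δ) := by
    have e1 : (N : ℝ) ^ ((3 : ℝ) / 5 + 3 * δ) = (N : ℝ) ^ ((2 : ℝ) / 5 + 2 * δ) * (N : ℝ) ^ ((1 : ℝ) / 5 + δ) := by
      rw [← Real.rpow_add hNp]
      congr 1
      ring
    rw [e1]
    have e2 : (((K * K * K : ℕ)) : ℝ) = (((K * K : ℕ)) : ℝ) * K := by push_cast; ring
    rw [e2]
    exact mul_le_mul hK2 hK (by positivity) (by positivity)
  have hK3N : K * K * K ≤ N := by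
    have : (((K * K * K : ℕ)) : ℝ) ≤ N := by
      refine hK3.trans ?_
      calc (N : ℝ) ^ ((3 : ℝ) / 5 + 3 * δ) ≤ (N : ℝ) ^ (1 : ℝ) := hmono (by linarith)
        _ = N := Real.rpow_one _
    exact_mod_cast this
  have hK2N : K * K ≤ N := by
    have : (((K * K : ℕ)) : ℝ) ≤ N := by
      refine hK2.trans ?_
      calc (N : ℝ) ^ ((2 : ℝ) / 5 + 2 * δ) ≤ (N : ℝ) ^ (1 : ℝ) := hmono (by linarith)
        _ = N := Real.rpow_one _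
    exact_mod_cast this
  -- the convolutions
  set b2 : ℕ → ℂ := cv19 K K c c with hb2
  set b3 : ℕ → ℂ := cv19 (K * K) K b2 c with hb3
  have hb2le : ∀ n, ‖b2 n‖ ≤ (N : ℝ) ^ (δ / 2) := by
    intro n
    have := hcv N hN2 K K hK2N c c 1 1 zero_le_one zero_le_one hc hc n
    simpa using this
  have hb3le : ∀ n, ‖b3 n‖ ≤ (N : ℝ) ^ δ := by
    intro n
    have := hcv N hN2 (K * K) K hK3N b2 c ((N : ℝ) ^ (δ / 2)) 1 (by positivity) zero_le_one hb2le hc n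
    rw [mul_one, ← Real.rpow_add hNp] at this
    have e1 : δ / 2 + δ / 2 = δ := by ring
    rwa [e1] at this
  set A : DirichletCharacter ℂ q → ℂ := fun χ => ∑ n ∈ Icc 1 K, c n * χ (n : ZMod q) with hAdef
  have hA2 : ∀ χ, A χ ^ 2 = ∑ n ∈ Icc 1 (K * K), b2 n * χ (n : ZMod q) := by
    intro χ
    rw [hb2, ← cv19_mul, sq]
  have hA3 : ∀ χ, A χ ^ 3 = ∑ n ∈ Icc 1 (K * K * K), b3 n * χ (n : ZMod q) := by
    intro χ
    rw [hb3, ← cv19_mul, ← hA2]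
    ring
  -- fourth moment
  have hS4 : ∑ χ : DirichletCharacter ℂ q, ‖A χ‖ ^ 4 ≤ 2 * q * (N : ℝ) ^ ((2 : ℝ) / 5 + 3 * δ) := by
    have e1 : ∀ χ : DirichletCharacter ℂ q, ‖A χ‖ ^ 4 = ‖∑ n ∈ Icc 1 (K * K), b2 n * χ (n : ZMod q)‖ ^ 2 := by
      intro χ
      rw [← hA2, norm_pow]
      ring
    simp only [e1]
    refine (ls (K * K) b2).trans ?_
    have e2 : ∑ n ∈ Icc 1 (K * K), ‖b2 n‖ ^ 2 ≤ (N : ℝ) ^ ((2 : ℝ) / 5 + 3 * δ) := by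
      have e3 : ∀ n ∈ Icc 1 (K * K), ‖b2 n‖ ^ 2 ≤ ((N : ℝ) ^ (δ / 2)) ^ 2 := fun n _ =>
        pow_le_pow_left₀ (norm_nonneg _) (hb2le n) 2
      refine (Finset.sum_le_card_nsmul _ _ _ e3).trans ?_
      rw [nsmul_eq_mul, Nat.card_Icc, Nat.add_sub_cancel, ← Real.rpow_natCast, ← Real.rpow_mul hNp.le]
      have e4 : (N : ℝ) ^ ((2 : ℝ) / 5 + 3 * δ) = (N : ℝ) ^ ((2 : ℝ) / 5 + 2 * δ) * (N : ℝ) ^ δ := by
        rw [← Real.rpow_add hNp]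
        congr 1
        ring
      rw [e4]
      have e5 : δ / 2 * ((2 : ℕ) : ℝ) = δ := by push_cast; ring
      rw [e5]
      exact mul_le_mul_of_nonneg_right hK2 (by positivity)
    have e6 : (((K * K : ℕ)) : ℝ) + q ≤ 2 * q := by
      have : (((K * K : ℕ)) : ℝ) ≤ q := hK2.trans ((hmono (by linarith)).trans hq0)
      linarith
    exact mul_le_mul e6 e2 (Finset.sum_nonneg fun _ _ => by positivity) (by positivity)
  -- sixth moment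
  have hS6 : ∑ χ : DirichletCharacter ℂ q, ‖A χ‖ ^ 6 ≤ 2 * (N : ℝ) ^ ((6 : ℝ) / 5 + 8 * δ) := by
    have e1 : ∀ χ : DirichletCharacter ℂ q, ‖A χ‖ ^ 6 = ‖∑ n ∈ Icc 1 (K * K * K), b3 n * χ (n : ZMod q)‖ ^ 2 := by
      intro χ
      rw [← hA3, norm_pow]
      ring
    simp only [e1]
    refine (ls (K * K * K) b3).trans ?_
    have e2 : ∑ n ∈ Icc 1 (K * K * K), ‖b3 n‖ ^ 2 ≤ (N : ℝ) ^ ((3 : ℝ) / 5 + 5 * δ) := by
      have e3 : ∀ n ∈ Icc 1 (K * K * K), ‖b3 n‖ ^ 2 ≤ ((N : ℝ) ^ δ) ^ 2 := fun n _ =>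
        pow_le_pow_left₀ (norm_nonneg _) (hb3le n) 2
      refine (Finset.sum_le_card_nsmul _ _ _ e3).trans ?_
      rw [nsmul_eq_mul, Nat.card_Icc, Nat.add_sub_cancel, ← Real.rpow_natCast, ← Real.rpow_mul hNp.le]
      have e4 : (N : ℝ) ^ ((3 : ℝ) / 5 + 5 * δ) = (N : ℝ) ^ ((3 : ℝ) / 5 + 3 * δ) * (N : ℝ) ^ (δ * ((2 : ℕ) : ℝ)) := by
        rw [← Real.rpow_add hNp]
        congr 1
        push_cast
        ring
      rw [e4]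
      exact mul_le_mul_of_nonneg_right hK3 (by positivity)
    have e6 : (((K * K * K : ℕ)) : ℝ) + q ≤ 2 * (N : ℝ) ^ ((3 : ℝ) / 5 + 3 * δ) := by
      have : (q : ℝ) ≤ (N : ℝ) ^ ((3 : ℝ) / 5 + 3 * δ) := hq1.trans (hmono (by linarith))
      linarith
    have e7 : 2 * (N : ℝ) ^ ((6 : ℝ) / 5 + 8 * δ) = (2 * (N : ℝ) ^ ((3 : ℝ) / 5 + 3 * δ)) * (N : ℝ) ^ ((3 : ℝ) / 5 + 5 * δ) := by
      rw [mul_assoc, ← Real.rpow_add hNp]
      congr 2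
      ring
    rw [e7]
    exact mul_le_mul e6 e2 (Finset.sum_nonneg fun _ _ => by positivity) (by positivity)
  -- thresholds
  set s : ℝ := Real.sqrt q with hs
  have hsp : 0 < s := Real.sqrt_pos.2 hqp
  have hss : s * s = q := Real.mul_self_sqrt hqp.le
  set t1 : ℝ := (N : ℝ) ^ ((2 : ℝ) / 5 - η / 2) / s with ht1
  set t2 : ℝ := (N : ℝ) ^ ((2 : ℝ) / 5 + η / 2) / s with ht2
  have ht1p : 0 < t1 := by positivity
  have ht2p : 0 < t2 := by positivity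
  refine (split19 Finset.univ (fun χ => ‖A χ‖) (fun _ _ => norm_nonneg _) ht1p ht2p).trans ?_
  -- the count
  have hcount : ((Finset.univ.filter (fun χ : DirichletCharacter ℂ q => t1 ≤ ‖A χ‖)).card : ℝ) ≤
      (q : ℝ) ^ 3 * (N : ℝ) ^ (-((6 : ℝ) / 5) - c0) := by
    refine hLV N hN1 q hq0 hq1 (K * K) (hK2.trans (hmono (by linarith))) b2
      (fun n => (hb2le n).trans (hmono (by linarith))) _ ?_
    intro χ hχ
    have e1 : t1 ≤ ‖A χ‖ := (Finset.mem_filter.1 hχ).2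
    rw [← hA2, norm_pow]
    have e2 : (N : ℝ) ^ ((4 : ℝ) / 5 - η) / q = t1 ^ 2 := by
      rw [ht1, div_pow, ← Real.rpow_natCast, ← Real.rpow_mul hNp.le, sq, hss]
      congr 2
      push_cast
      ring
    rw [e2]
    exact pow_le_pow_left₀ ht1p.le e1 2
  -- the three parts
  have hP1 : t1 * ∑ χ : DirichletCharacter ℂ q, ‖A χ‖ ^ 4 ≤ 2 * (s * (N : ℝ) ^ ((4 : ℝ) / 5 - η / 4)) := by
    refine (mul_le_mul_of_nonneg_left hS4 ht1p.le).trans ?_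
    have e1 : t1 * (2 * q * (N : ℝ) ^ ((2 : ℝ) / 5 + 3 * δ)) = 2 * (s * ((N : ℝ) ^ ((2 : ℝ) / 5 - η / 2) * (N : ℝ) ^ ((2 : ℝ) / 5 + 3 * δ))) := by
      rw [ht1, ← hss]
      field_simp
    rw [e1, ← Real.rpow_add hNp]
    have e2 : (N : ℝ) ^ ((2 : ℝ) / 5 - η / 2 + ((2 : ℝ) / 5 + 3 * δ)) ≤ (N : ℝ) ^ ((4 : ℝ) / 5 - η / 4) := hmono (by linarith)
    have e3 := mul_le_mul_of_nonneg_left e2 hsp.le
    linarith
  have hP2 : t2⁻¹ * ∑ χ : DirichletCharacter ℂ q, ‖A χ‖ ^ 6 ≤ 2 * (s * (N : ℝ) ^ ((4 : ℝ) / 5 - η / 4)) := by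
    refine (mul_le_mul_of_nonneg_left hS6 (inv_nonneg.2 ht2p.le)).trans ?_
    have e1 : t2⁻¹ * (2 * (N : ℝ) ^ ((6 : ℝ) / 5 + 8 * δ)) = 2 * (s * ((N : ℝ) ^ (-((2 : ℝ) / 5 + η / 2)) * (N : ℝ) ^ ((6 : ℝ) / 5 + 8 * δ))) := by
      rw [ht2, inv_div, Real.rpow_neg hNp.le]
      field_simp
    rw [e1, ← Real.rpow_add hNp]
    have e2 : (N : ℝ) ^ (-((2 : ℝ) / 5 + η / 2) + ((6 : ℝ) / 5 + 8 * δ)) ≤ (N : ℝ) ^ ((4 : ℝ) / 5 - η / 4) := hmono (by linarith)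
    have e3 := mul_le_mul_of_nonneg_left e2 hsp.le
    linarith
  have hP3 : ((Finset.univ.filter (fun χ : DirichletCharacter ℂ q => t1 ≤ ‖A χ‖)).card : ℝ) * t2 ^ 5 ≤
      s * (N : ℝ) ^ ((4 : ℝ) / 5 - η / 4) := by
    refine (mul_le_mul_of_nonneg_right hcount (by positivity)).trans ?_
    have e1 : (q : ℝ) ^ 3 * (N : ℝ) ^ (-((6 : ℝ) / 5) - c0) * t2 ^ 5 =
        s * ((N : ℝ) ^ (-((6 : ℝ) / 5) - c0) * (N : ℝ) ^ (((2 : ℝ) / 5 + η / 2) * ((5 : ℕ) : ℝ))) := by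
      rw [ht2, div_pow, Real.rpow_mul hNp.le, Real.rpow_natCast, ← hss]
      field_simp
    rw [e1, ← Real.rpow_add hNp]
    refine mul_le_mul_of_nonneg_left (hmono ?_) hsp.le
    push_cast
    linarith
  have hfin : 5 * (s * (N : ℝ) ^ ((4 : ℝ) / 5 - η / 4)) ≤ s * (N : ℝ) ^ ((4 : ℝ) / 5 - δ) := by
    have e1 : (N : ℝ) ^ ((4 : ℝ) / 5 - δ) = (N : ℝ) ^ (η / 4 - δ) * (N : ℝ) ^ ((4 : ℝ) / 5 - η / 4) := by
      rw [← Real.rpow_add hNp]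
      congr 1
      ring
    rw [e1]
    have e2 : 0 ≤ s * (N : ℝ) ^ ((4 : ℝ) / 5 - η / 4) := by positivity
    calc 5 * (s * (N : ℝ) ^ ((4 : ℝ) / 5 - η / 4)) ≤ (N : ℝ) ^ (η / 4 - δ) * (s * (N : ℝ) ^ ((4 : ℝ) / 5 - η / 4)) :=
          mul_le_mul_of_nonneg_right h5 e2
      _ = _ := by ring
  linarith

end Pool.Helper19.V4
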