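import Pool.Agent.Helper19.V4.Prod
import Pool.Agent.Helper19.V4.Sep
import Pool.Agent.Helper69.FF.DivS

/-!
# V4-11: five variables and a short rest

`∏ i, f i = H * F`, `F = ∏_T f i`, `H = ∏_{Tᶜ} f i`, `|H r| ≤ d(r)^4 ≤ C N^ε`, `H` supported in `r ≤ 2^4 R`, `R = ∏_{Tᶜ} K` (at most 4 factors), `F` supported in `n ≤ 32 P`, `P = ∏_T K`.
`SF (H * F) M a b = ∑_{r ≤ 16 R} H(r) ∑_{n ≤ M/r} F(n) e(a r n / b)`. For every `r ≥ 1`: `a r / b = a' / b'` in lowest terms, `b' = b / gcd(r, b)`, `b ≤ r b' ≤ 16 R b'`; `sep_bound` with `X = max 2 (32 P)`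
removes `n ≤ M/r` and puts `tw ξ` on `F`, `tw ξ F = ∏ tw ξ (f i)` (`Pc` is kept: `tw_pc`). `∏_{i ∈ T} g i = ∏_{j : Fin 5} g (T.orderEmbOfFin hT j)`. So the sum is
`≤ 16 R · C N^ε · C log(32 N) · B` (if `P > N` it is `0`, `box_zero`; so `X ≤ 32 N`).
-/

namespace Pool.Helper19.V4

open ArithmeticFunction Finset

private theorem expand74 (H F : ArithmeticFunction ℂ) (M : ℕ) (a : ℤ) (b : ℕ) :
    SF (H * F) M a b = ∑ r ∈ Icc 1 M, H r * ∑ m ∈ Icc 1 (M / r), F m * ex ((a : ℝ) * ((r : ℝ) * m) / b) := by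
  unfold SF
  simp only [ArithmeticFunction.mul_apply, Finset.sum_mul, Finset.mul_sum]
  rw [Finset.sum_sigma', Finset.sum_sigma']
  refine Finset.sum_nbij' (fun p => ⟨p.2.1, p.2.2⟩) (fun p => ⟨p.1 * p.2, (p.1, p.2)⟩) ?_ ?_ ?_ ?_ ?_
  · rintro ⟨n, r, m⟩ hp
    simp only [mem_sigma, mem_Icc, Nat.mem_divisorsAntidiagonal] at hp ⊢
    obtain ⟨⟨h1, h2⟩, h3, h4⟩ := hp
    have hr : 0 < r := Nat.pos_of_ne_zero fun h => h4 (by rw [← h3, h, zero_mul])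
    have hm : 0 < m := Nat.pos_of_ne_zero fun h => h4 (by rw [← h3, h, mul_zero])
    refine ⟨⟨hr, ?_⟩, hm, ?_⟩
    · exact (Nat.le_mul_of_pos_right r hm).trans (h3.le.trans h2)
    · rw [Nat.le_div_iff_mul_le hr, mul_comm]
      exact h3.le.trans h2
  · rintro ⟨r, m⟩ hp
    simp only [mem_sigma, mem_Icc, Nat.mem_divisorsAntidiagonal] at hp ⊢
    obtain ⟨⟨h1, h2⟩, h3, h4⟩ := hp
    have h5 : 0 < r * m := Nat.mul_pos h1 h3
    refine ⟨⟨h5, ?_⟩, trivial, h5.ne'⟩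
    rw [Nat.le_div_iff_mul_le h1, mul_comm] at h4
    exact h4
  · rintro ⟨n, r, m⟩ hp
    simp only [mem_sigma, mem_Icc, Nat.mem_divisorsAntidiagonal] at hp
    obtain ⟨⟨h1, h2⟩, h3, h4⟩ := hp
    subst h3
    rfl
  · rintro ⟨r, m⟩ _
    rfl
  · rintro ⟨n, r, m⟩ hp
    simp only [mem_sigma, mem_Icc, Nat.mem_divisorsAntidiagonal] at hp
    obtain ⟨⟨h1, h2⟩, h3, h4⟩ := hp
    subst h3
    push_cast
    ring

theorem five_box {ε : ℝ} (hε : 0 < ε) : ∃ C : ℝ, 0 < C ∧ ∀ N : ℕ, 2 ≤ N → ∀ (a : ℤ) (b : ℕ), 1 ≤ b →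
    IsCoprime a (b : ℤ) → ∀ k ≤ 9, ∀ (f : Fin k → ArithmeticFunction ℂ) (K : Fin k → ℕ), (∀ i, Pc (K i) (f i)) →
    ∀ (T : Finset (Fin k)) (hT : T.card = 5) (B : ℝ), 0 ≤ B →
    (∀ (a' : ℤ) (b' : ℕ), 1 ≤ b' → IsCoprime a' (b' : ℤ) → b' ∣ b → b ≤ 16 * (∏ i ∈ Tᶜ, K i) * b' →
      ∀ g : Fin 5 → ArithmeticFunction ℂ, (∀ j, Pc (K (T.orderEmbOfFin hT j)) (g j)) →
      ∀ X : ℕ, 32 * ∏ i ∈ T, K i ≤ X → ‖SF (∏ j, g j) X a' b'‖ ≤ B) →
    ∀ M ≤ N, ‖SF (∏ i, f i) M a b‖ ≤ C * (N : ℝ) ^ ε * (∏ i ∈ Tᶜ, (K i : ℝ)) * B := by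
  obtain ⟨C0, hC0, hsep⟩ := sep_bound
  refine ⟨C0 * ((32 : ℝ) ^ ε / ε), by positivity, ?_⟩
  intro N hN a b hb hab k hk f K hK T hT B hB hyp M hM
  have hNR : (2 : ℝ) ≤ N := by exact_mod_cast hN
  have hK1 : ∀ i, 1 ≤ K i := fun i => (hK i).pos
  have hRpos : 0 ≤ ∏ i ∈ Tᶜ, (K i : ℝ) := Finset.prod_nonneg fun i _ => Nat.cast_nonneg _
  have hNε : (0 : ℝ) ≤ (N : ℝ) ^ ε := by positivity
  rcases lt_or_ge M (∏ i, K i) with hlt | hge
  · rw [box_zero hK hlt, norm_zero]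
    positivity
  have hprod : (∏ i ∈ Tᶜ, K i) * ∏ i ∈ T, K i = ∏ i, K i := Finset.prod_compl_mul_prod T K
  have hPN : ∏ i ∈ T, K i ≤ N := by
    have h1 : 1 ≤ ∏ i ∈ Tᶜ, K i := Finset.one_le_prod' fun i _ => hK1 i
    calc ∏ i ∈ T, K i ≤ (∏ i ∈ Tᶜ, K i) * ∏ i ∈ T, K i := Nat.le_mul_of_pos_left _ h1
      _ = ∏ i, K i := hprod
      _ ≤ N := hge.trans hM
  set P : ℕ := ∏ i ∈ T, K i with hP
  have hP1 : 1 ≤ P := Finset.one_le_prod' fun i _ => hK1 i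
  set X : ℕ := 32 * P with hX
  have hX2 : 2 ≤ X := by omega
  set H : ArithmeticFunction ℂ := ∏ i ∈ Tᶜ, f i with hH
  set F : ArithmeticFunction ℂ := ∏ i ∈ T, f i with hF
  have hHF : ∏ i, f i = H * F := (Finset.prod_compl_mul_prod T f).symm
  have hcard : (Tᶜ : Finset (Fin k)).card ≤ 4 := by
    rw [Finset.card_compl, Fintype.card_fin, hT]
    omega
  have hFX : ∀ n, F n ≠ 0 → n ≤ X := by
    intro n hn
    have h1 := (prod_supp T (fun i _ => hK i) hn).2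
    rw [hT] at h1
    omega
  -- the inner sums
  have hinner : ∀ r ∈ Icc 1 M, H r ≠ 0 →
      ‖∑ m ∈ Icc 1 (M / r), F m * ex ((a : ℝ) * ((r : ℝ) * m) / b)‖ ≤ C0 * Real.log X * B := by
    intro r hr hHr
    rw [mem_Icc] at hr
    have hr0 : 0 < r := hr.1
    have hrR := (prod_supp Tᶜ (fun i _ => hK i) hHr).2
    have hr16 : r ≤ 16 * ∏ i ∈ Tᶜ, K i := by
      refine hrR.trans (Nat.mul_le_mul_right _ ?_)
      calc 2 ^ (Tᶜ : Finset (Fin k)).card ≤ 2 ^ 4 := Nat.pow_le_pow_right (by norm_num) hcard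
        _ = 16 := by norm_num
    set g : ℕ := Nat.gcd r b with hg
    have hgpos : 0 < g := Nat.gcd_pos_of_pos_left _ hr0
    obtain ⟨r', hr'⟩ : g ∣ r := Nat.gcd_dvd_left _ _
    obtain ⟨b', hb'⟩ : g ∣ b := Nat.gcd_dvd_right _ _
    have hb'1 : 1 ≤ b' := Nat.pos_of_ne_zero fun h => by
      rw [h, mul_zero] at hb'
      omega
    have hcop : Nat.Coprime r' b' := by
      have h1 := Nat.coprime_div_gcd_div_gcd (m := r) (n := b) hgpos
      rw [← hg] at h1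
      rwa [show r / g = r' by rw [hr', Nat.mul_div_cancel_left _ hgpos],
        show b / g = b' by
          conv_lhs => rw [hb']
          rw [Nat.mul_div_cancel_left _ hgpos]] at h1
    have hdvd : b' ∣ b := ⟨g, by rw [mul_comm]; exact hb'⟩
    have hcop' : IsCoprime (a * (r' : ℤ)) (b' : ℤ) := by
      refine IsCoprime.mul_left ?_ ?_
      · exact hab.of_isCoprime_of_dvd_right (by exact_mod_cast hdvd)
      · exact Nat.isCoprime_iff_coprime.2 hcop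
    have hble : b ≤ 16 * (∏ i ∈ Tᶜ, K i) * b' := by
      have h1 : g ≤ r := Nat.gcd_le_left _ hr0
      calc b = g * b' := hb'
        _ ≤ r * b' := Nat.mul_le_mul_right _ h1
        _ ≤ 16 * (∏ i ∈ Tᶜ, K i) * b' := Nat.mul_le_mul_right _ hr16
    have hbR : (b : ℝ) = (g : ℝ) * b' := by
      rw [show (g : ℝ) * b' = ((g * b' : ℕ) : ℝ) by push_cast; rfl, ← hb']
    have hrRe : (r : ℝ) = (g : ℝ) * r' := by
      rw [show (g : ℝ) * r' = ((g * r' : ℕ) : ℝ) by push_cast; rfl, ← hr']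
    have hgR : (g : ℝ) ≠ 0 := by exact_mod_cast hgpos.ne'
    have hb'R : (b' : ℝ) ≠ 0 := by exact_mod_cast (Nat.pos_iff_ne_zero.1 hb'1)
    have harg : ∀ m : ℕ, (a : ℝ) * ((r : ℝ) * m) / b = ((a * (r' : ℤ) : ℤ) : ℝ) * m / b' := by
      intro m
      rw [hbR, hrRe]
      push_cast
      field_simp
    set c : ℕ → ℂ := fun m => F m * ex (((a * (r' : ℤ) : ℤ) : ℝ) * m / b') with hc
    have hsum : ∑ m ∈ Icc 1 (M / r), F m * ex ((a : ℝ) * ((r : ℝ) * m) / b) =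
        ∑ m ∈ Icc 1 (min (M / r) X), c m := by
      symm
      have h1 : Icc 1 (min (M / r) X) ⊆ Icc 1 (M / r) := by
        intro m hm
        rw [mem_Icc] at hm ⊢
        exact ⟨hm.1, hm.2.trans (min_le_left _ _)⟩
      rw [Finset.sum_subset h1]
      · refine Finset.sum_congr rfl fun m _ => ?_
        rw [harg]
      · intro m hm hnm
        rw [mem_Icc] at hm hnm
        have h2 : F m = 0 := by
          by_contra h
          have h3 := hFX m h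
          exact hnm ⟨hm.1, le_min hm.2 h3⟩
        rw [hc]
        simp only
        rw [h2, zero_mul]
    rw [hsum]
    refine hsep X hX2 (M / r) c B fun ξ => ?_
    have h1 : ∑ n ∈ Icc 1 X, c n * Complex.exp (((ξ * Real.log n : ℝ) : ℂ) * Complex.I) =
        SF (tw ξ F) X (a * (r' : ℤ)) b' := by
      unfold SF
      refine Finset.sum_congr rfl fun n _ => ?_
      show F n * ex (((a * (r' : ℤ) : ℤ) : ℝ) * n / b') * Complex.exp (((ξ * Real.log n : ℝ) : ℂ) * Complex.I) =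
        F n * Complex.exp (((ξ * Real.log n : ℝ) : ℂ) * Complex.I) * ex (((a * (r' : ℤ) : ℤ) : ℝ) * n / b')
      ring
    have h2 : tw ξ F = ∏ j : Fin 5, tw ξ (f (T.orderEmbOfFin hT j)) := by
      rw [hF, tw_prod]
      symm
      have h3 : (Finset.univ : Finset (Fin 5)).map (T.orderEmbOfFin hT).toEmbedding = T := by
        rw [Finset.map_orderEmbOfFin_univ]
      conv_rhs => rw [← h3]
      rw [Finset.prod_map]
      rfl
    rw [h1, h2]
    exact hyp (a * (r' : ℤ)) b' hb'1 hcop' hdvd hble _ (fun j => tw_pc (hK _) ξ) X le_rfl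
  have hlogX : Real.log X ≤ (32 : ℝ) ^ ε / ε * (N : ℝ) ^ ε := by
    have h1 : (X : ℝ) ≤ 32 * N := by
      have : X ≤ 32 * N := Nat.mul_le_mul_left _ hPN
      exact_mod_cast this
    have h2 : (0 : ℝ) < X := by
      have : 0 < X := by omega
      exact_mod_cast this
    calc Real.log X ≤ Real.log (32 * N) := Real.log_le_log h2 h1
      _ ≤ (32 * (N : ℝ)) ^ ε / ε := Real.log_le_rpow_div (by positivity) hε
      _ = (32 : ℝ) ^ ε / ε * (N : ℝ) ^ ε := by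
        rw [Real.mul_rpow (by norm_num) (by positivity)]
        ring
  rw [hHF, expand74]
  calc ‖∑ r ∈ Icc 1 M, H r * ∑ m ∈ Icc 1 (M / r), F m * ex ((a : ℝ) * ((r : ℝ) * m) / b)‖
      ≤ ∑ r ∈ Icc 1 M, ‖H r‖ * (C0 * Real.log X * B) := by
        refine (norm_sum_le _ _).trans (Finset.sum_le_sum fun r hr => ?_)
        rw [norm_mul]
        by_cases h0 : H r = 0
        · rw [h0, norm_zero, zero_mul, zero_mul]
        · exact mul_le_mul_of_nonneg_left (hinner r hr h0) (norm_nonneg _)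
    _ = (∑ r ∈ Icc 1 M, ‖H r‖) * (C0 * Real.log X * B) := by rw [Finset.sum_mul]
    _ ≤ (∏ i ∈ Tᶜ, (K i : ℝ)) * (C0 * ((32 : ℝ) ^ ε / ε * (N : ℝ) ^ ε) * B) := by
        refine mul_le_mul (prod_l1 Tᶜ (fun i _ => hK i) M) ?_ ?_ hRpos
        · exact mul_le_mul_of_nonneg_right (mul_le_mul_of_nonneg_left hlogX hC0.le) hB
        · have h3 : 0 ≤ Real.log X := Real.log_natCast_nonneg _
          positivity
    _ = C0 * ((32 : ℝ) ^ ε / ε) * (N : ℝ) ^ ε * (∏ i ∈ Tᶜ, (K i : ℝ)) * B := by ring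

end Pool.Helper19.V4
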