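import Pool.Agent.Helper19.V4.Large
import Pool.Agent.Helper19.V4.Char
import Pool.Agent.Helper19.V4.Fifth

/-!
# V4-16: five variables

`five_dec` (loss `d(b)^5 ≤ C N^ε`); `G = ∏ t`. Let `δ1` be the `δ` of `fifth_moment`, `θ = κ0' - κ0 > 0`, `γ = min θ δ1 (and small)`, `δ = γ/100`, `ε = δ`.
If `G > N^γ`: `large_g`: `|SF|² ≤ C N^ε (N/G) (N/b + N^(2/5 + 2δ) + N^(3/5 + 3δ) + b) ≤ C N^(8/5 + 3δ + ε - γ)` (`2/5 < κ0' ≤ κ1 ≤ 3/5`; `N/b ≤ N^(3/5)`, `b ≤ N^(3/5)`).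
If `G ≤ N^γ`: modulus `q = b / gcd(G, b) ≥ b / G ≥ N^(κ0' - γ) ≥ N^κ0`, `F i = gp b (t i) (f i)` is supported in `m ≤ L i := 2 K i ≤ N^(1/5 + δ1)` (large `N`), coprime to `q` (if `gcd(t m, b) = t` then
`gcd(m, b/t) = 1`, and `q ∣ b / t` since `t ∣ gcd(G, b)`); `char_five` with `fifth_moment` (`c n = F i n`): `|SF| ≤ √q/φ(q) · √q N^(4/5 - δ1) = (q/φ(q)) N^(4/5 - δ1)`, and `q/φ(q) ≤ d(q) ≤ C N^ε`
(`q ≤ d(q) φ(q)`). The cut-off `X / G` is harmless: the product is supported in `m ≤ 32 P / G ≤ X / G`; take `Y = max (X/G) (∏ L)`, `SF` does not change.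
For small `N` use the trivial bound (constant `C`; `|SF| ≤ ∑ |∏ f| ≤ ∏ K ≤ N`, `prod_l1`).
-/

namespace Pool.Helper19.V4

open ArithmeticFunction Finset

private lemma supp54 {ι : Type*} (s : Finset ι) {F : ι → ArithmeticFunction ℂ} {t M : ι → ℕ}
    (h : ∀ i ∈ s, ∀ n, F i n ≠ 0 → t i * n ≤ M i) {n : ℕ} (hn : (∏ i ∈ s, F i) n ≠ 0) :
    (∏ i ∈ s, t i) * n ≤ ∏ i ∈ s, M i := by
  classical
  induction s using Finset.induction_on generalizing n with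
  | empty =>
    rw [Finset.prod_empty] at hn
    have : n = 1 := by
      by_contra h1
      exact hn (ArithmeticFunction.one_apply_ne h1)
    simp [this]
  | insert a s ha ih =>
    rw [Finset.prod_insert ha, ArithmeticFunction.mul_apply] at hn
    obtain ⟨p, hp, hp2⟩ := Finset.exists_ne_zero_of_sum_ne_zero hn
    rw [Nat.mem_divisorsAntidiagonal] at hp
    have h1 := left_ne_zero_of_mul hp2
    have h2 := right_ne_zero_of_mul hp2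
    have h3 := h a (Finset.mem_insert_self _ _) _ h1
    have h4 := ih (fun i hi => h i (Finset.mem_insert_of_mem hi)) h2
    rw [Finset.prod_insert ha, Finset.prod_insert ha, ← hp.1]
    calc t a * (∏ i ∈ s, t i) * (p.1 * p.2) = (t a * p.1) * ((∏ i ∈ s, t i) * p.2) := by ring
      _ ≤ _ := Nat.mul_le_mul h3 h4

private lemma SF_ext54 {F : ArithmeticFunction ℂ} {M M' : ℕ} (hM : M ≤ M') (h : ∀ n, F n ≠ 0 → n ≤ M) (a : ℤ)
    (b : ℕ) : SF F M a b = SF F M' a b := by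
  unfold SF
  refine Finset.sum_subset (Finset.Icc_subset_Icc_right hM) fun n hn hn' => ?_
  have : F n = 0 := by
    by_contra h0
    exact hn' (Finset.mem_Icc.mpr ⟨(Finset.mem_Icc.mp hn).1, h n h0⟩)
  rw [this, zero_mul]

private lemma tot54 {q : ℕ} (hq : q ≠ 0) : (q : ℝ) ≤ (q.divisors.card : ℝ) * (Nat.totient q : ℝ) := by
  have h1 := Nat.totient_mul_prod_primeFactors q
  have h2 : ∏ p ∈ q.primeFactors, p ≤ 2 ^ q.primeFactors.card * ∏ p ∈ q.primeFactors, (p - 1) := by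
    rw [← Finset.prod_const, ← Finset.prod_mul_distrib]
    refine Finset.prod_le_prod' fun p hp => ?_
    have := (Nat.prime_of_mem_primeFactors hp).two_le
    omega
  have h3 : 0 < ∏ p ∈ q.primeFactors, (p - 1) := Finset.prod_pos fun p hp => by
    have := (Nat.prime_of_mem_primeFactors hp).two_le
    omega
  have h4 : 2 ^ q.primeFactors.card ≤ q.divisors.card := by
    rw [Nat.card_divisors hq, ← Finset.prod_const]
    refine Finset.prod_le_prod' fun p hp => ?_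
    have := (Nat.prime_of_mem_primeFactors hp).factorization_pos_of_dvd hq (Nat.dvd_of_mem_primeFactors hp)
    omega
  have h5 : q * ∏ p ∈ q.primeFactors, (p - 1) ≤
      (q.divisors.card * Nat.totient q) * ∏ p ∈ q.primeFactors, (p - 1) := by
    rw [← h1]
    calc Nat.totient q * ∏ p ∈ q.primeFactors, p
        ≤ Nat.totient q * (2 ^ q.primeFactors.card * ∏ p ∈ q.primeFactors, (p - 1)) := Nat.mul_le_mul_left _ h2
      _ ≤ Nat.totient q * (q.divisors.card * ∏ p ∈ q.primeFactors, (p - 1)) :=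
          Nat.mul_le_mul_left _ (Nat.mul_le_mul_right _ h4)
      _ = _ := by ring
  have h6 := Nat.le_of_mul_le_mul_right h5 h3
  exact_mod_cast h6

private lemma gp_norm54 {b g K : ℕ} {f : ArithmeticFunction ℂ} (h : Pc K f) (n : ℕ) : ‖gp b g f n‖ ≤ 1 := by
  show ‖(if Nat.gcd (g * n) b = g then f (g * n) else 0)‖ ≤ 1
  split_ifs
  · exact h.le _
  · simp

private lemma gp_supp54 {b g K : ℕ} {f : ArithmeticFunction ℂ} (h : Pc K f) {n : ℕ} (hn : gp b g f n ≠ 0) :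
    Nat.gcd (g * n) b = g ∧ g * n < 2 * K := by
  have h1 : (if Nat.gcd (g * n) b = g then f (g * n) else 0) ≠ 0 := hn
  split_ifs at h1 with h2
  · exact ⟨h2, (h.supp _ h1).2⟩
  · exact absurd rfl h1

private lemma small54 {κ0 κ1 δ1 : ℝ} {N : ℕ}
    (hF : ∀ (q : ℕ) [NeZero q], (N : ℝ) ^ κ0 ≤ q → (q : ℝ) ≤ (N : ℝ) ^ κ1 →
      ∀ K : ℕ, (K : ℝ) ≤ (N : ℝ) ^ ((1 : ℝ) / 5 + δ1) → ∀ c : ℕ → ℂ, (∀ n, ‖c n‖ ≤ 1) →
        ∑ χ : DirichletCharacter ℂ q, ‖∑ n ∈ Icc 1 K, c n * χ (n : ZMod q)‖ ^ 5 ≤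
          Real.sqrt q * (N : ℝ) ^ ((4 : ℝ) / 5 - δ1))
    {a : ℤ} {b : ℕ} (hb : 1 ≤ b) (hab : IsCoprime a (b : ℤ)) {f : Fin 5 → ArithmeticFunction ℂ} {K : Fin 5 → ℕ}
    (hf : ∀ i, Pc (K i) (f i))
    (hK : ∀ i, ((2 * K i : ℕ) : ℝ) ≤ (N : ℝ) ^ ((1 : ℝ) / 5 + δ1)) {t : Fin 5 → ℕ} (ht : ∀ i, t i ∈ b.divisors)
    (hq0 : (N : ℝ) ^ κ0 ≤ ((b / Nat.gcd (∏ i, t i) b : ℕ) : ℝ)) (hq1 : (b : ℝ) ≤ (N : ℝ) ^ κ1) {X : ℕ}
    (hX : 32 * ∏ i, K i ≤ X) :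
    ‖SF (∏ i, gp b (t i) (f i)) (X / ∏ i, t i) (a * (((∏ i, t i) / Nat.gcd (∏ i, t i) b : ℕ) : ℤ))
        (b / Nat.gcd (∏ i, t i) b)‖ ≤
      ((b / Nat.gcd (∏ i, t i) b).divisors.card : ℝ) * (N : ℝ) ^ ((4 : ℝ) / 5 - δ1) := by
  obtain ⟨G, hG⟩ : ∃ G, G = ∏ i, t i := ⟨_, rfl⟩
  rw [← hG] at hq0 ⊢
  obtain ⟨q, hq⟩ : ∃ q, q = b / Nat.gcd G b := ⟨_, rfl⟩
  have hcop := coprime_red (G := G) hb hab
  rw [← hq] at hq0 hcop ⊢
  have hgb : Nat.gcd G b ∣ b := Nat.gcd_dvd_right _ _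
  have hq1' : 1 ≤ q := by
    rw [hq]
    exact Nat.div_pos (Nat.le_of_dvd hb hgb) (Nat.gcd_pos_of_pos_right _ hb)
  have : NeZero q := ⟨by omega⟩
  have ht1 : ∀ i, 1 ≤ t i := fun i => Nat.pos_of_mem_divisors (ht i)
  have hG1 : 1 ≤ G := by
    rw [hG]
    exact Nat.succ_le_of_lt (Finset.prod_pos fun i _ => ht1 i)
  have hqb : q ≤ b := by
    rw [hq]
    exact Nat.div_le_self _ _
  have hs1 : ∀ n, (∏ i, gp b (t i) (f i)) n ≠ 0 → n ≤ X / G := by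
    intro n hn
    have h1 := supp54 Finset.univ (t := t) (M := fun i => 2 * K i)
      (fun i _ m hm => (gp_supp54 (hf i) hm).2.le) hn
    rw [Finset.prod_mul_distrib, Finset.prod_const, Finset.card_univ, Fintype.card_fin, ← hG] at h1
    rw [Nat.le_div_iff_mul_le hG1]
    calc n * G = G * n := mul_comm _ _
      _ ≤ 2 ^ 5 * ∏ i, K i := h1
      _ = 32 * ∏ i, K i := by norm_num
      _ ≤ X := hX
  rw [SF_ext54 (le_max_left (X / G) (∏ i, 2 * K i)) hs1]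
  refine (char_five hcop (fun i => gp b (t i) (f i)) (fun i => 2 * K i) ?_ ?_
    (S := Real.sqrt q * (N : ℝ) ^ ((4 : ℝ) / 5 - δ1)) ?_ (le_max_right _ _)).trans ?_
  · intro i n hn
    have h1 := (gp_supp54 (hf i) hn).2
    calc n ≤ t i * n := Nat.le_mul_of_pos_left _ (ht1 i)
      _ ≤ 2 * K i := h1.le
  · intro i n hn
    have h1 := (gp_supp54 (hf i) hn).1
    have hd : t i ∣ b := Nat.dvd_of_mem_divisors (ht i)
    have h2 : t i ∣ Nat.gcd G b := Nat.dvd_gcd (by rw [hG]; exact Finset.dvd_prod_of_mem t (Finset.mem_univ i)) hd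
    have h3 : q ∣ b / t i := by
      rw [hq]
      exact Nat.div_dvd_div_left hgb h2
    have h4 : Nat.Coprime n (b / t i) := by
      obtain ⟨c, hc⟩ := hd
      rw [hc, Nat.mul_div_cancel_left _ (ht1 i)]
      have h5 : Nat.gcd (t i * n) (t i * c) = t i := by
        rw [← hc]
        exact h1
      rw [Nat.gcd_mul_left] at h5
      exact Nat.eq_of_mul_eq_mul_left (ht1 i) (h5.trans (mul_one _).symm)
    exact h4.coprime_dvd_right h3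
  · intro i
    exact hF q hq0 ((by exact_mod_cast hqb : (q : ℝ) ≤ b).trans hq1) _ (hK i) _ (fun n => gp_norm54 (hf i) n)
  · have h1 := tot54 (q := q) (by omega)
    have h2 : (0 : ℝ) < Nat.totient q := by exact_mod_cast Nat.totient_pos.mpr hq1'
    have h3 : Real.sqrt q / (Nat.totient q : ℝ) * (Real.sqrt q * (N : ℝ) ^ ((4 : ℝ) / 5 - δ1)) =
        (q : ℝ) / Nat.totient q * (N : ℝ) ^ ((4 : ℝ) / 5 - δ1) := by
      have h4 := Real.mul_self_sqrt (Nat.cast_nonneg q : (0:ℝ) ≤ q)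
      calc Real.sqrt q / (Nat.totient q : ℝ) * (Real.sqrt q * (N : ℝ) ^ ((4 : ℝ) / 5 - δ1))
          = (Real.sqrt q * Real.sqrt q) / (Nat.totient q : ℝ) * (N : ℝ) ^ ((4 : ℝ) / 5 - δ1) := by ring
        _ = _ := by rw [h4]
    rw [h3]
    refine mul_le_mul_of_nonneg_right ?_ (by positivity)
    rw [div_le_iff₀ h2]
    exact h1

theorem quintic {κ0 κ1 κ0' : ℝ} (hκ0 : 2 / 5 < κ0) (hκ0' : κ0 < κ0') (hκ1 : κ1 ≤ 3 / 5) (h : LVN κ0 κ1) :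
    ∃ δ : ℝ, 0 < δ ∧ ∃ C : ℝ, 0 < C ∧ ∀ N : ℕ, 2 ≤ N → ∀ (a : ℤ) (b : ℕ), 1 ≤ b → IsCoprime a (b : ℤ) →
      (N : ℝ) ^ κ0' ≤ b → (b : ℝ) ≤ (N : ℝ) ^ κ1 →
      ∀ (f : Fin 5 → ArithmeticFunction ℂ) (K : Fin 5 → ℕ), (∀ i, Pc (K i) (f i)) → ∏ i, K i ≤ N →
      (∀ i, (K i : ℝ) ≤ (N : ℝ) ^ ((1 : ℝ) / 5 + δ)) → ∀ X : ℕ, 32 * ∏ i, K i ≤ X →
        ‖SF (∏ i, f i) X a b‖ ≤ C * (N : ℝ) ^ ((4 : ℝ) / 5 - δ) := by
  obtain ⟨δ1, hδ1, N1, hN1⟩ := fifth_moment hκ0 hκ1 h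
  obtain ⟨γ, hγ⟩ : ∃ γ : ℝ, γ = min (κ0' - κ0) (min δ1 (1 / 10)) := ⟨_, rfl⟩
  have hγ0 : 0 < γ := by
    rw [hγ]
    exact lt_min (by linarith) (lt_min hδ1 (by norm_num))
  have hγ1 : γ ≤ κ0' - κ0 := by
    rw [hγ]
    exact min_le_left _ _
  have hγ2 : γ ≤ δ1 := by
    rw [hγ]
    exact (min_le_right _ _).trans (min_le_left _ _)
  have hγ3 : γ ≤ 1 / 10 := by
    rw [hγ]
    exact (min_le_right _ _).trans (min_le_right _ _)
  obtain ⟨δ, hδ⟩ : ∃ δ : ℝ, δ = γ / 100 := ⟨_, rfl⟩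
  have hδ0 : 0 < δ := by rw [hδ]; positivity
  obtain ⟨C1, hC1, hL⟩ := large_g (ε := δ) hδ0
  obtain ⟨C2, hC2, hD⟩ := Pool.Agent.Helper69.FF.div_bound (ε := δ / 5) (by positivity)
  obtain ⟨N2, hN2⟩ : ∃ N2 : ℕ, ∀ N : ℕ, N2 ≤ N → (2 : ℝ) ≤ (N : ℝ) ^ (δ1 - δ) := by
    have h1 : Filter.Tendsto (fun n : ℕ => (n : ℝ) ^ (δ1 - δ)) Filter.atTop Filter.atTop :=
      (tendsto_rpow_atTop (by linarith)).comp tendsto_natCast_atTop_atTop
    exact Filter.eventually_atTop.mp (h1.eventually_ge_atTop 2)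
  refine ⟨δ, hδ0, C2 ^ 5 * (2 * Real.sqrt C1 + C2) + ((N1 : ℝ) + N2 + 1), by positivity, ?_⟩
  intro N hN a b hb hab hbl hbu f K hf hP hK X hX
  have hNR : (1 : ℝ) ≤ N := by exact_mod_cast (by omega : 1 ≤ N)
  have hN0 : (0 : ℝ) < N := by linarith
  have hM1 : (1 : ℝ) ≤ (N : ℝ) ^ ((4 : ℝ) / 5 - δ) := Real.one_le_rpow hNR (by linarith)
  have hPR : (∏ i, (K i : ℝ)) ≤ N := by exact_mod_cast hP
  have hmono : ∀ {x y : ℝ}, x ≤ y → (N : ℝ) ^ x ≤ (N : ℝ) ^ y := fun hxy => Real.rpow_le_rpow_of_exponent_le hNR hxy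
  by_cases hbig : N1 ≤ N ∧ N2 ≤ N
  swap
  · have h1 : ‖SF (∏ i, f i) X a b‖ ≤ ∏ i, (K i : ℝ) := box_triv hf X a b
    have h3 : (N : ℝ) ≤ N1 + N2 := by
      have : N ≤ N1 + N2 := by
        by_contra h4
        exact hbig ⟨by omega, by omega⟩
      exact_mod_cast this
    have h4 : 0 ≤ C2 ^ 5 * (2 * Real.sqrt C1 + C2) := by positivity
    calc ‖SF (∏ i, f i) X a b‖ ≤ (C2 ^ 5 * (2 * Real.sqrt C1 + C2) + ((N1 : ℝ) + N2 + 1)) * 1 := by linarith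
      _ ≤ _ := mul_le_mul_of_nonneg_left hM1 (by positivity)
  obtain ⟨hb1, hb2⟩ := hbig
  have hbN : (b : ℝ) ≤ N := by
    calc (b : ℝ) ≤ (N : ℝ) ^ κ1 := hbu
      _ ≤ (N : ℝ) ^ (1 : ℝ) := hmono (by linarith)
      _ = N := Real.rpow_one _
  have hb0 : (0 : ℝ) < b := by exact_mod_cast hb
  have hB : ∀ t : Fin 5 → ℕ, (∀ i, t i ∈ b.divisors) →
      ‖SF (∏ i, gp b (t i) (f i)) (X / ∏ i, t i) (a * (((∏ i, t i) / Nat.gcd (∏ i, t i) b : ℕ) : ℤ))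
        (b / Nat.gcd (∏ i, t i) b)‖ ≤ (2 * Real.sqrt C1 + C2) * (N : ℝ) ^ ((4 : ℝ) / 5 - 2 * δ) := by
    intro t ht
    have ht1 : ∀ i, 1 ≤ t i := fun i => Nat.pos_of_mem_divisors (ht i)
    have hG1 : 1 ≤ ∏ i, t i := Nat.succ_le_of_lt (Finset.prod_pos fun i _ => ht1 i)
    have hGR : (1 : ℝ) ≤ ∏ i, (t i : ℝ) := by exact_mod_cast hG1
    by_cases hG : (∏ i, (t i : ℝ)) ≤ (N : ℝ) ^ γ
    · -- small common factor
      have hgb : Nat.gcd (∏ i, t i) b ∣ b := Nat.gcd_dvd_right _ _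
      have hg0 : 0 < Nat.gcd (∏ i, t i) b := Nat.gcd_pos_of_pos_right _ hb
      have hq0 : (N : ℝ) ^ κ0 ≤ ((b / Nat.gcd (∏ i, t i) b : ℕ) : ℝ) := by
        rw [Nat.cast_div hgb (by positivity), le_div_iff₀ (by positivity)]
        have h1 : ((Nat.gcd (∏ i, t i) b : ℕ) : ℝ) ≤ (N : ℝ) ^ γ := by
          refine le_trans ?_ hG
          have : Nat.gcd (∏ i, t i) b ≤ ∏ i, t i := Nat.gcd_le_left _ hG1
          exact_mod_cast this
        calc (N : ℝ) ^ κ0 * ((Nat.gcd (∏ i, t i) b : ℕ) : ℝ) ≤ (N : ℝ) ^ κ0 * (N : ℝ) ^ γ :=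
              mul_le_mul_of_nonneg_left h1 (by positivity)
          _ = (N : ℝ) ^ (κ0 + γ) := (Real.rpow_add hN0 _ _).symm
          _ ≤ (N : ℝ) ^ κ0' := hmono (by linarith)
          _ ≤ b := hbl
      have hK2 : ∀ i, ((2 * K i : ℕ) : ℝ) ≤ (N : ℝ) ^ ((1 : ℝ) / 5 + δ1) := by
        intro i
        push_cast
        calc (2 : ℝ) * (K i : ℝ) ≤ (N : ℝ) ^ (δ1 - δ) * (N : ℝ) ^ ((1 : ℝ) / 5 + δ) :=
              mul_le_mul (hN2 N hb2) (hK i) (by positivity) (by positivity)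
          _ = (N : ℝ) ^ ((1 : ℝ) / 5 + δ1) := by
              rw [← Real.rpow_add hN0]
              congr 1
              ring
      refine (small54 (hN1 N hb1) hb hab hf hK2 ht hq0 hbu hX).trans ?_
      have hqpos : b / Nat.gcd (∏ i, t i) b ≠ 0 := by
        have := Nat.div_pos (Nat.le_of_dvd hb hgb) hg0
        omega
      have h1 := hD _ hqpos
      have h2 : (((b / Nat.gcd (∏ i, t i) b : ℕ) : ℝ)) ^ (δ / 5) ≤ (N : ℝ) ^ (δ / 5) := by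
        refine Real.rpow_le_rpow (by positivity) ?_ (by positivity)
        refine le_trans ?_ hbN
        exact_mod_cast Nat.div_le_self _ _
      calc ((b / Nat.gcd (∏ i, t i) b).divisors.card : ℝ) * (N : ℝ) ^ ((4 : ℝ) / 5 - δ1)
          ≤ (C2 * (N : ℝ) ^ (δ / 5)) * (N : ℝ) ^ ((4 : ℝ) / 5 - δ1) :=
            mul_le_mul_of_nonneg_right (h1.trans (mul_le_mul_of_nonneg_left h2 hC2.le)) (by positivity)
        _ = C2 * (N : ℝ) ^ (δ / 5 + ((4 : ℝ) / 5 - δ1)) := by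
            rw [Real.rpow_add hN0]
            ring
        _ ≤ C2 * (N : ℝ) ^ ((4 : ℝ) / 5 - 2 * δ) :=
            mul_le_mul_of_nonneg_left (hmono (by linarith)) hC2.le
        _ ≤ _ := mul_le_mul_of_nonneg_right (by linarith [Real.sqrt_nonneg C1]) (by positivity)
    · -- large common factor
      rw [not_le] at hG
      have h1 := hL N hN a b hb hab f K hf hP t ht X hX
      have hPG : (∏ i, (K i : ℝ)) / ∏ i, (t i : ℝ) ≤ (N : ℝ) ^ (1 - γ) := by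
        rw [div_le_iff₀ (by linarith)]
        calc (∏ i, (K i : ℝ)) ≤ N := hPR
          _ = (N : ℝ) ^ (1 - γ) * (N : ℝ) ^ γ := by
              rw [← Real.rpow_add hN0, sub_add_cancel, Real.rpow_one]
          _ ≤ (N : ℝ) ^ (1 - γ) * ∏ i, (t i : ℝ) := mul_le_mul_of_nonneg_left hG.le (by positivity)
      have e1 : (∏ i, (K i : ℝ)) / b ≤ (N : ℝ) ^ ((3 : ℝ) / 5 + 3 * δ) := by
        rw [div_le_iff₀ hb0]
        calc (∏ i, (K i : ℝ)) ≤ N := hPR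
          _ = (N : ℝ) ^ (1 - κ0') * (N : ℝ) ^ κ0' := by
              rw [← Real.rpow_add hN0, sub_add_cancel, Real.rpow_one]
          _ ≤ (N : ℝ) ^ ((3 : ℝ) / 5 + 3 * δ) * b :=
              mul_le_mul (hmono (by linarith)) hbl (by positivity) (by positivity)
      have e2 : (K 0 : ℝ) * K 1 ≤ (N : ℝ) ^ ((3 : ℝ) / 5 + 3 * δ) := by
        calc (K 0 : ℝ) * K 1 ≤ (N : ℝ) ^ ((1 : ℝ) / 5 + δ) * (N : ℝ) ^ ((1 : ℝ) / 5 + δ) :=
              mul_le_mul (hK 0) (hK 1) (by positivity) (by positivity)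
          _ = (N : ℝ) ^ ((1 : ℝ) / 5 + δ + ((1 : ℝ) / 5 + δ)) := (Real.rpow_add hN0 _ _).symm
          _ ≤ _ := hmono (by linarith)
      have e3 : (K 2 : ℝ) * K 3 * K 4 ≤ (N : ℝ) ^ ((3 : ℝ) / 5 + 3 * δ) := by
        calc (K 2 : ℝ) * K 3 * K 4 ≤
              (N : ℝ) ^ ((1 : ℝ) / 5 + δ) * (N : ℝ) ^ ((1 : ℝ) / 5 + δ) * (N : ℝ) ^ ((1 : ℝ) / 5 + δ) :=
              mul_le_mul (mul_le_mul (hK 2) (hK 3) (by positivity) (by positivity)) (hK 4) (by positivity)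
                (by positivity)
          _ = (N : ℝ) ^ ((1 : ℝ) / 5 + δ + ((1 : ℝ) / 5 + δ) + ((1 : ℝ) / 5 + δ)) := by
              rw [Real.rpow_add hN0 ((1 : ℝ) / 5 + δ + ((1 : ℝ) / 5 + δ)), Real.rpow_add hN0 ((1 : ℝ) / 5 + δ)]
          _ ≤ _ := hmono (by linarith)
      have e4 : (b : ℝ) ≤ (N : ℝ) ^ ((3 : ℝ) / 5 + 3 * δ) := hbu.trans (hmono (by linarith))
      have hPG0 : 0 ≤ (∏ i, (K i : ℝ)) / ∏ i, (t i : ℝ) := by positivity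
      have h2 : C1 * (N : ℝ) ^ δ * ((∏ i, (K i : ℝ)) / ∏ i, (t i : ℝ)) *
          ((∏ i, (K i : ℝ)) / b + (K 0 : ℝ) * K 1 + (K 2 : ℝ) * K 3 * K 4 + b) ≤
          C1 * (N : ℝ) ^ δ * (N : ℝ) ^ (1 - γ) * (4 * (N : ℝ) ^ ((3 : ℝ) / 5 + 3 * δ)) := by
        refine mul_le_mul (mul_le_mul_of_nonneg_left hPG (by positivity)) (by linarith) (by positivity)
          (by positivity)
      have h3 : C1 * (N : ℝ) ^ δ * (N : ℝ) ^ (1 - γ) * (4 * (N : ℝ) ^ ((3 : ℝ) / 5 + 3 * δ)) =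
          4 * C1 * (N : ℝ) ^ (δ + (1 - γ) + ((3 : ℝ) / 5 + 3 * δ)) := by
        rw [Real.rpow_add hN0 (δ + (1 - γ)), Real.rpow_add hN0 δ]
        ring
      have h4 : (N : ℝ) ^ (δ + (1 - γ) + ((3 : ℝ) / 5 + 3 * δ)) ≤ ((N : ℝ) ^ ((4 : ℝ) / 5 - 2 * δ)) ^ 2 := by
        rw [← Real.rpow_natCast ((N : ℝ) ^ ((4 : ℝ) / 5 - 2 * δ)) 2, ← Real.rpow_mul hN0.le]
        refine hmono ?_
        push_cast
        linarith
      have h5 : (4 : ℝ) * C1 * ((N : ℝ) ^ ((4 : ℝ) / 5 - 2 * δ)) ^ 2 =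
          (2 * Real.sqrt C1 * (N : ℝ) ^ ((4 : ℝ) / 5 - 2 * δ)) ^ 2 := by
        have := Real.sq_sqrt hC1.le
        calc (4 : ℝ) * C1 * ((N : ℝ) ^ ((4 : ℝ) / 5 - 2 * δ)) ^ 2
            = 4 * (Real.sqrt C1 ^ 2) * ((N : ℝ) ^ ((4 : ℝ) / 5 - 2 * δ)) ^ 2 := by rw [this]
          _ = _ := by ring
      have h6 := h1.trans (h2.trans (h3.le.trans ((mul_le_mul_of_nonneg_left h4 (by positivity)).trans h5.le)))
      have h7 := abs_le_of_sq_le_sq' h6 (by positivity)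
      calc _ ≤ 2 * Real.sqrt C1 * (N : ℝ) ^ ((4 : ℝ) / 5 - 2 * δ) := h7.2
        _ ≤ _ := mul_le_mul_of_nonneg_right (by linarith) (by positivity)
  have h5 := five_dec hb hab f X hB
  refine h5.trans ?_
  have hd : (b.divisors.card : ℝ) ^ 5 ≤ C2 ^ 5 * (N : ℝ) ^ δ := by
    have h1 := hD b (by omega)
    have h2 : (b : ℝ) ^ (δ / 5) ≤ (N : ℝ) ^ (δ / 5) := Real.rpow_le_rpow (by positivity) hbN (by positivity)
    calc (b.divisors.card : ℝ) ^ 5 ≤ (C2 * (N : ℝ) ^ (δ / 5)) ^ 5 :=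
          pow_le_pow_left₀ (by positivity) (h1.trans (mul_le_mul_of_nonneg_left h2 hC2.le)) 5
      _ = C2 ^ 5 * (N : ℝ) ^ δ := by
          rw [mul_pow, ← Real.rpow_natCast ((N : ℝ) ^ (δ / 5)) 5, ← Real.rpow_mul hN0.le]
          congr 2
          push_cast
          ring
  have hE : (N : ℝ) ^ δ * (N : ℝ) ^ ((4 : ℝ) / 5 - 2 * δ) = (N : ℝ) ^ ((4 : ℝ) / 5 - δ) := by
    rw [← Real.rpow_add hN0]
    congr 1
    ring
  calc (b.divisors.card : ℝ) ^ 5 * ((2 * Real.sqrt C1 + C2) * (N : ℝ) ^ ((4 : ℝ) / 5 - 2 * δ))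
      ≤ (C2 ^ 5 * (N : ℝ) ^ δ) * ((2 * Real.sqrt C1 + C2) * (N : ℝ) ^ ((4 : ℝ) / 5 - 2 * δ)) :=
        mul_le_mul_of_nonneg_right hd (by positivity)
    _ = C2 ^ 5 * (2 * Real.sqrt C1 + C2) * ((N : ℝ) ^ δ * (N : ℝ) ^ ((4 : ℝ) / 5 - 2 * δ)) := by ring
    _ = C2 ^ 5 * (2 * Real.sqrt C1 + C2) * (N : ℝ) ^ ((4 : ℝ) / 5 - δ) := by rw [hE]
    _ ≤ _ := mul_le_mul_of_nonneg_right (by linarith [(Nat.cast_nonneg N1 : (0:ℝ) ≤ N1), (Nat.cast_nonneg N2 : (0:ℝ) ≤ N2)]) (by positivity)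

end Pool.Helper19.V4
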