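import Pool.Agent.Helper19.V4.PartSum
import Pool.Agent.Helper19.V4.Dyad
import Pool.Agent.Helper19.V4.Comb
import Pool.Agent.Helper19.V4.BoxOne
import Pool.Agent.Helper19.V4.BoxTwo
import Pool.Agent.Helper19.V4.FiveBox
import Pool.Agent.Helper19.V4.Quintic

/-!
# V4-17: assembly

`z = ⌈N^(1/5)⌉`, `d` small. For a box with `∏ K ≤ M ≤ N` (otherwise `box_zero`) put `α i = log (K i) / log N`, `σ = ∑ α ≤ 1`. If some `α i > 1/5 + d`: then (large `N`) `K i > z`, so `f i` is smooth: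
`box_one`: `C N^ε (N/b + N^(4/5 - d) + b)`. Otherwise `comb`: either `T` with `2σ - 8/5 + 2d ≤ s ≤ 8/5 - σ - 2d`, `s = ∑_T α`: `box_two`: `|SF|² ≤ C N^ε N^σ (N^σ/b + N^s + N^(σ - s) + b) ≤ C N^(8/5 - 2d + ε)`;
or `five_box` with `R = ∏_{Tᶜ} K ≤ N^(10 d)` and `quintic` (`b' ≥ b/(16 R)`): `C N^ε N^(10 d) N^(4/5 - δ)`. Then `dyad` (loss `log^9`).
`main_rat`: the bound for `F_M(a/b)`, `M ≤ N`; `main`: `partsum`.
-/

namespace Pool.Helper19.V4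

open ArithmeticFunction Finset

private lemma log_pow19 {e : ℝ} (he : 0 < e) : ∃ C : ℝ, 0 < C ∧ ∀ N : ℕ, 1 ≤ N →
    ((Nat.log 2 N : ℝ) + 1) ^ 9 ≤ C * (N : ℝ) ^ e := by
  have hl : 0 < Real.log 2 := Real.log_pos one_lt_two
  refine ⟨(1 / (e / 9) / Real.log 2 + 1) ^ 9, by positivity, fun N hN => ?_⟩
  have hN1 : (1 : ℝ) ≤ N := by exact_mod_cast hN
  have hN0 : (0 : ℝ) < N := by linarith
  have h1 : (Nat.log 2 N : ℝ) ≤ Real.logb 2 N := by exact_mod_cast Real.natLog_le_logb N 2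
  have h2 : Real.log N ≤ (N : ℝ) ^ (e / 9) / (e / 9) := Real.log_le_rpow_div hN0.le (by positivity)
  have h3 : (1 : ℝ) ≤ (N : ℝ) ^ (e / 9) := Real.one_le_rpow hN1 (by positivity)
  have h4 : (Nat.log 2 N : ℝ) + 1 ≤ (1 / (e / 9) / Real.log 2 + 1) * (N : ℝ) ^ (e / 9) := by
    have h5 : Real.logb 2 N ≤ ((N : ℝ) ^ (e / 9) / (e / 9)) / Real.log 2 := by
      unfold Real.logb
      gcongr
    have h6 : ((N : ℝ) ^ (e / 9) / (e / 9)) / Real.log 2 = (1 / (e / 9) / Real.log 2) * (N : ℝ) ^ (e / 9) := by ring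
    rw [h6] at h5
    nlinarith
  have h7 : ((N : ℝ) ^ (e / 9)) ^ 9 = (N : ℝ) ^ e := by
    rw [← Real.rpow_natCast, ← Real.rpow_mul hN0.le]
    congr 1
    push_cast
    ring
  calc ((Nat.log 2 N : ℝ) + 1) ^ 9 ≤ ((1 / (e / 9) / Real.log 2 + 1) * (N : ℝ) ^ (e / 9)) ^ 9 :=
        pow_le_pow_left₀ (by positivity) h4 9
    _ = _ := by rw [mul_pow, h7]

private lemma ev_ge19 {e : ℝ} (he : 0 < e) (c : ℝ) : ∃ N0 : ℕ, ∀ N : ℕ, N0 ≤ N → c ≤ (N : ℝ) ^ e := by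
  have ht : Filter.Tendsto (fun N : ℕ => ((N : ℝ)) ^ e) Filter.atTop Filter.atTop :=
    (tendsto_rpow_atTop he).comp tendsto_natCast_atTop_atTop
  exact Filter.eventually_atTop.1 (ht.eventually_ge_atTop c)

/-- the number of the factors of the cube root -/
private lemma zed19 {e : ℝ} (he : 0 < e) : ∃ N0 : ℕ, ∀ N : ℕ, N0 ≤ N →
    (⌈(N : ℝ) ^ ((1 : ℝ) / 5)⌉₊ : ℝ) ≤ (N : ℝ) ^ ((1 : ℝ) / 5 + e) := by
  obtain ⟨N0, h0⟩ := ev_ge19 he 2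
  refine ⟨max N0 1, fun N hN => ?_⟩
  have hN0 : N0 ≤ N := (le_max_left _ _).trans hN
  have hN1 : 1 ≤ N := (le_max_right _ _).trans hN
  have hNr : (1 : ℝ) ≤ N := by exact_mod_cast hN1
  have h1 : (1 : ℝ) ≤ (N : ℝ) ^ ((1 : ℝ) / 5) := Real.one_le_rpow hNr (by norm_num)
  have h2 := (Nat.ceil_lt_add_one (show (0 : ℝ) ≤ (N : ℝ) ^ ((1 : ℝ) / 5) by positivity)).le
  have h3 := h0 N hN0
  rw [Real.rpow_add (by linarith)]
  nlinarith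

/-- all boxes -/
private lemma boxes19 {κ0 κ1 κ0' : ℝ} (hκ0 : 2 / 5 < κ0) (hκ0' : κ0 < κ0') (hκ1 : κ1 < 3 / 5) (h : LVN κ0 κ1) :
    ∃ d : ℝ, 0 < d ∧ d < 1 ∧ ∃ C : ℝ, 0 < C ∧ ∃ N0 : ℕ, 2 ≤ N0 ∧ ∀ N : ℕ, N0 ≤ N → ∀ (a : ℤ) (b : ℕ), 1 ≤ b → IsCoprime a (b : ℤ) →
      (N : ℝ) ^ κ0' ≤ b → (b : ℝ) ≤ (N : ℝ) ^ κ1 →
      ∀ M ≤ N, ∀ k ≤ 9, ∀ (f : Fin k → ArithmeticFunction ℂ) (K : Fin k → ℕ), (∀ i, Pc (K i) (f i)) →
      (∀ i, Sm (K i) (f i) ∨ K i ≤ ⌈(N : ℝ) ^ ((1 : ℝ) / 5)⌉₊) → ‖SF (∏ i, f i) M a b‖ ≤ C * (N : ℝ) ^ ((4 : ℝ) / 5 - d) := by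
  classical
  obtain ⟨κ, hκ⟩ : ∃ κ : ℝ, κ = (κ0 + κ0') / 2 := ⟨_, rfl⟩
  have hκa : κ0 < κ := by rw [hκ]; linarith
  have hκb : κ < κ0' := by rw [hκ]; linarith
  obtain ⟨δ, hδ, C5, hC5, hq⟩ := quintic hκ0 hκa hκ1.le h
  -- the parameter
  set d : ℝ := min (min (1 / 1000) (δ / 12)) (min ((κ0' - κ) / 20) (min ((κ0' - 2 / 5) / 2) ((3 / 5 - κ1) / 2))) with hd
  have hd0 : 0 < d := by
    rw [hd]
    refine lt_min (lt_min (by norm_num) (by positivity)) (lt_min (by linarith) (lt_min (by linarith) (by linarith)))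
  have hd1 : d ≤ 1 / 1000 := (min_le_left _ _).trans (min_le_left _ _)
  have hd2 : d ≤ δ / 12 := (min_le_left _ _).trans (min_le_right _ _)
  have hd3 : d ≤ (κ0' - κ) / 20 := (min_le_right _ _).trans (min_le_left _ _)
  have hd4 : d ≤ (κ0' - 2 / 5) / 2 := (min_le_right _ _).trans ((min_le_right _ _).trans (min_le_left _ _))
  have hd5 : d ≤ (3 / 5 - κ1) / 2 := (min_le_right _ _).trans ((min_le_right _ _).trans (min_le_right _ _))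
  clear_value d
  obtain ⟨C1, hC1, h1⟩ := box_one (ε := d / 2) (by positivity)
  obtain ⟨C2, hC2, h2⟩ := box_two (ε := d) hd0
  obtain ⟨C3, hC3, h3⟩ := five_box (ε := d) hd0
  obtain ⟨N1, hN1⟩ := zed19 hd0
  obtain ⟨N2, hN2⟩ := ev_ge19 (e := (κ0' - κ) / 2) (by linarith) 16
  refine ⟨d / 2, by positivity, by linarith, 3 * C1 + 2 * Real.sqrt C2 + C3 * C5, by positivity, max (max N1 N2) 2,
    le_max_right _ _, fun N hN a b hb hab hb0 hb1 M hM k hk f K hf hsm => ?_⟩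
  have hNa : N1 ≤ N := ((le_max_left _ _).trans (le_max_left _ _)).trans hN
  have hNb : N2 ≤ N := ((le_max_right _ _).trans (le_max_left _ _)).trans hN
  have hNc : 2 ≤ N := (le_max_right _ _).trans hN
  have hNr : (2 : ℝ) ≤ N := by exact_mod_cast hNc
  have hN1r : (1 : ℝ) ≤ N := by linarith
  have hNp : (0 : ℝ) < N := by linarith
  have hbp : (0 : ℝ) < b := by exact_mod_cast hb
  have hmono : ∀ {x y : ℝ}, x ≤ y → (N : ℝ) ^ x ≤ (N : ℝ) ^ y := fun hxy => Real.rpow_le_rpow_of_exponent_le hN1r hxy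
  have hbN : b ≤ N := by
    have : (b : ℝ) ≤ N := hb1.trans ((hmono (show κ1 ≤ 1 by linarith)).trans (le_of_eq (Real.rpow_one _)))
    exact_mod_cast this
  rcases lt_or_ge M (∏ i, K i) with hlt | hge
  · rw [box_zero hf hlt, norm_zero]
    positivity
  have hPN : ∏ i, K i ≤ N := hge.trans hM
  have hX0 : 0 < (N : ℝ) ^ ((4 : ℝ) / 5 - d / 2) := by positivity
  have hC1' : 0 ≤ 3 * C1 * (N : ℝ) ^ ((4 : ℝ) / 5 - d / 2) := by positivity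
  have hC2' : 0 ≤ 2 * Real.sqrt C2 * (N : ℝ) ^ ((4 : ℝ) / 5 - d / 2) := by positivity
  have hC3' : 0 ≤ C3 * C5 * (N : ℝ) ^ ((4 : ℝ) / 5 - d / 2) := by positivity
  have hsum : (3 * C1 + 2 * Real.sqrt C2 + C3 * C5) * (N : ℝ) ^ ((4 : ℝ) / 5 - d / 2) =
      3 * C1 * (N : ℝ) ^ ((4 : ℝ) / 5 - d / 2) + 2 * Real.sqrt C2 * (N : ℝ) ^ ((4 : ℝ) / 5 - d / 2) +
        C3 * C5 * (N : ℝ) ^ ((4 : ℝ) / 5 - d / 2) := by ring
  rw [hsum]
  -- the terms with `b`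
  have hNb' : (N : ℝ) / b ≤ (N : ℝ) ^ (1 - κ0') := by
    rw [div_le_iff₀ hbp, Real.rpow_sub hNp, Real.rpow_one]
    have h0 : 0 < (N : ℝ) ^ κ0' := by positivity
    rw [div_mul_eq_mul_div, le_div_iff₀ h0]
    exact mul_le_mul_of_nonneg_left hb0 hNp.le
  by_cases hbig : ∃ i, (N : ℝ) ^ ((1 : ℝ) / 5 + d) < K i
  · obtain ⟨i0, hi0⟩ := hbig
    have hS : Sm (K i0) (f i0) := by
      rcases hsm i0 with h | h
      · exact h
      · exfalso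
        have e1 : (K i0 : ℝ) ≤ (⌈(N : ℝ) ^ ((1 : ℝ) / 5)⌉₊ : ℝ) := by exact_mod_cast h
        have e2 := hN1 N hNa
        linarith
    have e1 := h1 N hNc a b hb hbN hab k hk f K hf i0 hS M hM
    have e2 : (N : ℝ) / K i0 ≤ (N : ℝ) ^ ((4 : ℝ) / 5 - d) := by
      have h0 : 0 < (N : ℝ) ^ ((1 : ℝ) / 5 + d) := by positivity
      have h4 : (N : ℝ) ^ ((4 : ℝ) / 5 - d) = N / (N : ℝ) ^ ((1 : ℝ) / 5 + d) := by
        rw [eq_div_iff h0.ne', ← Real.rpow_add hNp]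
        have : (4 : ℝ) / 5 - d + (1 / 5 + d) = 1 := by ring
        rw [this, Real.rpow_one]
      rw [h4]
      exact div_le_div_of_nonneg_left hNp.le h0 hi0.le
    have e3 : (N : ℝ) / b ≤ (N : ℝ) ^ ((4 : ℝ) / 5 - d) := hNb'.trans (hmono (by linarith))
    have e4 : (b : ℝ) ≤ (N : ℝ) ^ ((4 : ℝ) / 5 - d) := hb1.trans (hmono (by linarith))
    have e5 : C1 * (N : ℝ) ^ (d / 2) * ((N : ℝ) / b + (N : ℝ) / K i0 + b) ≤ 3 * C1 * (N : ℝ) ^ ((4 : ℝ) / 5 - d / 2) := by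
      have e6 : (N : ℝ) ^ ((4 : ℝ) / 5 - d / 2) = (N : ℝ) ^ (d / 2) * (N : ℝ) ^ ((4 : ℝ) / 5 - d) := by
        rw [← Real.rpow_add hNp]
        congr 1
        ring
      rw [e6]
      have e7 : (N : ℝ) / b + (N : ℝ) / K i0 + b ≤ 3 * (N : ℝ) ^ ((4 : ℝ) / 5 - d) := by linarith
      calc C1 * (N : ℝ) ^ (d / 2) * ((N : ℝ) / b + (N : ℝ) / K i0 + b)
          ≤ C1 * (N : ℝ) ^ (d / 2) * (3 * (N : ℝ) ^ ((4 : ℝ) / 5 - d)) := mul_le_mul_of_nonneg_left e7 (by positivity)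
        _ = _ := by ring
    linarith
  push Not at hbig
  -- exponents
  have hK1 : ∀ i, (1 : ℝ) ≤ K i := fun i => by exact_mod_cast (hf i).pos
  have hKp : ∀ i, (0 : ℝ) < K i := fun i => lt_of_lt_of_le one_pos (hK1 i)
  set α : Fin k → ℝ := fun i => Real.logb N (K i) with hα
  have hαK : ∀ i, (N : ℝ) ^ α i = K i := fun i => Real.rpow_logb hNp (by linarith) (hKp i)
  have hα0 : ∀ i, 0 ≤ α i := fun i => Real.logb_nonneg (by linarith) (hK1 i)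
  have hαS : ∀ S : Finset (Fin k), ∏ i ∈ S, (K i : ℝ) = (N : ℝ) ^ ∑ i ∈ S, α i := by
    intro S
    rw [Real.rpow_sum_of_pos hNp]
    exact (Finset.prod_congr rfl fun i _ => hαK i).symm
  have hα1 : ∀ i, α i ≤ 1 / 5 + d := by
    intro i
    rw [← Real.rpow_le_rpow_left_iff (x := (N : ℝ)) (by linarith), hαK]
    exact hbig i
  have hσ : ∑ i, α i ≤ 1 := by
    rw [← Real.rpow_le_rpow_left_iff (x := (N : ℝ)) (by linarith), ← hαS, Real.rpow_one]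
    exact_mod_cast hPN
  obtain ⟨σ, hσd⟩ : ∃ σ : ℝ, σ = ∑ i, α i := ⟨_, rfl⟩
  have hσ0 : 0 ≤ σ := by rw [hσd]; exact Finset.sum_nonneg fun i _ => hα0 i
  rcases comb α hd0 hd1 hα0 hα1 hσ with ⟨T, hT1, hT2⟩ | ⟨T, hT, hTc⟩
  · -- bilinear
    have e1 := h2 N hNc a b hb hab k hk f K hf T M hM
    have hsplit : ∑ i ∈ T, α i + ∑ i ∈ Tᶜ, α i = σ := by rw [hσd]; exact Finset.sum_add_sum_compl T α
    rw [hαS T, hαS Tᶜ] at e1
    rw [← hσd] at hT1 hT2 hσ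
    obtain ⟨s, hs⟩ : ∃ s : ℝ, s = ∑ i ∈ T, α i := ⟨_, rfl⟩
    have hs' : ∑ i ∈ Tᶜ, α i = σ - s := by linarith
    rw [hs', ← hs] at e1
    rw [← hs] at hT1 hT2
    rw [← Real.rpow_add hNp] at e1
    have e0 : s + (σ - s) = σ := by ring
    rw [e0] at e1
    -- the four terms
    have t1 : (N : ℝ) ^ σ * ((N : ℝ) ^ σ / b) ≤ (N : ℝ) ^ ((8 : ℝ) / 5 - 2 * d) := by
      have e2 : (N : ℝ) ^ σ ≤ N := (hmono hσ).trans (le_of_eq (Real.rpow_one _))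
      have e3 : (N : ℝ) ^ σ / b ≤ (N : ℝ) ^ (1 - κ0') := by
        refine le_trans ?_ hNb'
        exact div_le_div_of_nonneg_right e2 hbp.le
      calc (N : ℝ) ^ σ * ((N : ℝ) ^ σ / b) ≤ (N : ℝ) ^ σ * (N : ℝ) ^ (1 - κ0') := mul_le_mul_of_nonneg_left e3 (by positivity)
        _ = (N : ℝ) ^ (σ + (1 - κ0')) := by rw [Real.rpow_add hNp]
        _ ≤ _ := hmono (by linarith)
    have t2 : (N : ℝ) ^ σ * (N : ℝ) ^ s ≤ (N : ℝ) ^ ((8 : ℝ) / 5 - 2 * d) := by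
      rw [← Real.rpow_add hNp]
      exact hmono (by linarith)
    have t3 : (N : ℝ) ^ σ * (N : ℝ) ^ (σ - s) ≤ (N : ℝ) ^ ((8 : ℝ) / 5 - 2 * d) := by
      rw [← Real.rpow_add hNp]
      exact hmono (by linarith)
    have t4 : (N : ℝ) ^ σ * b ≤ (N : ℝ) ^ ((8 : ℝ) / 5 - 2 * d) := by
      calc (N : ℝ) ^ σ * b ≤ (N : ℝ) ^ σ * (N : ℝ) ^ κ1 := mul_le_mul_of_nonneg_left hb1 (by positivity)
        _ = (N : ℝ) ^ (σ + κ1) := by rw [Real.rpow_add hNp]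
        _ ≤ _ := hmono (by linarith)
    have e2 : ‖SF (∏ i, f i) M a b‖ ^ 2 ≤ (2 * Real.sqrt C2 * (N : ℝ) ^ ((4 : ℝ) / 5 - d / 2)) ^ 2 := by
      refine e1.trans ?_
      have e3 : (2 * Real.sqrt C2 * (N : ℝ) ^ ((4 : ℝ) / 5 - d / 2)) ^ 2 = C2 * (N : ℝ) ^ d * (4 * (N : ℝ) ^ ((8 : ℝ) / 5 - 2 * d)) := by
        have e4 : ((N : ℝ) ^ ((4 : ℝ) / 5 - d / 2)) ^ 2 = (N : ℝ) ^ d * (N : ℝ) ^ ((8 : ℝ) / 5 - 2 * d) := by
          rw [← Real.rpow_natCast, ← Real.rpow_mul hNp.le, ← Real.rpow_add hNp]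
          congr 1
          push_cast
          ring
        rw [mul_pow, mul_pow, Real.sq_sqrt hC2.le, e4]
        ring
      rw [e3]
      have e5 : C2 * (N : ℝ) ^ d * (N : ℝ) ^ σ * ((N : ℝ) ^ σ / b + (N : ℝ) ^ s + (N : ℝ) ^ (σ - s) + b) =
          C2 * (N : ℝ) ^ d * ((N : ℝ) ^ σ * ((N : ℝ) ^ σ / b) + (N : ℝ) ^ σ * (N : ℝ) ^ s + (N : ℝ) ^ σ * (N : ℝ) ^ (σ - s) +
            (N : ℝ) ^ σ * b) := by ring
      rw [e5]
      refine mul_le_mul_of_nonneg_left ?_ (by positivity)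
      linarith
    have e3 : ‖SF (∏ i, f i) M a b‖ ≤ 2 * Real.sqrt C2 * (N : ℝ) ^ ((4 : ℝ) / 5 - d / 2) :=
      (sq_le_sq₀ (norm_nonneg _) hC2').1 e2
    linarith
  · -- five variables
    have hR : (∏ i ∈ Tᶜ, (K i : ℝ)) ≤ (N : ℝ) ^ (10 * d) := by
      rw [hαS Tᶜ]
      exact hmono hTc
    have e1 := h3 N hNc a b hb hab k hk f K hf T hT (C5 * (N : ℝ) ^ ((4 : ℝ) / 5 - δ)) (by positivity) ?_ M hM
    · have e2 : C3 * (N : ℝ) ^ d * (∏ i ∈ Tᶜ, (K i : ℝ)) * (C5 * (N : ℝ) ^ ((4 : ℝ) / 5 - δ)) ≤ C3 * C5 * (N : ℝ) ^ ((4 : ℝ) / 5 - d / 2) := by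
        have e3 : C3 * (N : ℝ) ^ d * (∏ i ∈ Tᶜ, (K i : ℝ)) * (C5 * (N : ℝ) ^ ((4 : ℝ) / 5 - δ)) ≤
            C3 * (N : ℝ) ^ d * (N : ℝ) ^ (10 * d) * (C5 * (N : ℝ) ^ ((4 : ℝ) / 5 - δ)) := by
          refine mul_le_mul_of_nonneg_right (mul_le_mul_of_nonneg_left hR (by positivity)) (by positivity)
        have e4 : C3 * (N : ℝ) ^ d * (N : ℝ) ^ (10 * d) * (C5 * (N : ℝ) ^ ((4 : ℝ) / 5 - δ)) =
            C3 * C5 * (N : ℝ) ^ (d + 10 * d + ((4 : ℝ) / 5 - δ)) := by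
          rw [Real.rpow_add hNp, Real.rpow_add hNp]
          ring
        have e5 : C3 * C5 * (N : ℝ) ^ (d + 10 * d + ((4 : ℝ) / 5 - δ)) ≤ C3 * C5 * (N : ℝ) ^ ((4 : ℝ) / 5 - d / 2) :=
          mul_le_mul_of_nonneg_left (hmono (by linarith)) (by positivity)
        linarith
      linarith
    · intro a' b' hb' hab' hdvd hle g hg X hX
      have hb'p : (0 : ℝ) < b' := by exact_mod_cast hb'
      have hprod : ∏ j : Fin 5, K (T.orderEmbOfFin hT j) = ∏ i ∈ T, K i := by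
        conv_rhs => rw [← Finset.map_orderEmbOfFin_univ T hT]
        rw [Finset.prod_map]
        rfl
      have hTN : ∏ i ∈ T, K i ≤ N := by
        refine le_trans ?_ hPN
        rw [← Finset.prod_mul_prod_compl T K]
        exact Nat.le_mul_of_pos_right _ (Finset.prod_pos fun i _ => (hf i).pos)
      have hb'b : b' ≤ b := Nat.le_of_dvd hb hdvd
      have hb'1 : (b' : ℝ) ≤ (N : ℝ) ^ κ1 := le_trans (by exact_mod_cast hb'b) hb1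
      have hb'0 : (N : ℝ) ^ κ ≤ b' := by
        have e2 : (b : ℝ) ≤ 16 * (∏ i ∈ Tᶜ, (K i : ℝ)) * b' := by exact_mod_cast hle
        have e3 : (b : ℝ) ≤ 16 * (N : ℝ) ^ (10 * d) * b' := by
          refine e2.trans (mul_le_mul_of_nonneg_right (mul_le_mul_of_nonneg_left hR (by norm_num)) hb'p.le)
        have e4 : (16 : ℝ) ≤ (N : ℝ) ^ ((κ0' - κ) / 2) := hN2 N hNb
        have e5 : 16 * (N : ℝ) ^ (10 * d) ≤ (N : ℝ) ^ (κ0' - κ) := by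
          have e6 : (N : ℝ) ^ (10 * d) ≤ (N : ℝ) ^ ((κ0' - κ) / 2) := hmono (by linarith)
          have e7 : (N : ℝ) ^ (κ0' - κ) = (N : ℝ) ^ ((κ0' - κ) / 2) * (N : ℝ) ^ ((κ0' - κ) / 2) := by
            rw [← Real.rpow_add hNp]
            congr 1
            ring
          rw [e7]
          exact mul_le_mul e4 e6 (by positivity) (by positivity)
        have e6 : (N : ℝ) ^ κ0' ≤ (N : ℝ) ^ (κ0' - κ) * b' :=
          (hb0.trans e3).trans (mul_le_mul_of_nonneg_right e5 hb'p.le)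
        have e7 : (N : ℝ) ^ κ0' = (N : ℝ) ^ (κ0' - κ) * (N : ℝ) ^ κ := by
          rw [← Real.rpow_add hNp]
          congr 1
          ring
        rw [e7] at e6
        exact le_of_mul_le_mul_left e6 (by positivity)
      refine hq N hNc a' b' hb' hab' hb'0 hb'1 g (fun j => K (T.orderEmbOfFin hT j)) hg ?_ ?_ X ?_
      · rw [hprod]
        exact hTN
      · intro j
        exact (hbig _).trans (hmono (by linarith))
      · rw [hprod]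
        exact hX

theorem main_rat {κ0 κ1 κ0' : ℝ} (hκ0 : 2 / 5 < κ0) (hκ0' : κ0 < κ0') (hκ1 : κ1 < 3 / 5) (h : LVN κ0 κ1) :
    ∃ d : ℝ, 0 < d ∧ ∃ C : ℝ, 0 < C ∧ ∀ N : ℕ, 1 ≤ N → ∀ (a : ℤ) (b : ℕ), 1 ≤ b → IsCoprime a (b : ℤ) →
      (N : ℝ) ^ κ0' ≤ b → (b : ℝ) ≤ (N : ℝ) ^ κ1 →
      ∀ M ≤ N, ‖FM M ((a : ℝ) / b)‖ ≤ C * (N : ℝ) ^ ((4 : ℝ) / 5 - d) := by
  obtain ⟨d, hd, hd1, C, hC, N0, hN0, hb⟩ := boxes19 hκ0 hκ0' hκ1 h
  obtain ⟨C', hC', hl⟩ := log_pow19 (e := d / 2) (by positivity)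
  refine ⟨min (d / 2) (1 / 5), lt_min (by positivity) (by norm_num), max (32 * C' * C) N0, by positivity, fun N hN a b hb1 hab h1 h2 M hM => ?_⟩
  have hN1 : (1 : ℝ) ≤ N := by exact_mod_cast hN
  have hNp : (0 : ℝ) < N := by linarith
  rcases lt_or_ge N N0 with hlt | hge
  · -- trivial bound
    have e1 : ‖FM M ((a : ℝ) / b)‖ ≤ M := by
      unfold FM
      have : ∀ n ∈ Icc 1 M, ‖((ArithmeticFunction.moebius n : ℤ) : ℂ) * ex (n * ((a : ℝ) / b))‖ ≤ 1 := by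
        intro n _
        rw [norm_mul, norm_ex, mul_one, Complex.norm_intCast]
        exact_mod_cast ArithmeticFunction.abs_moebius_le_one
      refine (norm_sum_le _ _).trans ((Finset.sum_le_card_nsmul _ _ _ this).trans ?_)
      simp
    have e2 : (1 : ℝ) ≤ (N : ℝ) ^ ((4 : ℝ) / 5 - min (d / 2) (1 / 5)) :=
      Real.one_le_rpow hN1 (by have := min_le_right (d / 2) ((1 : ℝ) / 5); linarith)
    have e3 : (M : ℝ) ≤ N0 := by exact_mod_cast (hM.trans hlt.le)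
    have e4 : (N0 : ℝ) ≤ max (32 * C' * C) N0 := le_max_right _ _
    have e5 : (0 : ℝ) ≤ N0 := by positivity
    nlinarith
  · have hN2 : 2 ≤ N := hN0.trans hge
    set z : ℕ := ⌈(N : ℝ) ^ ((1 : ℝ) / 5)⌉₊ with hz
    have hz1 : 1 ≤ z := by
      rw [hz, Nat.one_le_ceil_iff]
      positivity
    have hz5 : N ≤ z ^ 5 := by
      have e1 : (N : ℝ) ^ ((1 : ℝ) / 5) ≤ z := Nat.le_ceil _
      have e2 : ((N : ℝ) ^ ((1 : ℝ) / 5)) ^ 5 ≤ (z : ℝ) ^ 5 := pow_le_pow_left₀ (by positivity) e1 5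
      have e3 : ((N : ℝ) ^ ((1 : ℝ) / 5)) ^ 5 = N := by
        rw [← Real.rpow_natCast, ← Real.rpow_mul hNp.le]
        norm_num
      rw [e3] at e2
      exact_mod_cast e2
    have e1 := dyad hN2 hz1 hz5 (a := a) (b := b) (B := C * (N : ℝ) ^ ((4 : ℝ) / 5 - d)) (by positivity)
      (fun M hM k hk f K hf hsm => hb N hge a b hb1 hab h1 h2 M hM k hk f K hf hsm) M hM
    refine e1.trans ?_
    have e2 := hl N hN
    have e3 : 32 * ((Nat.log 2 N : ℝ) + 1) ^ 9 * (C * (N : ℝ) ^ ((4 : ℝ) / 5 - d)) ≤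
        32 * (C' * (N : ℝ) ^ (d / 2)) * (C * (N : ℝ) ^ ((4 : ℝ) / 5 - d)) := by
      refine mul_le_mul_of_nonneg_right (mul_le_mul_of_nonneg_left e2 (by norm_num)) (by positivity)
    have e4 : 32 * (C' * (N : ℝ) ^ (d / 2)) * (C * (N : ℝ) ^ ((4 : ℝ) / 5 - d)) = 32 * C' * C * (N : ℝ) ^ ((4 : ℝ) / 5 - d / 2) := by
      have : (N : ℝ) ^ ((4 : ℝ) / 5 - d / 2) = (N : ℝ) ^ (d / 2) * (N : ℝ) ^ ((4 : ℝ) / 5 - d) := by
        rw [← Real.rpow_add hNp]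
        congr 1
        ring
      rw [this]
      ring
    have e5 : (N : ℝ) ^ ((4 : ℝ) / 5 - d / 2) ≤ (N : ℝ) ^ ((4 : ℝ) / 5 - min (d / 2) (1 / 5)) :=
      Real.rpow_le_rpow_of_exponent_le hN1 (by have := min_le_left (d / 2) ((1 : ℝ) / 5); linarith)
    calc _ ≤ 32 * C' * C * (N : ℝ) ^ ((4 : ℝ) / 5 - d / 2) := e3.trans (le_of_eq e4)
      _ ≤ max (32 * C' * C) N0 * (N : ℝ) ^ ((4 : ℝ) / 5 - min (d / 2) (1 / 5)) :=
        mul_le_mul (le_max_left _ _) e5 (by positivity) (by positivity)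

theorem main {κ0 κ1 κ0' : ℝ} (hκ0 : 2 / 5 < κ0) (hκ0' : κ0 < κ0') (hκ1 : κ1 < 3 / 5) (h : LVN κ0 κ1) :
    ∃ d : ℝ, 0 < d ∧ ∃ C : ℝ, 0 < C ∧ ∀ N : ℕ, 1 ≤ N → ∀ (x : ℝ) (a : ℤ) (b : ℕ), 1 ≤ b → IsCoprime a (b : ℤ) →
      (N : ℝ) ^ κ0' ≤ b → (b : ℝ) ≤ (N : ℝ) ^ κ1 →
        ‖FM N x‖ ≤ C * (1 + N * |x - a / b|) * (N : ℝ) ^ ((4 : ℝ) / 5 - d) := by
  obtain ⟨d, hd, C, hC, hm⟩ := main_rat hκ0 hκ0' hκ1 h
  refine ⟨d, hd, 2 * Real.pi * C, by positivity, fun N hN x a b hb hab h1 h2 => ?_⟩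
  have e1 := partsum (x := x) (y := (a : ℝ) / b) (hm N hN a b hb hab h1 h2)
  refine e1.trans ?_
  have hpi : (1 : ℝ) ≤ 2 * Real.pi := by have := Real.pi_gt_three; linarith
  have e2 : 1 + 2 * Real.pi * N * |x - a / b| ≤ 2 * Real.pi * (1 + N * |x - a / b|) := by
    have : 0 ≤ (N : ℝ) * |x - a / b| := by positivity
    nlinarith
  calc C * (N : ℝ) ^ ((4 : ℝ) / 5 - d) * (1 + 2 * Real.pi * N * |x - a / b|)
      ≤ C * (N : ℝ) ^ ((4 : ℝ) / 5 - d) * (2 * Real.pi * (1 + N * |x - a / b|)) :=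
        mul_le_mul_of_nonneg_left e2 (by positivity)
    _ = _ := by ring

end Pool.Helper19.V4
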