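import Pool.Agent.Helper19.V4.Prod

/-!
# V4-12: splitting off the common factors with `b`

`f = ∑_{g ∣ b} dl g * gp b g f` (at `n ≥ 1` only `g = gcd(n, b)` contributes, with the value `f n`); `dl g * dl h = dl (g h)`; hence
`∏_{i : Fin 5} f i = ∑_{t : Fin 5 → divisors of b} dl (∏ t) * ∏ gp b (t i) (f i)` (`Finset.prod_univ_sum`), and `SF (dl G * F) X a b = ∑_{m ≤ X/G} F(m) e(a G m / b) = SF F (X/G) a' b'` with
`b' = b / gcd(G, b)`, `a' = a (G / gcd(G, b))`, coprime to `b'`.
-/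

namespace Pool.Helper19.V4

open ArithmeticFunction Finset

theorem dl_mul_apply70 {G : ℕ} (hG : 1 ≤ G) (F : ArithmeticFunction ℂ) (n : ℕ) :
    (dl G * F) n = if G ∣ n then F (n / G) else 0 := by
  classical
  rcases eq_or_ne n 0 with rfl | hn
  · simp
  rw [ArithmeticFunction.mul_apply, Nat.sum_divisorsAntidiagonal (f := fun x y => dl G x * F y)]
  have h1 : ∀ i, dl G i = if i = G then 1 else 0 := by
    intro i
    change (if i = G ∧ i ≠ 0 then (1 : ℂ) else 0) = _
    by_cases h : i = G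
    · subst h
      simp; omega
    · simp [h]
  simp_rw [h1, ite_mul, one_mul, zero_mul]
  rw [Finset.sum_ite_eq' n.divisors G (fun i => F (n / i))]
  simp [Nat.mem_divisors, hn]

theorem dl_mul_dl70 {g h : ℕ} (hg : 1 ≤ g) (hh : 1 ≤ h) : dl g * dl h = dl (g * h) := by
  ext n
  rw [dl_mul_apply70 hg]
  change (if g ∣ n then (if n / g = h ∧ n / g ≠ 0 then (1 : ℂ) else 0) else 0) =
    if n = g * h ∧ n ≠ 0 then 1 else 0
  by_cases h1 : g ∣ n
  · obtain ⟨m, rfl⟩ := h1
    rw [if_pos (Dvd.intro _ rfl), Nat.mul_div_cancel_left _ (by omega)]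
    have hg0 : g ≠ 0 := by omega
    by_cases h2 : m = h
    · subst h2
      have hm : m ≠ 0 := by omega
      simp [hm, hg0]
    · have h3 : g * m ≠ g * h := fun h4 => h2 (Nat.eq_of_mul_eq_mul_left (by omega) h4)
      simp [h2, h3]
  · rw [if_neg h1, if_neg]
    rintro ⟨rfl, -⟩
    exact h1 (Dvd.intro _ rfl)

theorem dl_one70 : dl 1 = 1 := by
  ext n
  rw [ArithmeticFunction.one_apply]
  change (if n = 1 ∧ n ≠ 0 then (1 : ℂ) else 0) = _
  by_cases h : n = 1
  · subst h; simp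
  · simp [h]

theorem prod_dl70 {ι : Type*} (s : Finset ι) (t : ι → ℕ) (ht : ∀ i, 1 ≤ t i) :
    ∏ i ∈ s, dl (t i) = dl (∏ i ∈ s, t i) := by
  classical
  induction s using Finset.induction_on with
  | empty => simp [dl_one70]
  | insert a s ha ih =>
    rw [Finset.prod_insert ha, Finset.prod_insert ha, ih, dl_mul_dl70 (ht a)]
    exact Nat.one_le_iff_ne_zero.2 (Finset.prod_ne_zero_iff.2 fun i _ => by
      have := ht i
      omega)

theorem gcd_dec {b : ℕ} (hb : 1 ≤ b) (f : ArithmeticFunction ℂ) : f = ∑ g ∈ b.divisors, dl g * gp b g f := by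
  classical
  ext n
  rcases eq_or_ne n 0 with rfl | hn
  · simp
  have h0 : (∑ g ∈ b.divisors, dl g * gp b g f) n = ∑ g ∈ b.divisors, (dl g * gp b g f) n := by
    induction b.divisors using Finset.induction_on with
    | empty => simp
    | insert a s ha ih =>
      rw [Finset.sum_insert ha, Finset.sum_insert ha, ArithmeticFunction.add_apply, ih]
  rw [h0]
  have h1 : ∀ g ∈ b.divisors, (dl g * gp b g f) n = if g = Nat.gcd n b then f n else 0 := by
    intro g hg
    have hg1 : 1 ≤ g := Nat.pos_of_mem_divisors hg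
    rw [dl_mul_apply70 hg1]
    by_cases h2 : g ∣ n
    · obtain ⟨m, rfl⟩ := h2
      rw [if_pos (Dvd.intro _ rfl), Nat.mul_div_cancel_left _ (by omega)]
      change (if Nat.gcd (g * m) b = g then f (g * m) else 0) = _
      by_cases h3 : Nat.gcd (g * m) b = g
      · rw [if_pos h3, if_pos h3.symm]
      · rw [if_neg h3, if_neg fun h => h3 h.symm]
    · rw [if_neg h2, if_neg]
      rintro rfl
      exact h2 (Nat.gcd_dvd_left n b)
  rw [Finset.sum_congr rfl h1, Finset.sum_ite_eq' b.divisors (Nat.gcd n b) (fun _ => f n), if_pos]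
  rw [Nat.mem_divisors]
  exact ⟨Nat.gcd_dvd_right n b, by omega⟩

theorem SF_dl {a : ℤ} {b G : ℕ} (hb : 1 ≤ b) (hG : 1 ≤ G) (F : ArithmeticFunction ℂ) (X : ℕ) :
    SF (dl G * F) X a b = SF F (X / G) (a * (G / Nat.gcd G b : ℕ)) (b / Nat.gcd G b) := by
  classical
  unfold SF
  simp_rw [dl_mul_apply70 hG]
  symm
  refine Finset.sum_of_injOn (fun m => G * m) ?_ ?_ ?_ ?_
  · intro x _ y _ hxy
    exact Nat.eq_of_mul_eq_mul_left (by omega) hxy
  · intro m hm
    simp only [Finset.coe_Icc, Set.mem_Icc] at hm ⊢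
    constructor
    · nlinarith
    · have := (Nat.le_div_iff_mul_le (by omega)).1 hm.2
      rwa [mul_comm] at this
  · intro n hn hn'
    rw [if_neg, zero_mul]
    rintro ⟨m, rfl⟩
    apply hn'
    refine ⟨m, ?_, rfl⟩
    simp only [Finset.coe_Icc, Set.mem_Icc, Finset.mem_Icc] at hn ⊢
    constructor
    · rcases Nat.eq_zero_or_pos m with rfl | h
      · simp at hn
      · exact h
    · rw [Nat.le_div_iff_mul_le (by omega), mul_comm]
      exact hn.2
  · intro m _
    rw [if_pos (Dvd.intro _ rfl), Nat.mul_div_cancel_left _ (by omega)]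
    congr 2
    set d := Nat.gcd G b with hd
    have hd0 : 0 < d := Nat.gcd_pos_of_pos_left _ (by omega)
    have e1 : (G : ℝ) = d * ((G / d : ℕ) : ℝ) := by
      have := Nat.mul_div_cancel' (Nat.gcd_dvd_left G b)
      rw [← hd] at this
      exact_mod_cast this.symm
    have e2 : (b : ℝ) = d * ((b / d : ℕ) : ℝ) := by
      have := Nat.mul_div_cancel' (Nat.gcd_dvd_right G b)
      rw [← hd] at this
      exact_mod_cast this.symm
    have hdR : (d : ℝ) ≠ 0 := by exact_mod_cast hd0.ne'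
    rw [Int.cast_mul, Int.cast_natCast, Nat.cast_mul, e2]
    rw [e1]
    rcases eq_or_ne ((b / d : ℕ) : ℝ) 0 with h | h
    · simp [h]
    · field_simp

theorem coprime_red {a : ℤ} {b G : ℕ} (hb : 1 ≤ b) (hab : IsCoprime a (b : ℤ)) :
    IsCoprime (a * (G / Nat.gcd G b : ℕ)) ((b / Nat.gcd G b : ℕ) : ℤ) := by
  have hd0 : 0 < Nat.gcd G b := Nat.gcd_pos_of_pos_right _ (by omega)
  refine IsCoprime.mul_left ?_ ?_
  · refine hab.of_isCoprime_of_dvd_right ?_
    exact_mod_cast Nat.div_dvd_of_dvd (Nat.gcd_dvd_right G b)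
  · rw [Nat.isCoprime_iff_coprime]
    exact Nat.coprime_div_gcd_div_gcd hd0

theorem five_dec {a : ℤ} {b : ℕ} (hb : 1 ≤ b) (hab : IsCoprime a (b : ℤ)) (f : Fin 5 → ArithmeticFunction ℂ) (X : ℕ) {B : ℝ}
    (hB : ∀ t : Fin 5 → ℕ, (∀ i, t i ∈ b.divisors) →
      ‖SF (∏ i, gp b (t i) (f i)) (X / ∏ i, t i) (a * (((∏ i, t i) / Nat.gcd (∏ i, t i) b : ℕ) : ℤ)) (b / Nat.gcd (∏ i, t i) b)‖ ≤ B) :
    ‖SF (∏ i, f i) X a b‖ ≤ (b.divisors.card : ℝ) ^ 5 * B := by
  classical
  have h1 : ∏ i, f i = ∑ t ∈ Fintype.piFinset (fun _ : Fin 5 => b.divisors),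
      ∏ i, (dl (t i) * gp b (t i) (f i)) := by
    rw [← Finset.prod_univ_sum (fun _ : Fin 5 => b.divisors) (fun i g => dl g * gp b g (f i))]
    exact Finset.prod_congr rfl fun i _ => gcd_dec hb (f i)
  have hSF : ∀ (s : Finset (Fin 5 → ℕ)) (F : (Fin 5 → ℕ) → ArithmeticFunction ℂ),
      SF (∑ t ∈ s, F t) X a b = ∑ t ∈ s, SF (F t) X a b := by
    intro s F
    induction s using Finset.induction_on with
    | empty => simp [SF]
    | insert t s ht ih =>
      rw [Finset.sum_insert ht, Finset.sum_insert ht, ← ih]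
      unfold SF
      rw [← Finset.sum_add_distrib]
      refine Finset.sum_congr rfl fun n _ => ?_
      rw [ArithmeticFunction.add_apply, add_mul]
  rw [h1, hSF]
  refine (norm_sum_le _ _).trans ?_
  have h2 : ∀ t ∈ Fintype.piFinset (fun _ : Fin 5 => b.divisors),
      ‖SF (∏ i, (dl (t i) * gp b (t i) (f i))) X a b‖ ≤ B := by
    intro t ht
    rw [Fintype.mem_piFinset] at ht
    have ht1 : ∀ i, 1 ≤ t i := fun i => Nat.pos_of_mem_divisors (ht i)
    rw [Finset.prod_mul_distrib, prod_dl70 _ _ ht1, SF_dl hb]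
    · exact hB t ht
    · exact Nat.one_le_iff_ne_zero.2 (Finset.prod_ne_zero_iff.2 fun i _ => by
        have := ht1 i
        omega)
  refine (Finset.sum_le_card_nsmul _ _ _ h2).trans ?_
  rw [Fintype.card_piFinset, Finset.prod_const, Finset.card_univ, Fintype.card_fin, nsmul_eq_mul]
  push_cast
  exact le_rfl

end Pool.Helper19.V4
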