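import Pool.Agent.Helper19.V4.Defs

/-!
# V4-5: the identity of Heath-Brown, `K = 5`

In the commutative ring `ArithmeticFunction ℂ`, with `m = muz z`, `ζ` the zeta function, `μ * ζ = 1`: put `g = 1 - m * ζ`. Then `g n = 0` for `1 ≤ n ≤ z` (there `(m * ζ) n = (μ * ζ) n = 1 n`), so
`(g ^ 5 * μ) n = 0` for `n < (z + 1)^5` (a nonzero term needs five factors `≥ z + 1`; general lemma: if `f` vanishes below `A` and `g` below `B` then `f * g` vanishes below `A B`).
Binomial theorem: `g ^ 5 * μ = μ - ∑_{j=1}^5 (-1)^(j-1) C(5,j) m^j ζ^j μ = μ - ∑_j (-1)^(j-1) C(5,j) m^j ζ^(j-1)`.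
-/

namespace Pool.Helper19.V4

open ArithmeticFunction Finset
open scoped ArithmeticFunction.zeta

private theorem van_mul54 {f g : ArithmeticFunction ℂ} {A B : ℕ} (hf : ∀ n, n < A → f n = 0)
    (hg : ∀ n, n < B → g n = 0) : ∀ n, n < A * B → (f * g) n = 0 := by
  intro n hn
  rw [ArithmeticFunction.mul_apply]
  refine Finset.sum_eq_zero fun p hp => ?_
  have hp' := Nat.mem_divisorsAntidiagonal.mp hp
  by_cases h1 : p.1 < A
  · rw [hf _ h1, zero_mul]
  · by_cases h2 : p.2 < B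
    · rw [hg _ h2, mul_zero]
    · exfalso
      have := Nat.mul_le_mul (not_lt.mp h1) (not_lt.mp h2)
      rw [hp'.1] at this
      omega

private theorem van_g54 (z : ℕ) : ∀ n, n < z + 1 →
    ((1 : ArithmeticFunction ℂ) - muz z * (ArithmeticFunction.zeta : ArithmeticFunction ℂ)) n = 0 := by
  intro n hn
  have h1 : (muz z * (ArithmeticFunction.zeta : ArithmeticFunction ℂ)) n =
      (((ArithmeticFunction.moebius : ArithmeticFunction ℤ) : ArithmeticFunction ℂ) *
        (ArithmeticFunction.zeta : ArithmeticFunction ℂ)) n := by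
    rw [ArithmeticFunction.mul_apply, ArithmeticFunction.mul_apply]
    refine Finset.sum_congr rfl fun p hp => ?_
    have hp' := Nat.mem_divisorsAntidiagonal.mp hp
    have h2 : p.1 ≤ n := Nat.le_of_dvd (Nat.pos_of_ne_zero hp'.2) ⟨p.2, hp'.1.symm⟩
    congr 1
    change (if p.1 ≤ z then ((ArithmeticFunction.moebius p.1 : ℤ) : ℂ) else 0) =
      ((ArithmeticFunction.moebius p.1 : ℤ) : ℂ)
    rw [if_pos (by omega)]
  have h2 : ((1 : ArithmeticFunction ℂ) -
      muz z * (ArithmeticFunction.zeta : ArithmeticFunction ℂ)) n =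
      (1 : ArithmeticFunction ℂ) n -
        (muz z * (ArithmeticFunction.zeta : ArithmeticFunction ℂ)) n := rfl
  rw [h2, h1, ArithmeticFunction.coe_moebius_mul_coe_zeta, sub_self]

theorem heath_brown {z n : ℕ} (hn : 1 ≤ n) (h : n ≤ z ^ 5) :
    ((ArithmeticFunction.moebius n : ℤ) : ℂ) =
      ∑ j ∈ Icc 1 5, (-1 : ℂ) ^ (j - 1) * (Nat.choose 5 j : ℂ) *
        (muz z ^ j * (ArithmeticFunction.zeta : ArithmeticFunction ℂ) ^ (j - 1)) n := by
  set M : ArithmeticFunction ℂ :=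
    ((ArithmeticFunction.moebius : ArithmeticFunction ℤ) : ArithmeticFunction ℂ) with hM
  set Z : ArithmeticFunction ℂ := (ArithmeticFunction.zeta : ArithmeticFunction ℂ) with hZ
  set m : ArithmeticFunction ℂ := muz z with hm
  have hMZ : M * Z = 1 := ArithmeticFunction.coe_moebius_mul_coe_zeta
  set g : ArithmeticFunction ℂ := 1 - m * Z with hg
  have v1 : ∀ k, k < z + 1 → g k = 0 := van_g54 z
  have v2 := van_mul54 v1 v1
  have v4 := van_mul54 v2 v2
  have v5 := van_mul54 v4 v1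
  have v6 := van_mul54 (f := g * g * (g * g) * g) (g := M) (A := (z + 1) * (z + 1) * ((z + 1) * (z + 1)) * (z + 1)) (B := 1)
    v5 (by
      intro k hk
      have : k = 0 := by omega
      rw [this]
      exact M.map_zero)
  have hlt : n < (z + 1) * (z + 1) * ((z + 1) * (z + 1)) * (z + 1) * 1 := by
    have h1 : z ^ 5 < (z + 1) ^ 5 := Nat.pow_lt_pow_left (by omega) (by norm_num)
    calc n ≤ z ^ 5 := h
      _ < (z + 1) ^ 5 := h1
      _ = (z + 1) * (z + 1) * ((z + 1) * (z + 1)) * (z + 1) * 1 := by ring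
  have h0 := v6 n hlt
  -- the binomial theorem
  have hid : g * g * (g * g) * g * M = M - ((5 : ℤ) • m - (10 : ℤ) • (m ^ 2 * Z) +
      (10 : ℤ) • (m ^ 3 * Z ^ 2) - (5 : ℤ) • (m ^ 4 * Z ^ 3) + m ^ 5 * Z ^ 4) := by
    rw [hg]
    simp only [zsmul_eq_mul]
    push_cast
    linear_combination (-5 * m + 10 * m ^ 2 * Z - 10 * m ^ 3 * Z ^ 2 + 5 * m ^ 4 * Z ^ 3 -
      m ^ 5 * Z ^ 4) * hMZ
  let ev : ArithmeticFunction ℂ →+ ℂ :=
    { toFun := fun f => f n
      map_zero' := rfl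
      map_add' := fun _ _ => rfl }
  have h1 : ev (g * g * (g * g) * g * M) = 0 := h0
  rw [hid, map_sub, map_add, map_sub, map_add, map_sub, map_zsmul, map_zsmul, map_zsmul,
    map_zsmul] at h1
  simp only [zsmul_eq_mul] at h1
  have e1 : ev M = ((ArithmeticFunction.moebius n : ℤ) : ℂ) := rfl
  have hI : Icc 1 5 = ({1, 2, 3, 4, 5} : Finset ℕ) := by decide
  rw [hI, Finset.sum_insert (by decide), Finset.sum_insert (by decide),
    Finset.sum_insert (by decide), Finset.sum_insert (by decide), Finset.sum_singleton]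
  have f1 : (m ^ 1 * Z ^ (1 - 1)) n = ev m := by
    rw [Nat.sub_self, pow_zero, mul_one, pow_one]
    rfl
  have f2 : (m ^ 2 * Z ^ (2 - 1)) n = ev (m ^ 2 * Z) := by
    rw [show 2 - 1 = 1 from rfl, pow_one]
    rfl
  have f3 : (m ^ 3 * Z ^ (3 - 1)) n = ev (m ^ 3 * Z ^ 2) := rfl
  have f4 : (m ^ 4 * Z ^ (4 - 1)) n = ev (m ^ 4 * Z ^ 3) := rfl
  have f5 : (m ^ 5 * Z ^ (5 - 1)) n = ev (m ^ 5 * Z ^ 4) := rfl
  have c1 : Nat.choose 5 1 = 5 := by decide
  have c2 : Nat.choose 5 2 = 10 := by decide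
  have c3 : Nat.choose 5 3 = 10 := by decide
  have c4 : Nat.choose 5 4 = 5 := by decide
  have c5 : Nat.choose 5 5 = 1 := by decide
  rw [f1, f2, f3, f4, f5, c1, c2, c3, c4, c5, ← e1]
  push_cast at h1 ⊢
  linear_combination h1

end Pool.Helper19.V4
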