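import Pool.Agent.Helper19.V4.Gcd
import Pool.Agent.Helper19.V4.TypeTwo
import Pool.Agent.Helper69.FF.DivS

/-!
# V4-13: five variables with a large common factor

`gp b (t i) (f i)` is bounded by `1` and supported in `m < 2 K_i / t_i`. `SF_mul` with `A = ⌊4 K_0 K_1 / (t_0 t_1)⌋`, `B = ⌊8 K_2 K_3 K_4 / (t_2 t_3 t_4)⌋` (`A B ≤ 32 P / G ≤ X / G`, so there is no
cut-off; if `A = 0` or `B = 0` everything is `0`) and `type_two` modulo `b' = b / gcd(G, b) ≥ b / G`: `|SF|² ≤ C N^ε A B (A B / b' + A + B + b')`,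
`A B ≤ 32 P / G`, `A B / b' ≤ 32 P / b`, `A ≤ 4 K_0 K_1`, `B ≤ 8 K_2 K_3 K_4`, `b' ≤ b`.
-/

namespace Pool.Helper19.V4

open ArithmeticFunction Finset

private lemma gp_supp69 {b g K : ℕ} (hg : 1 ≤ g) {f : ArithmeticFunction ℂ} (h : Pc K f) {m : ℕ} (hm : gp b g f m ≠ 0) :
    m ≤ 2 * K / g := by
  have h1 : gp b g f m = if Nat.gcd (g * m) b = g then f (g * m) else 0 := rfl
  rw [h1] at hm
  have h2 : f (g * m) ≠ 0 := by
    intro h0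
    apply hm
    rw [h0]
    split_ifs <;> rfl
  have h3 := (h.supp _ h2).2
  rw [Nat.le_div_iff_mul_le (by omega), mul_comm]
  exact h3.le

private lemma gp_le69 {b g K : ℕ} {f : ArithmeticFunction ℂ} (h : Pc K f) (m : ℕ) : ‖gp b g f m‖ ≤ 1 := by
  have h1 : gp b g f m = if Nat.gcd (g * m) b = g then f (g * m) else 0 := rfl
  rw [h1]
  split_ifs
  · exact h.le _
  · simp

private lemma mul_supp69 {f g : ArithmeticFunction ℂ} {A B : ℕ} (hf : ∀ n, f n ≠ 0 → n ≤ A) (hg : ∀ n, g n ≠ 0 → n ≤ B)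
    {n : ℕ} (hn : (f * g) n ≠ 0) : n ≤ A * B := by
  rw [ArithmeticFunction.mul_apply] at hn
  obtain ⟨p, hp, h⟩ := Finset.exists_ne_zero_of_sum_ne_zero hn
  rw [Nat.mem_divisorsAntidiagonal] at hp
  have h1 : f p.1 ≠ 0 := fun h0 => h (by rw [h0, zero_mul])
  have h2 : g p.2 ≠ 0 := fun h0 => h (by rw [h0, mul_zero])
  rw [← hp.1]
  exact Nat.mul_le_mul (hf _ h1) (hg _ h2)

private lemma divpow69 {C δ M : ℝ} (hC : 0 < C) (hδ : 0 < δ) {n j : ℕ} (hd : (n.divisors.card : ℝ) ≤ C * (n : ℝ) ^ δ)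
    (hM : (n : ℝ) ≤ M) (x : ℝ) (hx0 : 0 ≤ x) (hx : x ≤ (n.divisors.card : ℝ) ^ j) : x ^ 2 ≤ (C * M ^ δ) ^ (2 * j) := by
  have h1 : (n : ℝ) ^ δ ≤ M ^ δ := Real.rpow_le_rpow (by positivity) hM hδ.le
  have h2 : (n.divisors.card : ℝ) ≤ C * M ^ δ := hd.trans (mul_le_mul_of_nonneg_left h1 hC.le)
  have h3 : (n.divisors.card : ℝ) ^ j ≤ (C * M ^ δ) ^ j := pow_le_pow_left₀ (by positivity) h2 j
  calc x ^ 2 ≤ ((C * M ^ δ) ^ j) ^ 2 := pow_le_pow_left₀ hx0 (hx.trans h3) 2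
    _ = (C * M ^ δ) ^ (2 * j) := by rw [← pow_mul, mul_comm j 2]

theorem large_g {ε : ℝ} (hε : 0 < ε) : ∃ C : ℝ, 0 < C ∧ ∀ N : ℕ, 2 ≤ N → ∀ (a : ℤ) (b : ℕ), 1 ≤ b →
    IsCoprime a (b : ℤ) → ∀ (f : Fin 5 → ArithmeticFunction ℂ) (K : Fin 5 → ℕ), (∀ i, Pc (K i) (f i)) → ∏ i, K i ≤ N →
    ∀ t : Fin 5 → ℕ, (∀ i, t i ∈ b.divisors) → ∀ X : ℕ, 32 * ∏ i, K i ≤ X →
      ‖SF (∏ i, gp b (t i) (f i)) (X / ∏ i, t i) (a * (((∏ i, t i) / Nat.gcd (∏ i, t i) b : ℕ) : ℤ)) (b / Nat.gcd (∏ i, t i) b)‖ ^ 2 ≤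
        C * (N : ℝ) ^ ε * ((∏ i, (K i : ℝ)) / ∏ i, (t i : ℝ)) *
          ((∏ i, (K i : ℝ)) / b + (K 0 : ℝ) * K 1 + (K 2 : ℝ) * K 3 * K 4 + b) := by
  obtain ⟨C1, hC1, hdiv⟩ := Pool.Agent.Helper69.FF.div_bound (ε := ε / 10) (by positivity)
  refine ⟨1024 * ((C1 * 8 ^ (ε / 10)) ^ 10), by positivity, ?_⟩
  intro N hN a b hb hab f K hf hK t ht X hX
  have ht1 : ∀ i, 1 ≤ t i := fun i => Nat.pos_of_mem_divisors (ht i)
  have hK1 : ∀ i, 1 ≤ K i := fun i => (hf i).pos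
  obtain ⟨G, hG⟩ : ∃ G, G = ∏ i, t i := ⟨_, rfl⟩
  have hG1 : 1 ≤ G := by
    rw [hG]
    exact Nat.one_le_iff_ne_zero.2 (Finset.prod_ne_zero_iff.2 fun i _ => by have := ht1 i; omega)
  have hGR : (∏ i, (t i : ℝ)) = (G : ℝ) := by rw [hG]; push_cast; rfl
  rw [hGR, ← hG]
  obtain ⟨d, hd⟩ : ∃ d, d = Nat.gcd G b := ⟨_, rfl⟩
  have hd0 : 0 < d := by rw [hd]; exact Nat.gcd_pos_of_pos_right _ (by omega)
  have hdG : d ≤ G := by rw [hd]; exact Nat.gcd_le_left _ (by omega)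
  have hdb : d ∣ b := by rw [hd]; exact Nat.gcd_dvd_right G b
  have hcop : IsCoprime (a * (G / d : ℕ)) ((b / d : ℕ) : ℤ) := by rw [hd]; exact coprime_red hb hab
  rw [← hd]
  have hb'1 : 1 ≤ b / d := Nat.div_pos (Nat.le_of_dvd (by omega) hdb) hd0
  have hb'b : b / d ≤ b := Nat.div_le_self _ _
  have hbd : (b : ℝ) = d * ((b / d : ℕ) : ℝ) := by
    have := Nat.mul_div_cancel' hdb
    exact_mod_cast this.symm
  -- the factors
  obtain ⟨g, hgdef⟩ : ∃ g : Fin 5 → ArithmeticFunction ℂ, ∀ i, g i = gp b (t i) (f i) := ⟨_, fun _ => rfl⟩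
  have hgs : ∀ i n, g i n ≠ 0 → n ≤ 2 * K i / t i := fun i n hn => by
    rw [hgdef] at hn
    exact gp_supp69 (ht1 i) (hf i) hn
  have hgl : ∀ i n, ‖g i n‖ ≤ 1 := fun i n => by rw [hgdef]; exact gp_le69 (hf i) n
  have hprod : (∏ i, gp b (t i) (f i)) = (g 0 * g 1) * (g 2 * g 3 * g 4) := by
    rw [Fin.prod_univ_five, ← hgdef, ← hgdef, ← hgdef, ← hgdef, ← hgdef]
    ring
  rw [hprod]
  obtain ⟨q, hq⟩ : ∃ q : Fin 5 → ℕ, ∀ i, q i = 2 * K i / t i := ⟨_, fun _ => rfl⟩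
  have hqt : ∀ i, q i * t i ≤ 2 * K i := fun i => by rw [hq]; exact Nat.div_mul_le_self _ _
  have hqK : ∀ i, q i ≤ 2 * K i := fun i => by rw [hq]; exact Nat.div_le_self _ _
  have hgs' : ∀ i n, g i n ≠ 0 → n ≤ q i := fun i n hn => by rw [hq]; exact hgs i n hn
  obtain ⟨A, hA⟩ : ∃ A, A = q 0 * q 1 := ⟨_, rfl⟩
  obtain ⟨B, hB⟩ : ∃ B, B = q 2 * q 3 * q 4 := ⟨_, rfl⟩
  have hF1 : ∀ n, (g 0 * g 1) n ≠ 0 → n ≤ A := fun n hn => by
    rw [hA]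
    exact mul_supp69 (hgs' 0) (hgs' 1) hn
  have hF2 : ∀ n, (g 2 * g 3 * g 4) n ≠ 0 → n ≤ B := fun n hn => by
    rw [hB]
    exact mul_supp69 (fun m hm => mul_supp69 (hgs' 2) (hgs' 3) hm) (hgs' 4) hn
  have hABG : A * B * G ≤ 32 * ∏ i, K i := by
    have e1 : A * B * G = (q 0 * t 0) * (q 1 * t 1) * (q 2 * t 2) * (q 3 * t 3) * (q 4 * t 4) := by
      rw [hA, hB, hG, Fin.prod_univ_five]; ring
    have e2 : 32 * ∏ i, K i = (2 * K 0) * (2 * K 1) * (2 * K 2) * (2 * K 3) * (2 * K 4) := by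
      rw [Fin.prod_univ_five]; ring
    rw [e1, e2]
    exact Nat.mul_le_mul (Nat.mul_le_mul (Nat.mul_le_mul (Nat.mul_le_mul (hqt 0) (hqt 1)) (hqt 2)) (hqt 3)) (hqt 4)
  have hABX : A * B ≤ X / G := by
    rw [Nat.le_div_iff_mul_le (by omega)]
    exact hABG.trans hX
  rw [SF_mul (g 0 * g 1) (g 2 * g 3 * g 4) hF1 hF2 hABX]
  refine (type_two hb'1 hcop A B (fun m => (g 0 * g 1) m) (fun n => (g 2 * g 3 * g 4) n)).trans ?_
  -- the sizes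
  have hKN : (∏ i, K i) ≤ N := hK
  have hA4 : A ≤ 4 * (K 0 * K 1) := by
    rw [hA]
    calc q 0 * q 1 ≤ (2 * K 0) * (2 * K 1) := Nat.mul_le_mul (hqK 0) (hqK 1)
      _ = 4 * (K 0 * K 1) := by ring
  have hB8 : B ≤ 8 * (K 2 * K 3 * K 4) := by
    rw [hB]
    calc q 2 * q 3 * q 4 ≤ (2 * K 2) * (2 * K 3) * (2 * K 4) :=
          Nat.mul_le_mul (Nat.mul_le_mul (hqK 2) (hqK 3)) (hqK 4)
      _ = 8 * (K 2 * K 3 * K 4) := by ring
  have h01 : K 0 * K 1 ≤ N := by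
    refine le_trans ?_ hKN
    rw [Fin.prod_univ_five]
    have : 1 ≤ K 2 * K 3 * K 4 := Nat.one_le_iff_ne_zero.2 (by
      have h2 := hK1 2; have h3 := hK1 3; have h4 := hK1 4
      positivity)
    calc K 0 * K 1 = K 0 * K 1 * 1 := (mul_one _).symm
      _ ≤ K 0 * K 1 * (K 2 * K 3 * K 4) := Nat.mul_le_mul_left _ this
      _ = _ := by ring
  have h234 : K 2 * K 3 * K 4 ≤ N := by
    refine le_trans ?_ hKN
    rw [Fin.prod_univ_five]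
    have : 1 ≤ K 0 * K 1 := Nat.one_le_iff_ne_zero.2 (by
      have h2 := hK1 0; have h3 := hK1 1
      positivity)
    calc K 2 * K 3 * K 4 = 1 * (K 2 * K 3 * K 4) := (one_mul _).symm
      _ ≤ K 0 * K 1 * (K 2 * K 3 * K 4) := Nat.mul_le_mul_right _ this
      _ = _ := by ring
  have hAN : (A : ℝ) ≤ 8 * N := by
    have : A ≤ 8 * N := by omega
    exact_mod_cast this
  have hBN : (B : ℝ) ≤ 8 * N := by
    have : B ≤ 8 * N := by omega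
    exact_mod_cast this
  obtain ⟨E, hE⟩ : ∃ E : ℝ, E = C1 * (8 * (N : ℝ)) ^ (ε / 10) := ⟨_, rfl⟩
  have hE0 : 0 < E := by
    have : (0 : ℝ) < N := by exact_mod_cast (by omega : 0 < N)
    rw [hE]; positivity
  have hs1 : ∑ m ∈ Icc 1 A, ‖(g 0 * g 1) m‖ ^ 2 ≤ A * E ^ 4 := by
    have h1 : ∀ m ∈ Icc 1 A, ‖(g 0 * g 1) m‖ ^ 2 ≤ E ^ 4 := by
      intro m hm
      rw [mem_Icc] at hm
      have h2 := prod_le ({0, 1} : Finset (Fin 5)) (f := g) (fun i _ n => hgl i n) (n := m) (by omega)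
      have h3 : (∏ i ∈ ({0, 1} : Finset (Fin 5)), g i) = g 0 * g 1 := by
        rw [Finset.prod_insert (by decide), Finset.prod_singleton]
      have h4 : ({0, 1} : Finset (Fin 5)).card = 2 := by decide
      rw [h3, h4] at h2
      rw [hE]
      exact divpow69 (j := 2) hC1 (by positivity) (hdiv m (by omega))
        (le_trans (by exact_mod_cast hm.2) hAN) _ (norm_nonneg _) h2
    refine (Finset.sum_le_sum h1).trans (le_of_eq ?_)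
    rw [Finset.sum_const, Nat.card_Icc, nsmul_eq_mul]
    simp
  have hs2 : ∑ n ∈ Icc 1 B, ‖(g 2 * g 3 * g 4) n‖ ^ 2 ≤ B * E ^ 6 := by
    have h1 : ∀ n ∈ Icc 1 B, ‖(g 2 * g 3 * g 4) n‖ ^ 2 ≤ E ^ 6 := by
      intro m hm
      rw [mem_Icc] at hm
      have h2 := prod_le ({2, 3, 4} : Finset (Fin 5)) (f := g) (fun i _ n => hgl i n) (n := m) (by omega)
      have h3 : (∏ i ∈ ({2, 3, 4} : Finset (Fin 5)), g i) = g 2 * g 3 * g 4 := by
        rw [Finset.prod_insert (by decide), Finset.prod_insert (by decide), Finset.prod_singleton]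
        ring
      have h4 : ({2, 3, 4} : Finset (Fin 5)).card = 3 := by decide
      rw [h3, h4] at h2
      rw [hE]
      exact divpow69 (j := 3) hC1 (by positivity) (hdiv m (by omega))
        (le_trans (by exact_mod_cast hm.2) hBN) _ (norm_nonneg _) h2
    refine (Finset.sum_le_sum h1).trans (le_of_eq ?_)
    rw [Finset.sum_const, Nat.card_Icc, nsmul_eq_mul]
    simp
  have hE10 : E ^ 10 = (C1 * 8 ^ (ε / 10)) ^ 10 * (N : ℝ) ^ ε := by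
    have hN0 : (0 : ℝ) ≤ N := by positivity
    rw [hE, Real.mul_rpow (by norm_num) hN0, ← mul_assoc, mul_pow, ← Real.rpow_natCast ((N : ℝ) ^ (ε / 10)) 10,
      ← Real.rpow_mul hN0]
    congr 2
    push_cast
    ring
  have hb'0 : (0 : ℝ) < ((b / d : ℕ) : ℝ) := by exact_mod_cast hb'1
  have hG0 : (0 : ℝ) < G := by exact_mod_cast hG1
  have hb0 : (0 : ℝ) < b := by exact_mod_cast hb
  have hdR : (0 : ℝ) < d := by exact_mod_cast hd0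
  obtain ⟨P, hP⟩ : ∃ P : ℝ, P = ∏ i, (K i : ℝ) := ⟨_, rfl⟩
  have hP0 : 0 ≤ P := by rw [hP]; positivity
  have hAB : (A : ℝ) * B ≤ 32 * (P / G) := by
    have h1 : (A : ℝ) * B * G ≤ 32 * P := by
      rw [hP]
      exact_mod_cast hABG
    rw [← mul_div_assoc, le_div_iff₀ hG0]
    exact h1
  have hABb : (A : ℝ) * B / ((b / d : ℕ) : ℝ) ≤ 32 * (P / b) := by
    rw [div_le_iff₀ hb'0]
    have h1 : (b / d : ℕ) = (b : ℝ) / d := by rw [hbd]; field_simp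
    rw [h1]
    refine hAB.trans ?_
    have h2 : 32 * (P / b) * (b / d) = 32 * (P / d) := by field_simp
    rw [h2]
    have h3 : P / G ≤ P / d := div_le_div_of_nonneg_left hP0 hdR (by exact_mod_cast hdG)
    linarith
  have hA4R : (A : ℝ) ≤ 4 * (K 0 * K 1) := by exact_mod_cast hA4
  have hB8R : (B : ℝ) ≤ 8 * (K 2 * K 3 * K 4) := by exact_mod_cast hB8
  have hb'bR : ((b / d : ℕ) : ℝ) ≤ b := by exact_mod_cast hb'b
  have hcomb : ((A : ℝ) + (b / d : ℕ)) * ((B : ℝ) + (b / d : ℕ)) / (b / d : ℕ) ≤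
      32 * (P / b + (K 0 : ℝ) * K 1 + (K 2 : ℝ) * K 3 * K 4 + b) := by
    have e : ((A : ℝ) + (b / d : ℕ)) * ((B : ℝ) + (b / d : ℕ)) / (b / d : ℕ) =
        (A : ℝ) * B / ((b / d : ℕ) : ℝ) + A + B + (b / d : ℕ) := by
      field_simp
      ring
    rw [e]
    have k1 : (0 : ℝ) ≤ (K 0 : ℝ) * K 1 := by positivity
    have k2 : (0 : ℝ) ≤ (K 2 : ℝ) * K 3 * K 4 := by positivity
    linarith
  rw [← hP]
  have hs0 : 0 ≤ ∑ m ∈ Icc 1 A, ‖(g 0 * g 1) m‖ ^ 2 := Finset.sum_nonneg fun _ _ => by positivity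
  have hc0 : 0 ≤ 32 * (P / b + (K 0 : ℝ) * K 1 + (K 2 : ℝ) * K 3 * K 4 + b) := by positivity
  calc ((A : ℝ) + (b / d : ℕ)) * ((B : ℝ) + (b / d : ℕ)) / (b / d : ℕ) * (∑ m ∈ Icc 1 A, ‖(g 0 * g 1) m‖ ^ 2) *
        ∑ n ∈ Icc 1 B, ‖(g 2 * g 3 * g 4) n‖ ^ 2 ≤
      32 * (P / b + (K 0 : ℝ) * K 1 + (K 2 : ℝ) * K 3 * K 4 + b) * (A * E ^ 4) * (B * E ^ 6) := by
        refine mul_le_mul (mul_le_mul hcomb hs1 hs0 hc0) hs2 (Finset.sum_nonneg fun _ _ => by positivity)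
          (mul_nonneg hc0 (by positivity))
    _ = 32 * (P / b + (K 0 : ℝ) * K 1 + (K 2 : ℝ) * K 3 * K 4 + b) * E ^ 10 * (A * B) := by ring
    _ ≤ 32 * (P / b + (K 0 : ℝ) * K 1 + (K 2 : ℝ) * K 3 * K 4 + b) * E ^ 10 * (32 * (P / G)) :=
        mul_le_mul_of_nonneg_left hAB (mul_nonneg hc0 (by positivity))
    _ = _ := by rw [hE10]; ring

end Pool.Helper19.V4
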