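import Pool.Agent.Helper19.V4.Defs

/-!
# V4-1: partial summation

With `β = x - y`: `F_N(x) = ∑ μ(n) e(n y) e(n β) = F_N(y) e(N β) - ∑_{1 ≤ n < N} F_n(y) (e((n+1) β) - e(n β))`, `|e((n+1) β) - e(n β)| = |e(β) - 1| ≤ 2 π |β|`.
-/

namespace Pool.Helper19.V4

open ArithmeticFunction Finset

private lemma psid_5 (N : ℕ) (x y : ℝ) :
    FM N x = FM N y * ex (N * (x - y)) -
      ∑ n ∈ range N, FM n y * (ex ((n + 1) * (x - y)) - ex (n * (x - y))) := by
  induction N with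
  | zero => simp [FM]
  | succ N ih =>
    have h1 : ∀ z : ℝ, FM (N + 1) z =
        FM N z + ((ArithmeticFunction.moebius (N + 1) : ℤ) : ℂ) * ex ((N + 1 : ℝ) * z) := by
      intro z
      unfold FM
      rw [Finset.sum_Icc_succ_top (Nat.le_add_left 1 N)]
      push_cast
      rfl
    have h2 : ex ((N + 1 : ℝ) * x) = ex ((N + 1 : ℝ) * y) * ex ((N + 1 : ℝ) * (x - y)) := by
      rw [← ex_add]
      congr 1
      ring
    rw [h1 x, ih, h1 y, Finset.sum_range_succ, h2]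
    push_cast
    ring

private lemma pslip_5 (β : ℝ) (n : ℕ) :
    ‖ex ((n + 1) * β) - ex (n * β)‖ ≤ 2 * Real.pi * |β| := by
  have h1 : ex ((n + 1) * β) = ex (n * β) * ex β := by
    rw [← ex_add]
    congr 1
    ring
  rw [h1, ← mul_sub_one, norm_mul, norm_ex, one_mul]
  have h2 := Real.norm_exp_I_mul_ofReal_sub_one_le (x := 2 * Real.pi * β)
  rw [mul_comm Complex.I] at h2
  refine h2.trans (le_of_eq ?_)
  rw [Real.norm_eq_abs, abs_mul, abs_of_pos (by positivity : (0 : ℝ) < 2 * Real.pi)]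

theorem partsum {N : ℕ} {x y B : ℝ} (hB : ∀ M ≤ N, ‖FM M y‖ ≤ B) :
    ‖FM N x‖ ≤ B * (1 + 2 * Real.pi * N * |x - y|) := by
  rw [psid_5 N x y]
  refine (norm_sub_le _ _).trans ?_
  have h1 : ‖FM N y * ex (N * (x - y))‖ ≤ B := by
    rw [norm_mul, norm_ex, mul_one]
    exact hB N le_rfl
  have h2 : ‖∑ n ∈ range N, FM n y * (ex ((n + 1) * (x - y)) - ex (n * (x - y)))‖ ≤
      ∑ n ∈ range N, B * (2 * Real.pi * |x - y|) := by
    refine norm_sum_le_of_le _ fun n hn => ?_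
    rw [norm_mul]
    have hn' : n ≤ N := (mem_range.1 hn).le
    exact mul_le_mul (hB n hn') (pslip_5 (x - y) n) (norm_nonneg _)
      ((norm_nonneg _).trans (hB n hn'))
  rw [Finset.sum_const, card_range, nsmul_eq_mul] at h2
  calc _ ≤ B + N * (B * (2 * Real.pi * |x - y|)) := add_le_add h1 h2
    _ = _ := by ring

end Pool.Helper19.V4
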