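import Pool.Agent.Helper19.V4.Defs

/-!
# V4-8b: twists and products

* `tw_prod`: `tw ξ` is multiplicative (`log (x y) = log x + log y` for `x, y ≥ 1`, the value at `0` is `0`), `tw ξ 1 = 1`; induction over `s`.
* `SF_mul`: `∑_{n ≤ X} (f * g)(n) e(a n/b) = ∑_{m ≤ A} ∑_{n ≤ B} f(m) g(n) e(a m n / b)` if `f` is supported in `[0, A]`, `g` in `[0, B]`, `A B ≤ X` (`ArithmeticFunction.mul_apply`,
`Nat.divisorsAntidiagonal`; the pairs `(m, n)`, `1 ≤ m ≤ A`, `1 ≤ n ≤ B` all have `m n ≤ X`).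
-/

namespace Pool.Helper19.V4

open ArithmeticFunction Finset

private lemma tw_apply69 (ξ : ℝ) (f : ArithmeticFunction ℂ) (n : ℕ) :
    tw ξ f n = f n * Complex.exp (((ξ * Real.log n : ℝ) : ℂ) * Complex.I) := rfl

theorem tw_mul (f g : ArithmeticFunction ℂ) (ξ : ℝ) : tw ξ (f * g) = tw ξ f * tw ξ g := by
  ext n
  rw [tw_apply69, ArithmeticFunction.mul_apply, ArithmeticFunction.mul_apply, Finset.sum_mul]
  refine Finset.sum_congr rfl fun p hp => ?_
  rw [Nat.mem_divisorsAntidiagonal] at hp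
  obtain ⟨h1, h2⟩ := hp
  have hx : p.1 ≠ 0 := fun h => h2 (by rw [← h1, h, zero_mul])
  have hy : p.2 ≠ 0 := fun h => h2 (by rw [← h1, h, mul_zero])
  rw [tw_apply69, tw_apply69]
  have hlog : Real.log n = Real.log p.1 + Real.log p.2 := by
    rw [← h1]
    push_cast
    exact Real.log_mul (by exact_mod_cast hx) (by exact_mod_cast hy)
  have hE : Complex.exp (((ξ * Real.log n : ℝ) : ℂ) * Complex.I) =
      Complex.exp (((ξ * Real.log p.1 : ℝ) : ℂ) * Complex.I) *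
        Complex.exp (((ξ * Real.log p.2 : ℝ) : ℂ) * Complex.I) := by
    rw [← Complex.exp_add, hlog]
    congr 1
    push_cast
    ring
  rw [hE]
  ring

private lemma tw_one69 (ξ : ℝ) : tw ξ (1 : ArithmeticFunction ℂ) = 1 := by
  ext n
  rw [tw_apply69]
  by_cases h : n = 1
  · subst h
    simp
  · rw [ArithmeticFunction.one_apply_ne h, zero_mul]

theorem tw_prod {ι : Type*} (s : Finset ι) (f : ι → ArithmeticFunction ℂ) (ξ : ℝ) :
    tw ξ (∏ i ∈ s, f i) = ∏ i ∈ s, tw ξ (f i) := by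
  classical
  induction s using Finset.induction_on with
  | empty => rw [Finset.prod_empty, Finset.prod_empty, tw_one69]
  | insert a s ha ih => rw [Finset.prod_insert ha, Finset.prod_insert ha, tw_mul, ih]

theorem tw_pc {K : ℕ} {f : ArithmeticFunction ℂ} (h : Pc K f) (ξ : ℝ) : Pc K (tw ξ f) := by
  refine ⟨h.pos, fun n hn => h.supp n fun h0 => hn ?_, fun n => ?_⟩
  · rw [tw_apply69, h0, zero_mul]
  · rw [tw_apply69, norm_mul, Complex.norm_exp_ofReal_mul_I, mul_one]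
    exact h.le n

theorem SF_mul (f g : ArithmeticFunction ℂ) {A B X : ℕ} (hf : ∀ n, f n ≠ 0 → n ≤ A) (hg : ∀ n, g n ≠ 0 → n ≤ B)
    (hX : A * B ≤ X) (a : ℤ) (b : ℕ) :
    SF (f * g) X a b = ∑ m ∈ Icc 1 A, ∑ n ∈ Icc 1 B, f m * g n * ex ((a : ℝ) * ((m : ℝ) * n) / b) := by
  classical
  rw [SF, ← Finset.sum_product' (Icc 1 A) (Icc 1 B) fun m n => f m * g n * ex ((a : ℝ) * ((m : ℝ) * n) / b)]
  have hmaps : ∀ p ∈ Icc 1 A ×ˢ Icc 1 B, p.1 * p.2 ∈ Icc 1 X := by
    intro p hp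
    rw [mem_product, mem_Icc, mem_Icc] at hp
    rw [mem_Icc]
    exact ⟨Nat.one_le_iff_ne_zero.mpr (Nat.mul_ne_zero (by omega) (by omega)),
      (Nat.mul_le_mul hp.1.2 hp.2.2).trans hX⟩
  rw [← Finset.sum_fiberwise_of_maps_to hmaps]
  refine Finset.sum_congr rfl fun n hn => ?_
  rw [ArithmeticFunction.mul_apply, Finset.sum_mul]
  rw [mem_Icc] at hn
  have hsub : (Icc 1 A ×ˢ Icc 1 B).filter (fun p => p.1 * p.2 = n) ⊆ n.divisorsAntidiagonal := by
    intro p hp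
    rw [mem_filter] at hp
    rw [Nat.mem_divisorsAntidiagonal]
    exact ⟨hp.2, by omega⟩
  rw [← Finset.sum_subset hsub]
  · refine Finset.sum_congr rfl fun p hp => ?_
    rw [mem_filter] at hp
    rw [← hp.2]
    push_cast
    rfl
  · intro p hp hnp
    rw [Nat.mem_divisorsAntidiagonal] at hp
    obtain ⟨h1, h2⟩ := hp
    have hx : p.1 ≠ 0 := fun h => h2 (by rw [← h1, h, zero_mul])
    have hy : p.2 ≠ 0 := fun h => h2 (by rw [← h1, h, mul_zero])
    by_contra hne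
    apply hnp
    rw [mem_filter, mem_product, mem_Icc, mem_Icc]
    refine ⟨⟨⟨by omega, hf _ fun h0 => hne ?_⟩, ⟨by omega, hg _ fun h0 => hne ?_⟩⟩, h1⟩
    · rw [h0, zero_mul, zero_mul]
    · rw [h0, mul_zero, zero_mul]

end Pool.Helper19.V4
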