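import Pool.Agent.Helper19.V4.ProdA
import Pool.Agent.Helper19.V4.ProdB

/-!
# V4-8: products of dyadic pieces (see `ProdA`, `ProdB`)
-/
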