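import Pool.Agent.Helper19.V4.Defs

/-!
# V4-8a: products of dyadic pieces, trivial facts

Induction over `s` (`Finset.induction_on`), `(f * g) n = ∑_{(x, y), x y = n} f x g y` (`ArithmeticFunction.mul_apply`), `∏_{i ∈ ∅} f i = 1`.
* `prod_supp`: the product is supported in `[∏ K, 2^|s| ∏ K]`.
* `prod_le`: `|(∏ f) n| ≤ d(n)^|s|` (the number of ordered factorisations; `d(x) ≤ d(n)` for `x ∣ n`).
* `prod_l1`: `∑_{n ≤ X} |(∏ f) n| ≤ ∏ K` (`f i` has at most `K i` nonzero values).
-/

namespace Pool.Helper19.V4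

open ArithmeticFunction Finset

private theorem one_ne61 {n : ℕ} (hn : (1 : ArithmeticFunction ℂ) n ≠ 0) : n = 1 := by
  by_contra h
  exact hn (ArithmeticFunction.one_apply_ne h)

private theorem one_norm61 (n : ℕ) : ‖(1 : ArithmeticFunction ℂ) n‖ ≤ 1 := by
  by_cases h : n = 1
  · rw [h, ArithmeticFunction.one_one, norm_one]
  · rw [ArithmeticFunction.one_apply_ne h, norm_zero]
    exact zero_le_one

theorem prod_supp {ι : Type*} (s : Finset ι) {f : ι → ArithmeticFunction ℂ} {K : ι → ℕ}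
    (h : ∀ i ∈ s, Pc (K i) (f i)) {n : ℕ} (hn : (∏ i ∈ s, f i) n ≠ 0) :
    ∏ i ∈ s, K i ≤ n ∧ n ≤ 2 ^ s.card * ∏ i ∈ s, K i := by
  classical
  induction s using Finset.induction_on generalizing n with
  | empty =>
    rw [prod_empty] at hn
    rw [one_ne61 hn]
    simp
  | insert a s ha ih =>
    rw [prod_insert ha, ArithmeticFunction.mul_apply] at hn
    obtain ⟨⟨x, y⟩, hxy, hne⟩ := exists_ne_zero_of_sum_ne_zero hn
    rw [Nat.mem_divisorsAntidiagonal] at hxy
    obtain ⟨h1, h2⟩ := (h a (mem_insert_self a s)).supp x (left_ne_zero_of_mul hne)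
    obtain ⟨h3, h4⟩ := ih (fun i hi => h i (mem_insert_of_mem hi)) (right_ne_zero_of_mul hne)
    rw [prod_insert ha, card_insert_of_notMem ha, ← hxy.1]
    refine ⟨Nat.mul_le_mul h1 h3, ?_⟩
    calc x * y ≤ (2 * K a) * (2 ^ s.card * ∏ i ∈ s, K i) := Nat.mul_le_mul h2.le h4
      _ = 2 ^ (s.card + 1) * (K a * ∏ i ∈ s, K i) := by ring

theorem prod_le {ι : Type*} (s : Finset ι) {f : ι → ArithmeticFunction ℂ}
    (h : ∀ i ∈ s, ∀ n, ‖f i n‖ ≤ 1) {n : ℕ} (hn : n ≠ 0) :
    ‖(∏ i ∈ s, f i) n‖ ≤ (n.divisors.card : ℝ) ^ s.card := by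
  classical
  induction s using Finset.induction_on generalizing n with
  | empty =>
    rw [prod_empty, card_empty, pow_zero]
    exact one_norm61 n
  | insert a s ha ih =>
    rw [prod_insert ha, ArithmeticFunction.mul_apply, card_insert_of_notMem ha]
    calc ‖∑ x ∈ n.divisorsAntidiagonal, f a x.1 * (∏ i ∈ s, f i) x.2‖ ≤
          ∑ x ∈ n.divisorsAntidiagonal, ‖f a x.1 * (∏ i ∈ s, f i) x.2‖ := norm_sum_le _ _
      _ ≤ ∑ _x ∈ n.divisorsAntidiagonal, (n.divisors.card : ℝ) ^ s.card := by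
          refine sum_le_sum fun x hx => ?_
          rw [Nat.mem_divisorsAntidiagonal] at hx
          have hy : x.2 ≠ 0 := by
            intro h0
            apply hx.2
            rw [← hx.1, h0, mul_zero]
          have hdvd : x.2 ∣ n := ⟨x.1, by rw [← hx.1, mul_comm]⟩
          have h1 := ih (fun i hi => h i (mem_insert_of_mem hi)) hy
          have h2 : (x.2.divisors.card : ℝ) ≤ n.divisors.card := by
            exact_mod_cast card_le_card (Nat.divisors_subset_of_dvd hn hdvd)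
          rw [norm_mul]
          calc ‖f a x.1‖ * ‖(∏ i ∈ s, f i) x.2‖ ≤ 1 * (x.2.divisors.card : ℝ) ^ s.card :=
                mul_le_mul (h a (mem_insert_self a s) x.1) h1 (norm_nonneg _) zero_le_one
            _ = (x.2.divisors.card : ℝ) ^ s.card := one_mul _
            _ ≤ _ := pow_le_pow_left₀ (Nat.cast_nonneg _) h2 _
      _ = (n.divisors.card : ℝ) ^ (s.card + 1) := by
          rw [sum_const, nsmul_eq_mul]
          have h3 : n.divisorsAntidiagonal.card = n.divisors.card := by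
            rw [← Nat.map_div_right_divisors, card_map]
          rw [h3, pow_succ]
          ring

private theorem pc_l1_61 {K : ℕ} {f : ArithmeticFunction ℂ} (h : Pc K f) (X : ℕ) :
    ∑ n ∈ Icc 1 X, ‖f n‖ ≤ K := by
  calc ∑ n ∈ Icc 1 X, ‖f n‖ = ∑ n ∈ (Icc 1 X).filter (fun n => f n ≠ 0), ‖f n‖ := by
        rw [sum_filter_of_ne]
        intro n _ hn h0
        apply hn
        rw [h0, norm_zero]
    _ ≤ ∑ _n ∈ (Icc 1 X).filter (fun n => f n ≠ 0), (1 : ℝ) := sum_le_sum fun n _ => h.le n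
    _ = ((Icc 1 X).filter (fun n => f n ≠ 0)).card := by simp
    _ ≤ (Ico K (2 * K)).card := by
        refine Nat.cast_le.mpr (card_le_card fun n hn => ?_)
        rw [mem_filter] at hn
        rw [mem_Ico]
        exact h.supp n hn.2
    _ = K := by
        rw [Nat.card_Ico]
        congr 1
        omega

theorem prod_l1 {ι : Type*} (s : Finset ι) {f : ι → ArithmeticFunction ℂ} {K : ι → ℕ}
    (h : ∀ i ∈ s, Pc (K i) (f i)) (X : ℕ) :
    ∑ n ∈ Icc 1 X, ‖(∏ i ∈ s, f i) n‖ ≤ ∏ i ∈ s, (K i : ℝ) := by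
  classical
  induction s using Finset.induction_on with
  | empty =>
    rw [prod_empty, prod_empty]
    calc ∑ n ∈ Icc 1 X, ‖(1 : ArithmeticFunction ℂ) n‖ ≤ ∑ n ∈ Icc 1 X, (if n = 1 then (1 : ℝ) else 0) := by
          refine sum_le_sum fun n _ => ?_
          by_cases h : n = 1
          · rw [if_pos h, h, ArithmeticFunction.one_one, norm_one]
          · rw [if_neg h, ArithmeticFunction.one_apply_ne h, norm_zero]
      _ ≤ 1 := by
          rw [sum_ite_eq']
          split_ifs <;> norm_num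
  | insert a s ha ih =>
    rw [prod_insert ha, prod_insert ha]
    have ih' := ih (fun i hi => h i (mem_insert_of_mem hi))
    have ha' := pc_l1_61 (h a (mem_insert_self a s)) X
    set g : ArithmeticFunction ℂ := ∏ i ∈ s, f i with hg
    calc ∑ n ∈ Icc 1 X, ‖(f a * g) n‖ ≤ ∑ n ∈ Icc 1 X, ∑ x ∈ n.divisorsAntidiagonal, ‖f a x.1‖ * ‖g x.2‖ := by
          refine sum_le_sum fun n _ => ?_
          rw [ArithmeticFunction.mul_apply]
          refine (norm_sum_le _ _).trans (sum_le_sum fun x _ => ?_)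
          rw [norm_mul]
      _ = ∑ y ∈ (Icc 1 X).sigma (fun n => n.divisorsAntidiagonal), ‖f a y.2.1‖ * ‖g y.2.2‖ := by
          rw [sum_sigma]
      _ = ∑ z ∈ ((Icc 1 X).sigma (fun n => n.divisorsAntidiagonal)).image (fun y => y.2), ‖f a z.1‖ * ‖g z.2‖ := by
          rw [sum_image]
          rintro ⟨n, x⟩ hx ⟨n', x'⟩ hx' hxx
          rw [mem_coe, mem_sigma, Nat.mem_divisorsAntidiagonal] at hx hx'
          have e1 : x = x' := hxx
          subst e1
          have e2 : n = n' := hx.2.1.symm.trans hx'.2.1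
          subst e2
          rfl
      _ ≤ ∑ z ∈ (Icc 1 X) ×ˢ (Icc 1 X), ‖f a z.1‖ * ‖g z.2‖ := by
          refine sum_le_sum_of_subset_of_nonneg ?_ fun _ _ _ => by positivity
          intro z hz
          rw [mem_image] at hz
          obtain ⟨⟨n, x⟩, hx, rfl⟩ := hz
          rw [mem_sigma, Nat.mem_divisorsAntidiagonal, mem_Icc] at hx
          obtain ⟨⟨h1, h2⟩, h3, h4⟩ := hx
          simp only at h1 h2 h3 h4
          have hx1 : x.1 ≠ 0 := by
            intro h0
            apply h4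
            rw [← h3, h0, zero_mul]
          have hx2 : x.2 ≠ 0 := by
            intro h0
            apply h4
            rw [← h3, h0, mul_zero]
          have h5 : x.1 ≤ n := by
            rw [← h3]
            exact Nat.le_mul_of_pos_right _ (Nat.pos_of_ne_zero hx2)
          have h6 : x.2 ≤ n := by
            rw [← h3]
            exact Nat.le_mul_of_pos_left _ (Nat.pos_of_ne_zero hx1)
          rw [mem_product, mem_Icc, mem_Icc]
          exact ⟨⟨Nat.pos_of_ne_zero hx1, h5.trans h2⟩, ⟨Nat.pos_of_ne_zero hx2, h6.trans h2⟩⟩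
      _ = (∑ x ∈ Icc 1 X, ‖f a x‖) * ∑ y ∈ Icc 1 X, ‖g y‖ := by
          rw [sum_mul_sum, sum_product]
      _ ≤ (K a : ℝ) * ∏ i ∈ s, (K i : ℝ) := by
          refine mul_le_mul ha' ih' (sum_nonneg fun _ _ => norm_nonneg _) (Nat.cast_nonneg _)

theorem box_triv {k : ℕ} {f : Fin k → ArithmeticFunction ℂ} {K : Fin k → ℕ} (h : ∀ i, Pc (K i) (f i))
    (M : ℕ) (a : ℤ) (b : ℕ) : ‖SF (∏ i, f i) M a b‖ ≤ ∏ i, (K i : ℝ) := by
  refine le_trans ?_ (prod_l1 Finset.univ (fun i _ => h i) M)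
  unfold SF
  refine (norm_sum_le _ _).trans (sum_le_sum fun n _ => ?_)
  rw [norm_mul, norm_ex, mul_one]

theorem box_zero {k : ℕ} {f : Fin k → ArithmeticFunction ℂ} {K : Fin k → ℕ} (h : ∀ i, Pc (K i) (f i))
    {M : ℕ} (hM : M < ∏ i, K i) (a : ℤ) (b : ℕ) : SF (∏ i, f i) M a b = 0 := by
  unfold SF
  refine sum_eq_zero fun n hn => ?_
  rw [mem_Icc] at hn
  by_cases h0 : (∏ i, f i) n = 0
  · rw [h0, zero_mul]
  · have h1 := (prod_supp Finset.univ (fun i _ => h i) h0).1
    omega

end Pool.Helper19.V4
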