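import Pool.Agent.Helper19.V4.Defs
import Pool.Agent.Helper88.LV.Main

/-!
# The hypothesis `LVN` in a small window around `1/2`, from the large value theorem
-/

namespace Pool.Helper19.V4

open ArithmeticFunction Finset

private lemma up19 {N q κ x : ℝ} (hN : 0 < N) (hκ : 0 < κ) (hx : 0 ≤ x) (h : N ^ κ ≤ q) : N ^ x ≤ q ^ (x / κ) := by
  have e1 : N ^ x = (N ^ κ) ^ (x / κ) := by
    rw [← Real.rpow_mul hN.le]
    congr 1
    field_simp
  rw [e1]
  exact Real.rpow_le_rpow (by positivity) h (by positivity)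

private lemma down19 {N q κ x : ℝ} (hN : 0 < N) (hq : 0 ≤ q) (hκ : 0 < κ) (hx : 0 ≤ x) (h : q ≤ N ^ κ) : q ^ (x / κ) ≤ N ^ x := by
  have e1 : N ^ x = (N ^ κ) ^ (x / κ) := by
    rw [← Real.rpow_mul hN.le]
    congr 1
    field_simp
  rw [e1]
  exact Real.rpow_le_rpow hq h (by positivity)

theorem lvn : LVN (4999 / 10000) (50005 / 100000) := by
  obtain ⟨q0, hLV⟩ := Pool.Agent.Helper88.LV.large_values
  have ht : Filter.Tendsto (fun N : ℕ => ((N : ℝ)) ^ ((4999 : ℝ) / 10000)) Filter.atTop Filter.atTop :=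
    (tendsto_rpow_atTop (by norm_num)).comp tendsto_natCast_atTop_atTop
  obtain ⟨N1, hN1⟩ := Filter.eventually_atTop.1 (ht.eventually_ge_atTop (q0 : ℝ))
  refine ⟨1 / 10000, by norm_num, 1 / 1000, by norm_num, max N1 1, fun N hN q _ h0 h1 M hM b hb W hW => ?_⟩
  have hNa : N1 ≤ N := (le_max_left _ _).trans hN
  have hNb : 1 ≤ N := (le_max_right _ _).trans hN
  have hNr : (1 : ℝ) ≤ N := by exact_mod_cast hNb
  have hNp : (0 : ℝ) < N := by linarith
  have hqq : q0 ≤ q := by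
    have : (q0 : ℝ) ≤ q := (hN1 N hNa).trans h0
    exact_mod_cast this
  have hq1 : (1 : ℝ) ≤ q := by exact_mod_cast Nat.pos_of_ne_zero (NeZero.ne q)
  have hqp : (0 : ℝ) < q := by linarith
  have hmono : ∀ {x y : ℝ}, x ≤ y → (q : ℝ) ^ x ≤ (q : ℝ) ^ y := fun hxy => Real.rpow_le_rpow_of_exponent_le hq1 hxy
  rcases Nat.eq_zero_or_pos M with hM0 | hM0
  · -- empty sums
    have hWe : W = ∅ := by
      rw [Finset.eq_empty_iff_forall_notMem]
      intro χ hχ
      have e1 := hW χ hχ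
      rw [hM0] at e1
      simp only [Finset.Icc_eq_empty_of_lt one_pos, Finset.sum_empty, norm_zero] at e1
      have e2 : 0 < (N : ℝ) ^ ((4 : ℝ) / 5 - 1 / 10000) / q := by positivity
      linarith
    rw [hWe, Finset.card_empty, Nat.cast_zero]
    positivity
  have hcard : (W.card : ℝ) ≤ (q : ℝ) ^ (59 / 100 : ℝ) := by
    refine hLV q hqq M b W hM0 ?_ ?_ ?_
    · refine hM.trans ((up19 hNp (by norm_num) (by norm_num) h0).trans (hmono (by norm_num)))
    · intro n _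
      exact (hb n).trans ((up19 hNp (by norm_num) (by norm_num) h0).trans (hmono (by norm_num)))
    · intro χ hχ
      refine le_trans ?_ (hW χ hχ)
      rw [le_div_iff₀ hqp]
      have e1 := down19 (x := (4 : ℝ) / 5 - 1 / 10000) hNp hqp.le (by norm_num) (by norm_num) h1
      refine le_trans ?_ e1
      have e2 : (q : ℝ) ^ (3 / 5 - 1 / 2000 : ℝ) * q = (q : ℝ) ^ (3 / 5 - 1 / 2000 + 1 : ℝ) := by
        rw [Real.rpow_add hqp, Real.rpow_one]
      rw [e2]
      exact hmono (by norm_num)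
  refine hcard.trans ?_
  have e1 : (N : ℝ) ^ (-((6 : ℝ) / 5) - 1 / 1000) = ((N : ℝ) ^ ((1201 : ℝ) / 1000))⁻¹ := by
    rw [← Real.rpow_neg hNp.le]
    congr 1
    norm_num
  rw [e1, ← div_eq_mul_inv, le_div_iff₀ (by positivity)]
  have e2 := up19 (x := (1201 : ℝ) / 1000) hNp (by norm_num) (by norm_num) h0
  calc (q : ℝ) ^ (59 / 100 : ℝ) * (N : ℝ) ^ ((1201 : ℝ) / 1000)
      ≤ (q : ℝ) ^ (59 / 100 : ℝ) * (q : ℝ) ^ ((1201 : ℝ) / 1000 / (4999 / 10000)) := mul_le_mul_of_nonneg_left e2 (by positivity)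
    _ = (q : ℝ) ^ (59 / 100 + (1201 : ℝ) / 1000 / (4999 / 10000)) := by rw [Real.rpow_add hqp]
    _ ≤ (q : ℝ) ^ ((3 : ℕ) : ℝ) := hmono (by norm_num)
    _ = (q : ℝ) ^ 3 := Real.rpow_natCast _ _

end Pool.Helper19.V4
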